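import Pool.Agent.N661.BH.Stm

/-!
# Project BH (helper661): second moments of displaced ladders in the hyperbolic plane

The pairings `∫ φ G w_k(z_t)` satisfy an infinite system of linear differential equations in `t`
up to errors `O(h)`; the system is iterated.  Author: helper645.
-/

set_option autoImplicit false
open MeasureTheory Filter Topology Complex
open scoped ContDiff

namespace Pool.Agent.N645.BH

open Pool.Agent.W745.RW (dx dy TF CC)
open Pool.Agent.TH294.RS (dd db DP DM)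
open Pool.Agent.Y265.RW (sy rr sy_ne sy_norm sy_cont rr_cont sy_symb rr_bound cutoff int_mul int_mulr
  ex_norm ex_cont yy yy_zero)
open Pool.Agent.Y265.HY (SY M2C toR)
open Pool.Agent.N661.BH (mv S_BDH S_ISOH)

noncomputable section

lemma mv_cont (s : ℝ) (v : ℂ) : Continuous (mv s v) := by
  unfold mv
  fun_prop

lemma mv_zero (v z : ℂ) : mv 0 v z = z := by
  unfold mv
  simp

lemma mv_im (s : ℝ) (v z : ℂ) : (mv s v z).im = z.im * (1 + s * v.im) := by
  unfold mv
  simp
  ring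

lemma geo {B : Set ℂ} (hB : IsOpen B) {φ : ℂ → ℝ} (hφ : TF B φ) :
    ∃ U K' : Set ℂ, IsOpen U ∧ tsupport φ ⊆ U ∧ IsCompact K' ∧ K' ⊆ B ∧ U ⊆ K' ∧
      ∃ δ : ℝ, 0 < δ ∧ δ ≤ 1 / 2 ∧ ∀ z ∈ U, ∀ (s : ℝ) (v : ℂ), |s| * ‖v‖ ≤ δ →
        mv s v z ∈ K' := by
  have hK : IsCompact (tsupport φ) := hφ.2.1
  obtain ⟨δ0, hδ0, h0⟩ := hK.exists_cthickening_subset_open hB hφ.2.2
  have hK' : IsCompact (Metric.cthickening δ0 (tsupport φ)) := hK.cthickening
  obtain ⟨R, hR⟩ := hK'.isBounded.exists_norm_le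
  have hU : Metric.thickening (δ0 / 2) (tsupport φ) ⊆ Metric.cthickening δ0 (tsupport φ) :=
    (Metric.thickening_subset_cthickening _ _).trans (Metric.cthickening_mono (by linarith) _)
  refine ⟨Metric.thickening (δ0 / 2) (tsupport φ), Metric.cthickening δ0 (tsupport φ),
    Metric.isOpen_thickening, Metric.self_subset_thickening (by positivity) _, hK', h0, hU,
    min (1 / 2) (δ0 / (2 * (|R| + 1))), by positivity, min_le_left _ _, ?_⟩
  intro z hz s v hs
  have hzR := hR z (hU hz)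
  rw [Metric.mem_thickening_iff] at hz
  obtain ⟨x, hx, hzx⟩ := hz
  refine Metric.thickening_subset_cthickening _ _ ?_
  rw [Metric.mem_thickening_iff]
  refine ⟨x, hx, ?_⟩
  have h1 : dist (mv s v z) z ≤ δ0 / 2 := by
    unfold mv
    rw [dist_eq_norm, add_sub_cancel_left, norm_mul, Complex.norm_real, Real.norm_eq_abs, abs_mul]
    have h2 : |z.im| ≤ |R| + 1 := by
      have := (Complex.abs_im_le_norm z).trans hzR
      have := le_abs_self R
      linarith
    have h3 : |s| * ‖v‖ ≤ δ0 / (2 * (|R| + 1)) := hs.trans (min_le_right _ _)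
    calc |s| * |z.im| * ‖v‖ = (|s| * ‖v‖) * |z.im| := by ring
      _ ≤ δ0 / (2 * (|R| + 1)) * (|R| + 1) :=
          mul_le_mul h3 h2 (abs_nonneg _) (by positivity)
      _ = δ0 / 2 := by
          have : |R| + 1 ≠ 0 := by positivity
          field_simp
  calc dist (mv s v z) x ≤ dist (mv s v z) z + dist z x := dist_triangle _ _ _
    _ < δ0 := by linarith

/-- `mv` as a linear map -/
def L (s : ℝ) (v : ℂ) : ℂ →ₗ[ℝ] ℂ where
  toFun := mv s v
  map_add' x y := by
    unfold mv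
    simp only [Complex.add_im]
    push_cast
    ring
  map_smul' c x := by
    unfold mv
    simp only [Complex.real_smul, Complex.mul_im, Complex.ofReal_re, Complex.ofReal_im,
      RingHom.id_apply]
    push_cast
    ring

lemma L_det (s : ℝ) (v : ℂ) : LinearMap.det (L s v) = 1 + s * v.im := by
  rw [← LinearMap.det_toMatrix Complex.basisOneI, Matrix.det_fin_two]
  simp [LinearMap.toMatrix_apply, L, mv]

lemma cov {s : ℝ} {v : ℂ} (hd : 1 / 2 ≤ 1 + s * v.im) {g : ℂ → ℝ} (hg : Integrable g)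
    (h0 : ∀ z, 0 ≤ g z) :
    Integrable (fun z => g (mv s v z)) ∧ ∫ z, g (mv s v z) ≤ 2 * ∫ z, g z := by
  have hdet : LinearMap.det (L s v) ≠ 0 := by
    rw [L_det]; linarith
  have hm := Measure.map_linearMap_addHaar_eq_smul_addHaar (volume : Measure ℂ) hdet
  have hmeas : Measurable (L s v) := (mv_cont s v).measurable
  have hi : Integrable g (Measure.map (L s v) volume) := by
    rw [hm]; exact hg.smul_measure ENNReal.ofReal_ne_top
  refine ⟨(integrable_map_measure hi.1 hmeas.aemeasurable).1 hi, ?_⟩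
  have h1 : ∫ z, g (mv s v z) = ∫ y, g y ∂(Measure.map (L s v) volume) :=
    (integral_map hmeas.aemeasurable hi.1).symm
  rw [h1, hm, integral_smul_measure, ENNReal.toReal_ofReal (abs_nonneg _), L_det, smul_eq_mul]
  refine mul_le_mul_of_nonneg_right ?_ (integral_nonneg h0)
  rw [abs_of_nonneg (inv_nonneg.2 (by linarith))]
  rw [inv_le_comm₀ (by linarith) (by norm_num)]
  linarith

lemma bdl {φ : ℂ → ℝ} {U K' : Set ℂ} (hK' : IsCompact K') (hφU : tsupport φ ⊆ U)
    {s : ℝ} {v : ℂ} (hs : ∀ z ∈ U, mv s v z ∈ K') (hd : 1 / 2 ≤ 1 + s * v.im) {M : ℝ}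
    (hM : ∀ z, |φ z| ≤ M) {f : ℂ → ℂ} (hf : ContinuousOn f K') :
    ∫ z, |φ z| * ‖f (mv s v z)‖ ^ 2 ≤ 2 * M * ∫ z in K', ‖f z‖ ^ 2 := by
  have hM0 : 0 ≤ M := (abs_nonneg _).trans (hM 0)
  have hg : Integrable (K'.indicator fun z => ‖f z‖ ^ 2) :=
    ((hf.norm.pow 2).integrableOn_compact hK').integrable_indicator hK'.measurableSet
  have h0 : ∀ z, 0 ≤ K'.indicator (fun z => ‖f z‖ ^ 2) z := fun z =>
    Set.indicator_nonneg (fun _ _ => by positivity) z
  obtain ⟨i1, i2⟩ := cov hd hg h0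
  calc ∫ z, |φ z| * ‖f (mv s v z)‖ ^ 2
      ≤ ∫ z, M * K'.indicator (fun z => ‖f z‖ ^ 2) (mv s v z) := by
        refine integral_mono_of_nonneg (Eventually.of_forall fun z => by positivity)
          (i1.const_mul M) (Eventually.of_forall fun z => ?_)
        show |φ z| * ‖f (mv s v z)‖ ^ 2 ≤ M * K'.indicator (fun z => ‖f z‖ ^ 2) (mv s v z)
        by_cases hz : z ∈ tsupport φ
        · rw [Set.indicator_of_mem (hs z (hφU hz))]
          exact mul_le_mul_of_nonneg_right (hM z) (by positivity)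
        · rw [image_eq_zero_of_notMem_tsupport hz, abs_zero, zero_mul]
          exact mul_nonneg hM0 (h0 _)
    _ = M * ∫ z, K'.indicator (fun z => ‖f z‖ ^ 2) (mv s v z) := integral_const_mul _ _
    _ ≤ M * (2 * ∫ z, K'.indicator (fun z => ‖f z‖ ^ 2) z) := mul_le_mul_of_nonneg_left i2 hM0
    _ = 2 * M * ∫ z in K', ‖f z‖ ^ 2 := by
        rw [integral_indicator hK'.measurableSet]; ring

/-- systems of differential inequalities -/
lemma ode {h : ℕ → ℝ} (hh : Tendsto h atTop (𝓝 0)) {ρ A : ℝ} (hρ : 0 ≤ ρ)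
    (D D' : ℕ → ℤ → ℝ → ℂ) (h0 : ∀ k, Tendsto (fun n => D n k 0) atTop (𝓝 0))
    (hb : ∀ k, ∀ᶠ n in atTop, ∀ t ∈ Set.Icc (0 : ℝ) 1, ‖D n k t‖ ≤ A)
    (hd : ∀ k, ∃ C : ℝ, ∀ᶠ n in atTop, ∀ t ∈ Set.Icc (0 : ℝ) 1,
      HasDerivAt (D n k) (D' n k t) t ∧
      ‖D' n k t‖ ≤ ρ / 2 * (‖D n (k + 1) t‖ + ‖D n (k - 1) t‖) + C * h n) (k : ℤ) :
    Tendsto (fun n => D n k 1) atTop (𝓝 0) := by
  have key : ∀ (M : ℕ) (k : ℤ) (ε : ℝ), 0 < ε → ∀ᶠ n in atTop, ∀ t ∈ Set.Icc (0 : ℝ) 1,
      ‖D n k t‖ ≤ A * (ρ * t) ^ M / (M.factorial : ℝ) + ε := by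
    intro M
    induction M with
    | zero =>
      intro k ε hε
      filter_upwards [hb k] with n hn t ht
      have := hn t ht
      simp only [pow_zero, Nat.factorial_zero, Nat.cast_one, mul_one, div_one]
      linarith
    | succ M ih =>
      intro k ε hε
      obtain ⟨C, hC⟩ := hd k
      have e1 : 0 < ε / (4 * (ρ + 1)) := by positivity
      have c1 : ∀ᶠ n in atTop, ‖D n k 0‖ < ε / 4 := by
        have := (h0 k).norm
        rw [norm_zero] at this
        exact this.eventually (gt_mem_nhds (by positivity))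
      have c2 : ∀ᶠ n in atTop, C * h n < ε / 4 := by
        have := hh.const_mul C
        rw [mul_zero] at this
        exact this.eventually (gt_mem_nhds (by positivity))
      filter_upwards [hC, ih (k + 1) _ e1, ih (k - 1) _ e1, c1, c2] with n h1 h2 h3 h4 h5
      have hB : ∀ t : ℝ, HasDerivAt (fun t : ℝ => ε / 4 + A * (ρ * t) ^ (M + 1) /
          ((M + 1).factorial : ℝ) + ε / 2 * t) (ρ * (A * (ρ * t) ^ M / (M.factorial : ℝ)) + ε / 2)
          t := by
        intro t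
        have f1 : HasDerivAt (fun t : ℝ => ρ * t) ρ t := by
          simpa using (hasDerivAt_id t).const_mul ρ
        have f2 := ((((f1.pow (M + 1)).const_mul A).div_const
          ((M + 1).factorial : ℝ)).const_add (ε / 4)).add ((hasDerivAt_id t).const_mul (ε / 2))
        refine (f2.congr_deriv ?_).congr_of_eventuallyEq (Eventually.of_forall fun x => ?_)
        · have : ((M + 1).factorial : ℝ) = (M + 1) * (M.factorial : ℝ) := by
            rw [Nat.factorial_succ]; push_cast; ring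
          rw [this]
          have g1 : (M.factorial : ℝ) ≠ 0 := by positivity
          have g2 : (M : ℝ) + 1 ≠ 0 := by positivity
          simp only [Nat.add_sub_cancel]
          push_cast
          field_simp
        · simp only [Pi.add_apply, id, Pi.pow_apply]
      have main := image_norm_le_of_norm_deriv_right_le_deriv_boundary (a := (0 : ℝ)) (b := 1)
        (f := D n k) (f' := D' n k)
        (B := fun t : ℝ => ε / 4 + A * (ρ * t) ^ (M + 1) /
          ((M + 1).factorial : ℝ) + ε / 2 * t)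
        (B' := fun t => ρ * (A * (ρ * t) ^ M / (M.factorial : ℝ)) + ε / 2)
        (fun t ht => ((h1 t ht).1).continuousAt.continuousWithinAt)
        (fun t ht => ((h1 t (Set.Ico_subset_Icc_self ht)).1).hasDerivWithinAt)
        (by
          simp only [mul_zero]
          rw [zero_pow (Nat.succ_ne_zero M), mul_zero, zero_div]
          linarith)
        (fun t => hB t)
        (fun t ht => by
          have ht' := Set.Ico_subset_Icc_self ht
          have k1 := (h1 t ht').2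
          have k2 := h2 t ht'
          have k3 := h3 t ht'
          have k4 : ρ / 2 * (‖D n (k + 1) t‖ + ‖D n (k - 1) t‖) ≤
              ρ / 2 * (2 * (A * (ρ * t) ^ M / (M.factorial : ℝ) + ε / (4 * (ρ + 1)))) :=
            mul_le_mul_of_nonneg_left (by linarith) (by positivity)
          have k5 : ρ * (ε / (4 * (ρ + 1))) ≤ ε / 4 := by
            rw [mul_div_assoc', div_le_div_iff₀ (by positivity) (by positivity)]
            nlinarith
          have k6 : ρ / 2 * (2 * (A * (ρ * t) ^ M / (M.factorial : ℝ) + ε / (4 * (ρ + 1)))) =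
            ρ * (A * (ρ * t) ^ M / (M.factorial : ℝ)) + ρ * (ε / (4 * (ρ + 1))) := by ring
          linarith)
      intro t ht
      have k7 := main ht
      have k8 : ε / 2 * t ≤ ε / 2 := by
        have := ht.2
        nlinarith
      linarith
  rw [Metric.tendsto_nhds]
  intro ε hε
  have hfac : Tendsto (fun M : ℕ => A * (ρ ^ M / (M.factorial : ℝ))) atTop (𝓝 0) := by
    have := (FloorSemiring.tendsto_pow_div_factorial_atTop ρ).const_mul A
    rwa [mul_zero] at this
  obtain ⟨M, hM⟩ := (hfac.eventually (gt_mem_nhds (show 0 < ε / 2 by positivity))).exists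
  filter_upwards [key M k (ε / 2) (by positivity)] with n hn
  rw [dist_zero_right]
  have := hn 1 (by simp)
  rw [mul_one, mul_div_assoc] at this
  linarith

/-! ### The limits -/

/-- Fourier coefficients of `γ e^{i t rr v}` -/
def cc (γ : ℝ → ℂ) (v : ℂ) (k : ℤ) (t : ℝ) : ℂ :=
  ∫ α in (0:ℝ)..(2 * Real.pi), γ α * (sy α ^ k * Complex.exp (t * (rr v α) * I))

lemma cc_cont {γ : ℝ → ℂ} (hγ : Continuous γ) (v : ℂ) (k : ℤ) (t : ℝ) :
    Continuous fun α => γ α * (sy α ^ k * Complex.exp (t * (rr v α) * I)) :=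
  hγ.mul ((sy_cont k).mul (ex_cont v t))

lemma cc_deriv {γ : ℝ → ℂ} (hγ : Continuous γ) (v : ℂ) (k : ℤ) (t : ℝ) :
    HasDerivAt (cc γ v k)
      ((v * cc γ v (k + 1) t - (starRingEnd ℂ) v * cc γ v (k - 1) t) / 2) t := by
  have hd := intervalIntegral.hasDerivAt_integral_of_dominated_loc_of_deriv_le
    (μ := volume) (a := 0) (b := 2 * Real.pi) (s := Set.univ) (x₀ := t)
    (F := fun (t : ℝ) (α : ℝ) => γ α * (sy α ^ k * Complex.exp (t * (rr v α) * I)))
    (F' := fun (t : ℝ) (α : ℝ) => γ α *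
      (sy α ^ k * (Complex.exp (t * (rr v α) * I) * ((rr v α) * I))))
    (bound := fun α => ‖γ α‖ * (|v.re| + |v.im|)) Filter.univ_mem
    (Eventually.of_forall fun x => (cc_cont hγ v k x).aestronglyMeasurable)
    ((cc_cont hγ v k t).intervalIntegrable _ _)
    ((hγ.mul ((sy_cont k).mul ((ex_cont v t).mul ((Complex.continuous_ofReal.comp (rr_cont v)).mul
      continuous_const)))).aestronglyMeasurable)
    (Eventually.of_forall fun α _ x _ => by
      rw [norm_mul, norm_mul, norm_zpow, sy_norm, one_zpow, one_mul, norm_mul, ex_norm, one_mul,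
        norm_mul, Complex.norm_I, mul_one, Complex.norm_real, Real.norm_eq_abs]
      exact mul_le_mul_of_nonneg_left (rr_bound v α) (norm_nonneg _))
    ((hγ.norm.mul continuous_const).intervalIntegrable _ _)
    (Eventually.of_forall fun α _ x _ => by
      have h1 : HasDerivAt (fun x : ℝ => (x : ℂ) * (rr v α) * I) ((rr v α) * I) x := by
        have := ((Complex.ofRealCLM.hasDerivAt (x := x)).mul_const (rr v α : ℂ)).mul_const I
        simpa using this
      exact ((h1.cexp).const_mul _).const_mul _)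
  refine hd.2.congr_deriv ?_
  unfold cc
  have i1 := (cc_cont hγ v (k + 1) t).intervalIntegrable (μ := volume) 0 (2 * Real.pi)
  have i2 := (cc_cont hγ v (k - 1) t).intervalIntegrable (μ := volume) 0 (2 * Real.pi)
  rw [← intervalIntegral.integral_const_mul, ← intervalIntegral.integral_const_mul,
    ← intervalIntegral.integral_sub (i1.const_mul _) (i2.const_mul _),
    ← intervalIntegral.integral_div]
  refine intervalIntegral.integral_congr (fun α _ => ?_)
  rw [sy_symb, zpow_add_one₀ (sy_ne α), zpow_sub_one₀ (sy_ne α)]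
  ring

lemma cc_bound (γ : ℝ → ℂ) (v : ℂ) (k : ℤ) (t : ℝ) :
    ‖cc γ v k t‖ ≤ ∫ α in (0:ℝ)..(2 * Real.pi), ‖γ α‖ := by
  unfold cc
  refine (intervalIntegral.norm_integral_le_integral_norm (by positivity)).trans (le_of_eq ?_)
  refine intervalIntegral.integral_congr fun α _ => ?_
  rw [norm_mul, norm_mul, norm_zpow, sy_norm, one_zpow, one_mul, ex_norm, mul_one]

/-! ### Pairings -/

lemma int_abs {U : Set ℂ} (hU : IsOpen U) {φ : ℂ → ℝ} (hφ : TF U φ) {f : ℂ → ℂ}
    (hf : ContinuousOn f U) : Integrable (fun z => |φ z| * ‖f z‖ ^ 2) := by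
  have := (int_mulr hU hφ (hf.norm.pow 2)).abs
  refine this.congr (Eventually.of_forall fun z => ?_)
  show |φ z * ‖f z‖ ^ 2| = _
  rw [abs_mul, abs_of_nonneg (by positivity : 0 ≤ ‖f z‖ ^ 2)]

lemma pair_bd {U : Set ℂ} (hU : IsOpen U) {φ : ℂ → ℝ} (hφ : TF U φ) {g f : ℂ → ℂ}
    (hg : ContinuousOn g U) (hf : ContinuousOn f U) :
    ‖∫ z, (φ z : ℂ) * (g z * f z)‖ ≤
      (∫ z, |φ z| * ‖g z‖ ^ 2) + ∫ z, |φ z| * ‖f z‖ ^ 2 := by
  rw [← integral_add (int_abs hU hφ hg) (int_abs hU hφ hf)]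
  refine norm_integral_le_of_norm_le ((int_abs hU hφ hg).add (int_abs hU hφ hf))
    (Eventually.of_forall fun z => ?_)
  show _ ≤ |φ z| * ‖g z‖ ^ 2 + |φ z| * ‖f z‖ ^ 2
  rw [norm_mul, norm_mul, Complex.norm_real, Real.norm_eq_abs, ← mul_add]
  refine mul_le_mul_of_nonneg_left ?_ (abs_nonneg _)
  nlinarith [sq_nonneg (‖g z‖ - ‖f z‖), sq_nonneg (‖g z‖), sq_nonneg (‖f z‖)]

lemma der {U K' B : Set ℂ} (hU : IsOpen U) (hUK : U ⊆ K') {φ : ℂ → ℝ} (hφ : TF U φ)
    (hK' : IsCompact K') (hB : IsOpen B) (hK'B : K' ⊆ B) {h : ℝ} {v : ℂ}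
    (hs : ∀ z ∈ U, ∀ t : ℝ, |t| ≤ 2 → mv (t * h) v z ∈ K')
    {g f : ℂ → ℂ} (hg : ContinuousOn g U) (hf : ContDiffOn ℝ ∞ f B) {t : ℝ}
    (ht : t ∈ Set.Icc (0:ℝ) 1) :
    HasDerivAt (fun t : ℝ => ∫ z, (φ z : ℂ) * (g z * f (mv (t * h) v z)))
      (∫ z, (φ z : ℂ) * (g z * fderiv ℝ f (mv (t * h) v z) (((h * z.im : ℝ) : ℂ) * v))) t := by
  have hball : ∀ x ∈ Metric.ball t 1, |x| ≤ 2 := by
    intro x hx
    rw [Metric.mem_ball, Real.dist_eq, abs_lt] at hx
    have := ht.1
    have := ht.2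
    rw [abs_le]
    constructor <;> linarith [hx.1, hx.2]
  have ht2 : |t| ≤ 2 := hball t (Metric.mem_ball_self one_pos)
  have cf : ∀ x : ℝ, |x| ≤ 2 → ContinuousOn (fun z => g z * f (mv (x * h) v z)) U := fun x hx =>
    hg.mul (hf.continuousOn.comp (mv_cont _ _).continuousOn fun z hz => hK'B (hs z hz x hx))
  have cfd : ContinuousOn (fun z => fderiv ℝ f z) B :=
    hf.continuousOn_fderiv_of_isOpen hB (by simp)
  obtain ⟨C1, hC1⟩ := hK'.exists_bound_of_continuousOn (cfd.mono hK'B)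
  obtain ⟨R, hR⟩ := hK'.isBounded.exists_norm_le
  have cF' : ContinuousOn (fun z => g z *
      fderiv ℝ f (mv (t * h) v z) (((h * z.im : ℝ) : ℂ) * v)) U := by
    refine hg.mul (ContinuousOn.clm_apply (cfd.comp (mv_cont _ _).continuousOn
      fun z hz => hK'B (hs z hz t ht2)) ?_)
    exact Continuous.continuousOn (by fun_prop)
  refine (hasDerivAt_integral_of_dominated_loc_of_deriv_le (μ := volume) (𝕜 := ℝ)
    (s := Metric.ball t 1)
    (F := fun (x : ℝ) z => (φ z : ℂ) * (g z * f (mv (x * h) v z)))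
    (F' := fun (x : ℝ) z => (φ z : ℂ) *
      (g z * fderiv ℝ f (mv (x * h) v z) (((h * z.im : ℝ) : ℂ) * v)))
    (x₀ := t) (bound := fun z => ‖(φ z : ℂ) * g z‖ * (C1 * (|h| * R * ‖v‖)))
    (Metric.ball_mem_nhds t one_pos)
    (Filter.eventually_of_mem (Metric.ball_mem_nhds t one_pos)
      fun x hx => (int_mul hU hφ (cf x (hball x hx))).1)
    (int_mul hU hφ (cf t ht2))
    (int_mul hU hφ cF').1
    (Eventually.of_forall fun z x hx => ?_)
    ((int_mul hU hφ hg).norm.mul_const _)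
    (Eventually.of_forall fun z x hx => ?_)).2
  · by_cases hz : z ∈ U
    · have h1 := hs z hz x (hball x hx)
      have h2 := hC1 _ h1
      have h3 := hR z (hUK hz)
      have h4 : ‖fderiv ℝ f (mv (x * h) v z) (((h * z.im : ℝ) : ℂ) * v)‖ ≤
          C1 * (|h| * R * ‖v‖) := by
        refine (ContinuousLinearMap.le_opNorm _ _).trans ?_
        refine mul_le_mul h2 ?_ (norm_nonneg _) ((norm_nonneg _).trans h2)
        rw [norm_mul, Complex.norm_real, Real.norm_eq_abs, abs_mul]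
        refine mul_le_mul_of_nonneg_right ?_ (norm_nonneg _)
        exact mul_le_mul_of_nonneg_left ((Complex.abs_im_le_norm z).trans h3) (abs_nonneg _)
      rw [← mul_assoc, norm_mul]
      exact mul_le_mul_of_nonneg_left h4 (norm_nonneg _)
    · have : φ z = 0 := Pool.Agent.Y265.RW.TF.zero hφ hz
      rw [this]
      simp
  · by_cases hz : z ∈ U
    · have h1 := hK'B (hs z hz x (hball x hx))
      have h2 : HasFDerivAt f (fderiv ℝ f (mv (x * h) v z)) (mv (x * h) v z) :=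
        ((hf.contDiffAt (hB.mem_nhds h1)).differentiableAt (by simp)).hasFDerivAt
      have h3 : HasDerivAt (fun x : ℝ => mv (x * h) v z) (((h * z.im : ℝ) : ℂ) * v) x := by
        unfold mv
        have e1 : HasDerivAt (fun x : ℝ => ((x * h * z.im : ℝ) : ℂ)) ((h * z.im : ℝ) : ℂ) x := by
          have e2 : HasDerivAt (fun x : ℝ => x * h * z.im) (h * z.im) x := by
            simpa using ((hasDerivAt_id x).mul_const h).mul_const z.im
          exact e2.ofReal_comp
        exact (e1.mul_const v).const_add z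
      exact ((h2.comp_hasDerivAt x h3).const_mul (g z)).const_mul _
    · have : φ z = 0 := Pool.Agent.Y265.RW.TF.zero hφ hz
      rw [this]
      simpa using hasDerivAt_const x (0 : ℂ)

lemma fd_dd (f : ℂ → ℂ) (z v : ℂ) :
    fderiv ℝ f z v = (v * dd f z + (starRingEnd ℂ) v * db f z) / 2 := by
  have h1 : fderiv ℝ f z v = (v.re : ℂ) * dx f z + (v.im : ℂ) * dy f z := by
    have e : v = v.re • (1 : ℂ) + v.im • I := by
      rw [Complex.real_smul, Complex.real_smul, mul_one]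
      exact (Complex.re_add_im v).symm
    conv_lhs => rw [e]
    rw [map_add, map_smul, map_smul, Complex.real_smul, Complex.real_smul]
    rfl
  have e2 : v = v.re + v.im * I := (Complex.re_add_im v).symm
  have e3 : (starRingEnd ℂ) v = v.re - v.im * I := by apply Complex.ext <;> simp
  rw [h1, e3]
  nth_rewrite 3 [e2]
  simp only [dd, db]
  have hI : I ^ 2 = -1 := Complex.I_sq
  linear_combination (v.im : ℂ) * dy f z * hI

lemma fd_mv {f : ℂ → ℂ} {h θ : ℝ} {z z' v : ℂ} (hz : z'.im = z.im * (1 + θ)) (hθ : 1 + θ ≠ 0) :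
    fderiv ℝ f z' (((h * z.im : ℝ) : ℂ) * v) =
      (((1 + θ)⁻¹ : ℝ) : ℂ) * (v / 2 * DP Complex.im h f z' +
        (starRingEnd ℂ) v / 2 * DM Complex.im h f z') := by
  have e1 : fderiv ℝ f z' (((h * z.im : ℝ) : ℂ) * v) = ((h * z.im : ℝ) : ℂ) * fderiv ℝ f z' v := by
    rw [← Complex.real_smul, map_smul, Complex.real_smul]
  have e2 : (z.im : ℝ) = (1 + θ)⁻¹ * z'.im := by
    rw [hz]; field_simp
  rw [e1, fd_dd, e2]
  simp only [DP, DM]
  push_cast
  ring

variable {B : Set ℂ} {h : ℕ → ℝ} {w : ℤ → ℕ → ℂ → ℂ}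

/-- the limits of the second moments -/
lemma wlim (H : SY B Complex.im h w) {φ : ℂ → ℝ} (hφ : TF B φ) (k : ℤ) :
    Tendsto (fun n => ∫ z, φ z * ‖w k n z‖ ^ 2) atTop (𝓝 (∫ z, φ z)) := by
  have h1 := (H.two k (-k)).nul φ hφ
  have h2 := h1.const_mul ((-1) ^ k.natAbs)
  rw [mul_zero] at h2
  have h3 := h2.add_const ((∫ z, φ z : ℝ) : ℂ)
  rw [zero_add] at h3
  have hs : ((-1 : ℂ) ^ k.natAbs) * (-1) ^ k.natAbs = 1 := by rw [← mul_pow]; simp
  have hC : CC k (-k) = (-1) ^ k.natAbs := by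
    unfold CC; rw [if_pos (by ring)]
  have h4 : Tendsto (fun n => ((∫ z, φ z * ‖w k n z‖ ^ 2 : ℝ) : ℂ)) atTop
      (𝓝 ((∫ z, φ z : ℝ) : ℂ)) := by
    refine Tendsto.congr (fun n => ?_) h3
    have c1 : ContinuousOn (fun z => w k n z * w (-k) n z) B :=
      ((H.bd k).co n).mul ((H.bd (-k)).co n)
    have i1 : Integrable (fun z => (φ z : ℂ) * (w k n z * w (-k) n z - CC k (-k))) :=
      int_mul H.op hφ (c1.sub (continuousOn_const (c := CC k (-k))))
    have i2 := int_mul H.op hφ (continuousOn_const (c := (1 : ℂ)))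
    have e1 : ((∫ z, φ z : ℝ) : ℂ) = ∫ z, (φ z : ℂ) * 1 := by
      rw [← integral_complex_ofReal]; congr 1; funext z; ring
    rw [e1, ← integral_const_mul, ← integral_add (i1.const_mul _) i2, ← integral_complex_ofReal]
    congr 1; funext z
    by_cases hz : z ∈ B
    · have h5 := H.cj k n z hz
      have h6 := Complex.mul_conj (w k n z)
      rw [Complex.normSq_eq_norm_sq] at h6
      push_cast at h6 ⊢
      rw [← h6, h5, hC]
      linear_combination (-(φ z : ℂ)) * hs
    · rw [Pool.Agent.Y265.RW.TF.zero hφ hz]; simp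
  exact toR h4

/-- uniform bounds on compact sets -/
lemma A0 (H : SY B Complex.im h w) {K' : Set ℂ} (hK' : IsCompact K') (hK'B : K' ⊆ B) :
    ∃ A : ℝ, 0 ≤ A ∧ ∀ k, ∀ᶠ n in atTop, ∫ z in K', ‖w k n z‖ ^ 2 ≤ A := by
  obtain ⟨ζ, hζ, hζ0, hζ1, hζK⟩ := cutoff H.op hK' hK'B
  refine ⟨(∫ z, ζ z) + 1, add_nonneg (integral_nonneg hζ0) zero_le_one, fun k => ?_⟩
  filter_upwards [(wlim H hζ k).eventually (gt_mem_nhds (lt_add_one _))] with n hn
  refine le_trans ?_ hn.le
  have hc := ((H.bd k).co n)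
  have i1 : Integrable (fun z => ζ z * ‖w k n z‖ ^ 2) := int_mulr H.op hζ (hc.norm.pow 2)
  refine le_trans (le_of_eq ?_) (setIntegral_le_integral (s := K') i1
    (Eventually.of_forall fun z => mul_nonneg (hζ0 z) (by positivity)))
  refine setIntegral_congr_fun hK'.measurableSet fun z hz => ?_
  show ‖w k n z‖ ^ 2 = ζ z * ‖w k n z‖ ^ 2
  rw [hζK z hz, one_mul]

/-- the configuration -/
structure Cf (B : Set ℂ) (φ : ℂ → ℝ) (U K' : Set ℂ) (δ M : ℝ) : Prop where
  hU : IsOpen U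
  sU : tsupport φ ⊆ U
  hK : IsCompact K'
  KB : K' ⊆ B
  UK : U ⊆ K'
  dp : 0 < δ
  d2 : δ ≤ 1 / 2
  mem : ∀ z ∈ U, ∀ (s : ℝ) (v : ℂ), |s| * ‖v‖ ≤ δ → mv s v z ∈ K'
  hM : ∀ z, |φ z| ≤ M

lemma cfe {φ : ℂ → ℝ} (hB : IsOpen B) (hφ : TF B φ) : ∃ U K' δ M, Cf B φ U K' δ M := by
  obtain ⟨U, K', h1, h2, h3, h4, h5, δ, h6, h7, h8⟩ := geo hB hφ
  obtain ⟨M, hM⟩ := hφ.2.1.exists_bound_of_continuous hφ.1.continuous
  exact ⟨U, K', δ, M, h1, h2, h3, h4, h5, h6, h7, h8, hM⟩

variable {φ : ℂ → ℝ} {U K' : Set ℂ} {δ M : ℝ}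

lemma Cf.M0 (c : Cf B φ U K' δ M) : 0 ≤ M := (abs_nonneg _).trans (c.hM 0)

lemma Cf.det (c : Cf B φ U K' δ M) {s : ℝ} {v : ℂ} (hs : |s| * ‖v‖ ≤ δ) :
    1 / 2 ≤ 1 + s * v.im := by
  have h1 : |s * v.im| ≤ δ := by
    rw [abs_mul]
    exact (mul_le_mul_of_nonneg_left (Complex.abs_im_le_norm v) (abs_nonneg _)).trans hs
  have := neg_abs_le (s * v.im)
  have := c.d2
  linarith

lemma Cf.bd (c : Cf B φ U K' δ M) {s : ℝ} {v : ℂ} (hs : |s| * ‖v‖ ≤ δ) {f : ℂ → ℂ}
    (hf : ContinuousOn f B) :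
    ∫ z, |φ z| * ‖f (mv s v z)‖ ^ 2 ≤ 2 * M * ∫ z in K', ‖f z‖ ^ 2 :=
  bdl c.hK c.sU (fun z hz => c.mem z hz s v hs) (c.det hs) c.hM (hf.mono c.KB)

lemma Cf.co (c : Cf B φ U K' δ M) {s : ℝ} {v : ℂ} (hs : |s| * ‖v‖ ≤ δ) {f : ℂ → ℂ}
    (hf : ContinuousOn f B) : ContinuousOn (fun z => f (mv s v z)) U :=
  hf.comp (mv_cont s v).continuousOn fun z hz => c.KB (c.mem z hz s v hs)

/-- small displacements -/
lemma sm (hh : Tendsto h atTop (𝓝 0)) (hpos : ∀ n, 0 < h n) (hd : 0 < δ) (v : ℂ) :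
    ∀ᶠ n in atTop, ∀ t : ℝ, |t| ≤ 2 → |t * h n| * ‖v‖ ≤ δ := by
  have h1 : Tendsto (fun n => 2 * h n * ‖v‖) atTop (𝓝 0) := by
    have := (hh.const_mul 2).mul_const ‖v‖
    simpa using this
  filter_upwards [h1.eventually (gt_mem_nhds hd)] with n hn t ht
  rw [abs_mul, abs_of_pos (hpos n)]
  refine le_trans ?_ hn.le
  exact mul_le_mul_of_nonneg_right (mul_le_mul_of_nonneg_right ht (hpos n).le) (norm_nonneg _)

theorem step (H : SY B Complex.im h w) (hφ : TF B φ) (c : Cf B φ U K' δ M)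
    {G : ℕ → ℂ → ℂ} (hG : ∀ᶠ n in atTop, ContinuousOn (G n) U) {AG : ℝ}
    (hGb : ∀ᶠ n in atTop, ∫ z, |φ z| * ‖G n z‖ ^ 2 ≤ AG) {γ : ℝ → ℂ} (hγ : Continuous γ)
    (hlim : ∀ k, Tendsto (fun n => ∫ z, (φ z : ℂ) * (G n z * w k n z)) atTop
      (𝓝 (∫ α in (0:ℝ)..(2 * Real.pi), γ α * sy α ^ k))) (v : ℂ) (k : ℤ) :
    Tendsto (fun n => ∫ z, (φ z : ℂ) * (G n z * w k n (mv (h n) v z))) atTop
      (𝓝 (∫ α in (0:ℝ)..(2 * Real.pi), γ α * (sy α ^ k * Complex.exp ((rr v α : ℂ) * I)))) := by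
  have hφU : TF U φ := ⟨hφ.1, hφ.2.1, c.sU⟩
  obtain ⟨A, hA0, hA⟩ := A0 H c.hK c.KB
  have hsm := sm H.hlim H.hpos c.dp v
  set P : (ℕ → ℂ → ℂ) → ℕ → ℝ → ℂ := fun f n t =>
    ∫ z, (φ z : ℂ) * (G n z * f n (mv (t * h n) v z)) with hP
  set D : ℕ → ℤ → ℝ → ℂ := fun n k t => P (w k) n t - cc γ v k t with hD
  set P' : ℕ → ℤ → ℝ → ℂ := fun n k t =>
    ∫ z, (φ z : ℂ) * (G n z * fderiv ℝ (w k n) (mv (t * h n) v z) (((h n * z.im : ℝ) : ℂ) * v))
    with hP'
  have hnn : ∀ (g : ℂ → ℂ), 0 ≤ ∫ z, |φ z| * ‖g z‖ ^ 2 := fun g =>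
    integral_nonneg fun z => by positivity
  -- bounds of the pairings
  have hPb : ∀ (f : ℕ → ℂ → ℂ) (Cf : ℝ), (∀ n, ContinuousOn (f n) B) →
      (∀ᶠ n in atTop, ∫ z in K', ‖f n z‖ ^ 2 ≤ Cf) →
      ∀ᶠ n in atTop, ∀ t ∈ Set.Icc (0 : ℝ) 1, ‖P f n t‖ ≤ AG + 2 * M * Cf := by
    intro f Cf hf hCf
    filter_upwards [hG, hGb, hsm, hCf] with n h1 h2 h3 h4 t ht
    have ht2 : |t| ≤ 2 := by rw [abs_of_nonneg ht.1]; linarith [ht.2]
    have h5 := c.co (h3 t ht2) (hf n)
    refine (pair_bd c.hU hφU h1 h5).trans (add_le_add h2 ?_)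
    exact (c.bd (h3 t ht2) (hf n)).trans (mul_le_mul_of_nonneg_left h4
      (mul_nonneg (by norm_num) c.M0))
  have main := ode (D := D) (D' := fun n k t => P' n k t -
    (v * cc γ v (k + 1) t - (starRingEnd ℂ) v * cc γ v (k - 1) t) / 2) (ρ := ‖v‖)
    (A := AG + 2 * M * A + ∫ α in (0:ℝ)..(2 * Real.pi), ‖γ α‖) H.hlim (norm_nonneg v)
    (fun k => ?_) (fun k => ?_) (fun k => ?_) k
  · have h1 := main.add_const (cc γ v k 1)
    rw [zero_add] at h1
    have e1 : cc γ v k 1 =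
        ∫ α in (0:ℝ)..(2 * Real.pi), γ α * (sy α ^ k * Complex.exp ((rr v α : ℂ) * I)) := by
      unfold cc
      simp only [ofReal_one, one_mul]
    rw [← e1]
    refine h1.congr fun n => ?_
    simp only [hD, hP, one_mul, sub_add_cancel]
  · -- initial values
    have h1 := (hlim k).sub_const (∫ α in (0:ℝ)..(2 * Real.pi), γ α * sy α ^ k)
    rw [sub_self] at h1
    refine h1.congr fun n => ?_
    simp only [hD, hP, zero_mul, mv_zero]
    congr 1
    unfold cc
    simp only [ofReal_zero, zero_mul, Complex.exp_zero, mul_one]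
  · -- bounds
    filter_upwards [hPb (w k) A (fun n => (H.bd k).co n) (hA k)] with n hn t ht
    simp only [hD]
    exact (norm_sub_le _ _).trans (add_le_add (hn t ht) (cc_bound γ v k t))
  · -- differential inequalities
    obtain ⟨e, he, he'⟩ := H.up k
    obtain ⟨e2, he2, he2'⟩ := H.dn k
    obtain ⟨C1, hC1⟩ := he.lb.bd K' c.hK c.KB
    obtain ⟨C2, hC2⟩ := he2.lb.bd K' c.hK c.KB
    have b1 := hPb (w (k + 1)) A (fun n => (H.bd (k + 1)).co n) (hA (k + 1))
    have b2 := hPb (w (k - 1)) A (fun n => (H.bd (k - 1)).co n) (hA (k - 1))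
    have b3 := hPb e C1 (fun n => he.co n) hC1
    have b4 := hPb e2 C2 (fun n => he2.co n) hC2
    set Q : ℝ := AG + 2 * M * A with hQ
    refine ⟨2 * ‖v‖ * (‖v‖ / 2 * (2 * Q)) + 2 * (‖v‖ / 2 * ((AG + 2 * M * C1) +
      (AG + 2 * M * C2))), ?_⟩
    filter_upwards [hG, hsm, b1, b2, b3, b4] with n h1 h3 g1 g2 g3 g4 t ht
    have ht2 : |t| ≤ 2 := by rw [abs_of_nonneg ht.1]; linarith [ht.2]
    have hs := h3 t ht2
    have hsB : ∀ z ∈ U, mv (t * h n) v z ∈ B := fun z hz => c.KB (c.mem z hz _ _ hs)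
    refine ⟨?_, ?_⟩
    · exact (der c.hU c.UK hφU c.hK H.op c.KB (fun z hz t ht => c.mem z hz _ _ (h3 t ht)) h1
        ((H.bd k).sm n) ht).sub (cc_deriv hγ v k t)
    · -- the formula for the derivative
      set θ : ℝ := t * h n * v.im with hθ
      have hdet : 1 / 2 ≤ 1 + θ := c.det hs
      have hdet0 : 1 + θ ≠ 0 := by linarith
      have i1 : Integrable fun z => (φ z : ℂ) * (G n z * w (k + 1) n (mv (t * h n) v z)) :=
        int_mul c.hU hφU (h1.mul (c.co hs ((H.bd (k + 1)).co n)))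
      have i2 : Integrable fun z => (φ z : ℂ) * (G n z * w (k - 1) n (mv (t * h n) v z)) :=
        int_mul c.hU hφU (h1.mul (c.co hs ((H.bd (k - 1)).co n)))
      have i3 : Integrable fun z => (φ z : ℂ) * (G n z * e n (mv (t * h n) v z)) :=
        int_mul c.hU hφU (h1.mul (c.co hs (he.co n)))
      have i4 : Integrable fun z => (φ z : ℂ) * (G n z * e2 n (mv (t * h n) v z)) :=
        int_mul c.hU hφU (h1.mul (c.co hs (he2.co n)))
      set κ : ℝ := (1 + θ)⁻¹ with hκ
      have e5 : P' n k t = (κ : ℂ) * (v / 2) * P (w (k + 1)) n t +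
          (κ : ℂ) * (v / 2) * (h n : ℂ) * P e n t +
          (-((κ : ℂ) * ((starRingEnd ℂ) v / 2))) * P (w (k - 1)) n t +
          (κ : ℂ) * ((starRingEnd ℂ) v / 2) * (h n : ℂ) * P e2 n t := by
        simp only [hP', hP]
        have j1 : Integrable fun z =>
            (κ : ℂ) * (v / 2) * ((φ z : ℂ) * (G n z * w (k + 1) n (mv (t * h n) v z))) +
            (κ : ℂ) * (v / 2) * (h n : ℂ) * ((φ z : ℂ) * (G n z * e n (mv (t * h n) v z))) :=
          (i1.const_mul _).add (i3.const_mul _)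
        have j2 : Integrable fun z =>
            (κ : ℂ) * (v / 2) * ((φ z : ℂ) * (G n z * w (k + 1) n (mv (t * h n) v z))) +
            (κ : ℂ) * (v / 2) * (h n : ℂ) * ((φ z : ℂ) * (G n z * e n (mv (t * h n) v z))) +
            (-((κ : ℂ) * ((starRingEnd ℂ) v / 2))) *
              ((φ z : ℂ) * (G n z * w (k - 1) n (mv (t * h n) v z))) :=
          j1.add (i2.const_mul _)
        rw [← integral_const_mul, ← integral_const_mul, ← integral_const_mul,
          ← integral_const_mul, ← integral_add (i1.const_mul _) (i3.const_mul _),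
          ← integral_add j1 (i2.const_mul _), ← integral_add j2 (i4.const_mul _)]
        refine integral_congr_ae (Eventually.of_forall fun z => ?_)
        simp only
        by_cases hz : z ∈ U
        · have hzB := hsB z hz
          rw [fd_mv (mv_im (t * h n) v z) hdet0, he' n _ hzB, he2' n _ hzB]
          ring
        · rw [Pool.Agent.Y265.RW.TF.zero hφU hz]; simp
      have k1 := g1 t ht
      have k2 := g2 t ht
      have k3 := g3 t ht
      have k4 := g4 t ht
      set p1 := P (w (k + 1)) n t with hp1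
      set p2 := P (w (k - 1)) n t with hp2
      set p3 := P e n t with hp3
      set p4 := P e2 n t with hp4
      have hκ1 : |κ| ≤ 2 := by
        rw [hκ, abs_of_nonneg (inv_nonneg.2 (by linarith)), inv_le_comm₀ (by linarith)
          (by norm_num)]
        linarith
      have hθ1 : |θ| ≤ h n * ‖v‖ := by
        rw [hθ, abs_mul, abs_mul, abs_of_nonneg ht.1, abs_of_pos (H.hpos n)]
        calc t * h n * |v.im| ≤ 1 * h n * ‖v‖ :=
            mul_le_mul (mul_le_mul_of_nonneg_right ht.2 (H.hpos n).le)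
              (Complex.abs_im_le_norm v) (abs_nonneg _) (by have := H.hpos n; positivity)
          _ = h n * ‖v‖ := by ring
      have hκ2 : |κ - 1| ≤ 2 * (h n * ‖v‖) := by
        have e6 : κ - 1 = -(κ * θ) := by
          rw [hκ]; field_simp; ring
        rw [e6, abs_neg, abs_mul]
        exact mul_le_mul hκ1 hθ1 (abs_nonneg _) (by norm_num)
      have e7 : P' n k t - (v * cc γ v (k + 1) t - (starRingEnd ℂ) v * cc γ v (k - 1) t) / 2 =
          (v / 2 * D n (k + 1) t - (starRingEnd ℂ) v / 2 * D n (k - 1) t) +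
          ((κ - 1 : ℝ) : ℂ) * (v / 2 * p1 - (starRingEnd ℂ) v / 2 * p2) +
          ((κ : ℝ) : ℂ) * (h n : ℂ) * (v / 2 * p3 + (starRingEnd ℂ) v / 2 * p4) := by
        rw [e5]
        simp only [hD, ← hp1, ← hp2]
        push_cast
        ring
      have hv2 : ∀ x y : ℂ, ‖v / 2 * x - (starRingEnd ℂ) v / 2 * y‖ ≤
          ‖v‖ / 2 * (‖x‖ + ‖y‖) := by
        intro x y
        refine (norm_sub_le _ _).trans ?_
        rw [norm_mul, norm_mul, norm_div, norm_div, RCLike.norm_conj, Complex.norm_ofNat]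
        linarith
      have hv3 : ∀ x y : ℂ, ‖v / 2 * x + (starRingEnd ℂ) v / 2 * y‖ ≤
          ‖v‖ / 2 * (‖x‖ + ‖y‖) := by
        intro x y
        refine (norm_add_le _ _).trans ?_
        rw [norm_mul, norm_mul, norm_div, norm_div, RCLike.norm_conj, Complex.norm_ofNat]
        linarith
      have hhp := (H.hpos n).le
      have m1 := hv2 (D n (k + 1) t) (D n (k - 1) t)
      have m2 : ‖((κ - 1 : ℝ) : ℂ) * (v / 2 * p1 - (starRingEnd ℂ) v / 2 * p2)‖ ≤
          (2 * (h n * ‖v‖)) * (‖v‖ / 2 * (2 * Q)) := by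
        rw [norm_mul, Complex.norm_real, Real.norm_eq_abs]
        refine mul_le_mul hκ2 ((hv2 p1 p2).trans ?_) (norm_nonneg _) (by positivity)
        exact mul_le_mul_of_nonneg_left (by linarith) (by positivity)
      have m3 : ‖((κ : ℝ) : ℂ) * (h n : ℂ) * (v / 2 * p3 + (starRingEnd ℂ) v / 2 * p4)‖ ≤
          (2 * h n) * (‖v‖ / 2 * ((AG + 2 * M * C1) + (AG + 2 * M * C2))) := by
        rw [norm_mul, norm_mul, Complex.norm_real, Complex.norm_real, Real.norm_eq_abs,
          Real.norm_eq_abs, abs_of_pos (H.hpos n)]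
        refine mul_le_mul (mul_le_mul_of_nonneg_right hκ1 hhp) ((hv3 p3 p4).trans ?_)
          (norm_nonneg _) (by positivity)
        exact mul_le_mul_of_nonneg_left (by linarith) (by positivity)
      show ‖P' n k t - (v * cc γ v (k + 1) t - (starRingEnd ℂ) v * cc γ v (k - 1) t) / 2‖ ≤ _
      rw [e7]
      refine (norm_add₃_le).trans ?_
      have : (2 * ‖v‖ * (‖v‖ / 2 * (2 * Q)) + 2 * (‖v‖ / 2 * ((AG + 2 * M * C1) +
        (AG + 2 * M * C2)))) * h n = (2 * (h n * ‖v‖)) * (‖v‖ / 2 * (2 * Q)) +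
        (2 * h n) * (‖v‖ / 2 * ((AG + 2 * M * C1) + (AG + 2 * M * C2))) := by ring
      rw [this]
      linarith

/-- two point functions -/
theorem two_pt (H : SY B Complex.im h w) (hφ : TF B φ) (j k : ℤ) (v' v : ℂ) :
    Tendsto (fun n => ∫ z, (φ z : ℂ) * ((starRingEnd ℂ) (w k n (mv (h n) v z)) *
      w j n (mv (h n) v' z))) atTop
      (𝓝 (∫ α in (0:ℝ)..(2 * Real.pi),
        (((∫ z, φ z) / (2 * Real.pi) : ℝ) : ℂ) *
          (starRingEnd ℂ) (sy α ^ k * Complex.exp ((rr v α : ℂ) * I)) *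
        (sy α ^ j * Complex.exp ((rr v' α : ℂ) * I)))) := by
  obtain ⟨U, K', δ, M, c⟩ := cfe H.op hφ
  have hφU : TF U φ := ⟨hφ.1, hφ.2.1, c.sU⟩
  obtain ⟨A, hA0, hA⟩ := A0 H c.hK c.KB
  have hUB : U ⊆ B := c.UK.trans c.KB
  have ce : ∀ v : ℂ, Continuous fun α : ℝ => Complex.exp ((rr v α : ℂ) * I) := by
    intro v
    have := rr_cont v
    fun_prop
  -- first step
  have s1 : ∀ j : ℤ, Tendsto (fun n => ∫ z, (φ z : ℂ) * ((starRingEnd ℂ) (w j n z) *
      w k n (mv (h n) v z))) atTop (𝓝 (∫ α in (0:ℝ)..(2 * Real.pi),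
        ((((∫ z, φ z) / (2 * Real.pi) : ℝ) : ℂ) * (starRingEnd ℂ) (sy α ^ j)) *
          (sy α ^ k * Complex.exp ((rr v α : ℂ) * I)))) := by
    intro j
    refine step H hφ c (G := fun n z => (starRingEnd ℂ) (w j n z)) (AG := 2 * M * A)
      (Eventually.of_forall fun n => (Complex.continuous_conj.comp_continuousOn
        (((H.bd j).co n).mono hUB))) ?_ ?_ ?_ v k
    · filter_upwards [hA j] with n hn
      have := c.bd (s := 0) (v := 0) (by simpa using c.dp.le) ((H.bd j).co n)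
      simp only [mv_zero] at this
      refine le_trans (le_of_eq ?_) (this.trans (mul_le_mul_of_nonneg_left hn
        (mul_nonneg (by norm_num) c.M0)))
      simp only [RCLike.norm_conj]
    · exact continuous_const.mul (Complex.continuous_conj.comp (sy_cont j))
    · intro k
      have h1 := ((H.two (-j) k).nul φ hφ).const_mul ((-1) ^ j.natAbs)
      rw [mul_zero] at h1
      have h2 := h1.add_const (((∫ z, φ z : ℝ) : ℂ) * (if j = k then 1 else 0))
      rw [zero_add] at h2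
      have e1 : ∫ α in (0:ℝ)..(2 * Real.pi),
          ((((∫ z, φ z) / (2 * Real.pi) : ℝ) : ℂ) * (starRingEnd ℂ) (sy α ^ j)) * sy α ^ k =
          ((∫ z, φ z : ℝ) : ℂ) * (if j = k then 1 else 0) := by
        have e2 := yy_zero 0 (k - j)
        unfold yy at e2
        simp only [ofReal_zero, zero_mul, Complex.exp_zero, mul_one] at e2
        have e3 : (if j = k then (1 : ℂ) else 0) = if k - j = 0 then 1 else 0 := by
          by_cases h : j = k
          · subst h; simp
          · rw [if_neg h, if_neg (fun h' => h (by omega))]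
        rw [e3, ← e2, ← mul_assoc, ← intervalIntegral.integral_const_mul]
        refine intervalIntegral.integral_congr fun α _ => ?_
        have e4 : (starRingEnd ℂ) (sy α ^ j) = sy α ^ (-j) := by
          rw [map_zpow₀]
          have : (starRingEnd ℂ) (sy α) = (sy α)⁻¹ := by
            rw [eq_comm]
            apply inv_eq_of_mul_eq_one_right
            rw [Complex.mul_conj, Complex.normSq_eq_norm_sq, sy_norm]; simp
          rw [this, inv_zpow, zpow_neg]
        rw [e4, sub_eq_add_neg, zpow_add₀ (sy_ne α)]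
        push_cast
        ring
      rw [e1]
      refine h2.congr fun n => ?_
      have c1 : ContinuousOn (fun z => w (-j) n z * w k n z) B :=
        ((H.bd (-j)).co n).mul ((H.bd k).co n)
      have i1 : Integrable (fun z => (φ z : ℂ) * (w (-j) n z * w k n z - CC (-j) k)) :=
        int_mul H.op hφ (c1.sub (continuousOn_const (c := CC (-j) k)))
      have i2 := int_mul H.op hφ (continuousOn_const (c := (if j = k then (1 : ℂ) else 0)))
      have e5 : ((∫ z, φ z : ℝ) : ℂ) * (if j = k then (1 : ℂ) else 0) =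
          ∫ z, (φ z : ℂ) * (if j = k then (1 : ℂ) else 0) := by
        rw [integral_mul_const, ← integral_complex_ofReal]
      rw [e5, ← integral_const_mul, ← integral_add (i1.const_mul _) i2]
      congr 1; funext z
      have hs : ((-1 : ℂ) ^ j.natAbs) * (-1) ^ j.natAbs = 1 := by rw [← mul_pow]; simp
      have hC : (-1 : ℂ) ^ j.natAbs * CC (-j) k = if j = k then 1 else 0 := by
        unfold CC
        by_cases h : j = k
        · rw [if_pos h, if_pos (by omega), Int.natAbs_neg, hs]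
        · rw [if_neg h, if_neg (by omega), mul_zero]
      by_cases hz : z ∈ B
      · rw [H.cj j n z hz]
        linear_combination (-(φ z : ℂ)) * hC
      · rw [Pool.Agent.Y265.RW.TF.zero hφ hz]; simp
  -- second step
  have hsm := sm H.hlim H.hpos c.dp v
  have hsm1 : ∀ᶠ n in atTop, |h n| * ‖v‖ ≤ δ := by
    filter_upwards [hsm] with n hn
    simpa using hn 1 (by norm_num)
  refine step H hφ c (G := fun n z => (starRingEnd ℂ) (w k n (mv (h n) v z))) (AG := 2 * M * A)
    ?_ ?_ (γ := fun α => (((∫ z, φ z) / (2 * Real.pi) : ℝ) : ℂ) *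
      (starRingEnd ℂ) (sy α ^ k * Complex.exp ((rr v α : ℂ) * I))) ?_ ?_ v' j
  · filter_upwards [hsm1] with n hn
    exact Complex.continuous_conj.comp_continuousOn (c.co hn ((H.bd k).co n))
  · filter_upwards [hsm1, hA k] with n hn hn2
    simp only [RCLike.norm_conj]
    exact (c.bd hn ((H.bd k).co n)).trans (mul_le_mul_of_nonneg_left hn2
      (mul_nonneg (by norm_num) c.M0))
  · exact continuous_const.mul (Complex.continuous_conj.comp ((sy_cont k).mul (ce v)))
  · intro j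
    have h1 := (Complex.continuous_conj.tendsto _).comp (s1 j)
    have e1 : (starRingEnd ℂ) (∫ α in (0:ℝ)..(2 * Real.pi),
        ((((∫ z, φ z) / (2 * Real.pi) : ℝ) : ℂ) * (starRingEnd ℂ) (sy α ^ j)) *
          (sy α ^ k * Complex.exp ((rr v α : ℂ) * I))) =
        ∫ α in (0:ℝ)..(2 * Real.pi), (((∫ z, φ z) / (2 * Real.pi) : ℝ) : ℂ) *
      (starRingEnd ℂ) (sy α ^ k * Complex.exp ((rr v α : ℂ) * I)) * sy α ^ j := by
      rw [intervalIntegral.integral_of_le (by positivity), ← integral_conj,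
        intervalIntegral.integral_of_le (by positivity)]
      congr 1; funext α
      rw [map_mul, map_mul, conj_ofReal, conj_conj]
      ring
    rw [e1] at h1
    refine h1.congr fun n => ?_
    show (starRingEnd ℂ) (∫ z, (φ z : ℂ) * ((starRingEnd ℂ) (w j n z) *
      w k n (mv (h n) v z))) = _
    rw [← integral_conj]
    congr 1; funext z
    rw [map_mul, map_mul, conj_ofReal, conj_conj]
    ring

lemma sq_sum {m : ℕ} (c F : Fin m → ℂ) : ((‖∑ i, c i * F i‖ ^ 2 : ℝ) : ℂ) =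
    ∑ i, ∑ j, (c j * (starRingEnd ℂ) (c i)) * ((starRingEnd ℂ) (F i) * F j) := by
  have h6 := Complex.mul_conj (∑ i, c i * F i)
  rw [Complex.normSq_eq_norm_sq] at h6
  rw [← h6, map_sum, mul_comm, Finset.sum_mul_sum]
  refine Finset.sum_congr rfl fun i _ => Finset.sum_congr rfl fun j _ => ?_
  rw [map_mul]
  ring

theorem ISOH : S_ISOH := by
  intro B h w H φ hφ m c κ v
  obtain ⟨U, K', δ, M, cf⟩ := cfe H.op hφ
  have hφU : TF U φ := ⟨hφ.1, hφ.2.1, cf.sU⟩
  refine toR ?_
  have ce : ∀ v : ℂ, Continuous fun α : ℝ => Complex.exp ((rr v α : ℂ) * I) := by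
    intro v
    have := rr_cont v
    fun_prop
  have hlim : Tendsto (fun n => ∑ i, ∑ j, (c j * (starRingEnd ℂ) (c i)) *
      ∫ z, (φ z : ℂ) * ((starRingEnd ℂ) (w (κ i) n (mv (h n) (v i) z)) *
        w (κ j) n (mv (h n) (v j) z))) atTop
      (𝓝 (∑ i, ∑ j, (c j * (starRingEnd ℂ) (c i)) * ∫ α in (0:ℝ)..(2 * Real.pi),
        (((∫ z, φ z) / (2 * Real.pi) : ℝ) : ℂ) *
          (starRingEnd ℂ) (sy α ^ (κ i) * Complex.exp ((rr (v i) α : ℂ) * I)) *
        (sy α ^ (κ j) * Complex.exp ((rr (v j) α : ℂ) * I)))) :=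
    tendsto_finsetSum _ fun i _ => tendsto_finsetSum _ fun j _ =>
      (two_pt H hφ (κ j) (κ i) (v j) (v i)).const_mul _
  have e1 : (((1 / (2 * Real.pi) * ∫ α in (0:ℝ)..(2 * Real.pi),
      ‖∑ i, c i * (sy α ^ (κ i) * Complex.exp ((rr (v i) α : ℂ) * I))‖ ^ 2) * ∫ z, φ z : ℝ) : ℂ) =
      ∑ i, ∑ j, (c j * (starRingEnd ℂ) (c i)) * ∫ α in (0:ℝ)..(2 * Real.pi),
        (((∫ z, φ z) / (2 * Real.pi) : ℝ) : ℂ) *
          (starRingEnd ℂ) (sy α ^ (κ i) * Complex.exp ((rr (v i) α : ℂ) * I)) *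
        (sy α ^ (κ j) * Complex.exp ((rr (v j) α : ℂ) * I)) := by
    have ci : ∀ i j, Continuous fun α : ℝ => (((∫ z, φ z) / (2 * Real.pi) : ℝ) : ℂ) *
          (starRingEnd ℂ) (sy α ^ (κ i) * Complex.exp ((rr (v i) α : ℂ) * I)) *
        (sy α ^ (κ j) * Complex.exp ((rr (v j) α : ℂ) * I)) := fun i j =>
      (continuous_const.mul (Complex.continuous_conj.comp ((sy_cont _).mul (ce _)))).mul
        ((sy_cont _).mul (ce _))
    have e2 : (((1 / (2 * Real.pi) * ∫ α in (0:ℝ)..(2 * Real.pi),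
        ‖∑ i, c i * (sy α ^ (κ i) * Complex.exp ((rr (v i) α : ℂ) * I))‖ ^ 2) *
          ∫ z, φ z : ℝ) : ℂ) = (((∫ z, φ z) / (2 * Real.pi) : ℝ) : ℂ) *
        ∫ α in (0:ℝ)..(2 * Real.pi),
        ((‖∑ i, c i * (sy α ^ (κ i) * Complex.exp ((rr (v i) α : ℂ) * I))‖ ^ 2 : ℝ) : ℂ) := by
      rw [intervalIntegral.integral_ofReal]
      push_cast
      ring
    rw [e2]
    simp_rw [sq_sum]
    rw [← intervalIntegral.integral_const_mul]
    have e3 : ∀ α : ℝ, (((∫ z, φ z) / (2 * Real.pi) : ℝ) : ℂ) *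
        (∑ i, ∑ j, (c j * (starRingEnd ℂ) (c i)) *
          ((starRingEnd ℂ) (sy α ^ (κ i) * Complex.exp ((rr (v i) α : ℂ) * I)) *
          (sy α ^ (κ j) * Complex.exp ((rr (v j) α : ℂ) * I)))) =
        ∑ i, ∑ j, (c j * (starRingEnd ℂ) (c i)) * ((((∫ z, φ z) / (2 * Real.pi) : ℝ) : ℂ) *
          (starRingEnd ℂ) (sy α ^ (κ i) * Complex.exp ((rr (v i) α : ℂ) * I)) *
          (sy α ^ (κ j) * Complex.exp ((rr (v j) α : ℂ) * I))) := by
      intro α
      rw [Finset.mul_sum]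
      refine Finset.sum_congr rfl fun i _ => ?_
      rw [Finset.mul_sum]
      refine Finset.sum_congr rfl fun j _ => ?_
      ring
    simp_rw [e3]
    have cj : ∀ i j, Continuous fun α : ℝ => (c j * (starRingEnd ℂ) (c i)) *
        ((((∫ z, φ z) / (2 * Real.pi) : ℝ) : ℂ) *
          (starRingEnd ℂ) (sy α ^ (κ i) * Complex.exp ((rr (v i) α : ℂ) * I)) *
          (sy α ^ (κ j) * Complex.exp ((rr (v j) α : ℂ) * I))) := fun i j =>
      continuous_const.mul (ci i j)
    rw [intervalIntegral.integral_finsetSum]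
    · refine Finset.sum_congr rfl fun i _ => ?_
      rw [intervalIntegral.integral_finsetSum]
      · refine Finset.sum_congr rfl fun j _ => ?_
        rw [intervalIntegral.integral_const_mul]
      · intro j _
        exact (cj i j).intervalIntegrable _ _
    · intro i _
      exact (continuous_finsetSum _ fun j _ => cj i j).intervalIntegrable _ _
  rw [e1]
  refine hlim.congr' ?_
  have hall : ∀ᶠ n in atTop, ∀ i, |h n| * ‖v i‖ ≤ δ := by
    rw [eventually_all]
    intro i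
    filter_upwards [sm H.hlim H.hpos cf.dp (v i)] with n hn
    simpa using hn 1 (by norm_num)
  filter_upwards [hall] with n hn
  have ii : ∀ i j, Integrable fun z => (φ z : ℂ) *
      ((starRingEnd ℂ) (w (κ i) n (mv (h n) (v i) z)) * w (κ j) n (mv (h n) (v j) z)) :=
    fun i j => int_mul cf.hU hφU ((Complex.continuous_conj.comp_continuousOn
      (cf.co (hn i) ((H.bd (κ i)).co n))).mul (cf.co (hn j) ((H.bd (κ j)).co n)))
  rw [← integral_complex_ofReal]
  have e4 : ∀ z, ((φ z * ‖∑ i, c i * w (κ i) n (mv (h n) (v i) z)‖ ^ 2 : ℝ) : ℂ) =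
      ∑ i, ∑ j, (c j * (starRingEnd ℂ) (c i)) * ((φ z : ℂ) *
      ((starRingEnd ℂ) (w (κ i) n (mv (h n) (v i) z)) * w (κ j) n (mv (h n) (v j) z))) := by
    intro z
    rw [Complex.ofReal_mul, sq_sum, Finset.mul_sum]
    refine Finset.sum_congr rfl fun i _ => ?_
    rw [Finset.mul_sum]
    refine Finset.sum_congr rfl fun j _ => ?_
    ring
  simp_rw [e4]
  rw [integral_finsetSum]
  · refine Finset.sum_congr rfl fun i _ => ?_
    rw [integral_finsetSum]
    · refine Finset.sum_congr rfl fun j _ => ?_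
      rw [integral_const_mul]
    · intro j _
      exact (ii i j).const_mul _
  · intro i _
    exact integrable_finsetSum _ fun j _ => (ii i j).const_mul _

/-- uniform local bounds of displaced ladders -/
theorem BDH : S_BDH := by
  intro B h w H φ hφ κ R
  obtain ⟨U, K', δ, M, c⟩ := cfe H.op hφ
  obtain ⟨A, hA0, hA⟩ := A0 H c.hK c.KB
  refine ⟨2 * M * A, ?_⟩
  have h1 : ∀ᶠ n in atTop, h n * |R| < δ := by
    have := H.hlim.mul_const |R|
    rw [zero_mul] at this
    exact this.eventually (gt_mem_nhds c.dp)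
  filter_upwards [h1, hA κ] with n hn1 hn2 v hv
  have h2 : |h n| * ‖v‖ ≤ δ := by
    rw [abs_of_pos (H.hpos n)]
    exact (mul_le_mul_of_nonneg_left (hv.trans (le_abs_self R)) (H.hpos n).le).trans hn1.le
  exact (c.bd h2 ((H.bd κ).co n)).trans (mul_le_mul_of_nonneg_left hn2
    (mul_nonneg (by norm_num) c.M0))

end

end Pool.Agent.N645.BH
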