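import Pool.Agent.N988.EZ.Stm
import Pool.Agent.N271.EA_G

/-!
# Project EZ, parts MX and RS (helper645): the zero temperature recursion on the diamond lattice
-/

set_option autoImplicit false

namespace Pool.Agent.N645.EZ

open Pool.Agent.N988.EA Pool.Agent.N988.EZ Pool.Agent.N271.EA

variable {b n : ℕ}

/-- a ground state exists -/
theorem exists_mx (J : Edge b n → ℝ) (τ : Bool → Bool) : ∃ σ, Mx J τ σ := by
  obtain ⟨σ, hσ⟩ := Finite.exists_max (fun σ : Vert b n → Bool => act J τ σ)
  exact ⟨σ, hσ⟩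

/-- the field on the middle spin at temperature zero -/
noncomputable def fl (J : Edge b (n + 1) → ℝ) (τ : Bool → Bool) (i : Fin b) : ℝ :=
  (K0 n fun e => J (i, false, e)) * sg (τ false) + (K0 n fun e => J (i, true, e)) * sg (τ true)

theorem abs_sg (y : Bool) (x : ℝ) : |sg y * x| = |x| := by
  cases y <;> simp [sg]

/-- the form of the maximum -/
def Form (b n : ℕ) : Prop := ∀ J : Edge b n → ℝ, ∃ C : ℝ, ∀ (τ : Bool → Bool) (σ : Vert b n → Bool),
  Mx J τ σ → act J τ σ = C + K0 n J * sg (τ false) * sg (τ true)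

/-- one branch -/
theorem branch (hn : Form b n) (J : Edge b (n + 1) → ℝ) (i : Fin b) : ∃ D : ℝ,
    ∀ (τ : Bool → Bool) (y : Bool) (ρ : Bool → Vert b n → Bool),
      ∑ h : Bool, act (fun e => J (i, h, e)) (he τ h y) (ρ h) ≤ D + |fl J τ i| ∧
      (∑ h : Bool, act (fun e => J (i, h, e)) (he τ h y) (ρ h) = D + |fl J τ i| ↔
        (∀ h, Mx (fun e => J (i, h, e)) (he τ h y) (ρ h)) ∧ 0 ≤ sg y * fl J τ i) := by
  obtain ⟨C₁, h1⟩ := hn (fun e => J (i, false, e))
  obtain ⟨C₂, h2⟩ := hn (fun e => J (i, true, e))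
  refine ⟨C₁ + C₂, fun τ y ρ => ?_⟩
  -- the maximal values
  have k1 : ∀ s, act (fun e => J (i, false, e)) (he τ false y) s ≤
      C₁ + (K0 n fun e => J (i, false, e)) * sg (τ false) * sg y ∧
      (act (fun e => J (i, false, e)) (he τ false y) s =
        C₁ + (K0 n fun e => J (i, false, e)) * sg (τ false) * sg y ↔
        Mx (fun e => J (i, false, e)) (he τ false y) s) := by
    intro s
    obtain ⟨σ, hσ⟩ := exists_mx (fun e => J (i, false, e)) (he τ false y)
    have e1 := h1 _ _ hσ
    have e2 : he τ false y false = τ false := by simp [he]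
    have e3 : he τ false y true = y := by simp [he]
    rw [e2, e3] at e1
    rw [← e1]
    refine ⟨hσ s, fun h s' => ?_, fun h => ?_⟩
    · rw [h]
      exact hσ s'
    · exact le_antisymm (hσ s) (h σ)
  have k2 : ∀ s, act (fun e => J (i, true, e)) (he τ true y) s ≤
      C₂ + (K0 n fun e => J (i, true, e)) * sg (τ true) * sg y ∧
      (act (fun e => J (i, true, e)) (he τ true y) s =
        C₂ + (K0 n fun e => J (i, true, e)) * sg (τ true) * sg y ↔
        Mx (fun e => J (i, true, e)) (he τ true y) s) := by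
    intro s
    obtain ⟨σ, hσ⟩ := exists_mx (fun e => J (i, true, e)) (he τ true y)
    have e1 := h2 _ _ hσ
    have e2 : he τ true y false = y := by simp [he]
    have e3 : he τ true y true = τ true := by simp [he]
    rw [e2, e3] at e1
    have e4 : C₂ + (K0 n fun e => J (i, true, e)) * sg (τ true) * sg y =
        act (fun e => J (i, true, e)) (he τ true y) σ := by rw [e1]; ring
    rw [e4]
    refine ⟨hσ s, fun h s' => ?_, fun h => ?_⟩
    · rw [h]
      exact hσ s'
    · exact le_antisymm (hσ s) (h σ)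
  obtain ⟨a1, a2⟩ := k1 (ρ false)
  obtain ⟨b1, b2⟩ := k2 (ρ true)
  have c1 : sg y * fl J τ i ≤ |fl J τ i| := by
    rw [← abs_sg y]
    exact le_abs_self _
  have c2 : sg y * fl J τ i = |fl J τ i| ↔ 0 ≤ sg y * fl J τ i := by
    rw [← abs_sg y, eq_comm, abs_eq_self]
  have c3 : sg y * fl J τ i = (K0 n fun e => J (i, false, e)) * sg (τ false) * sg y +
      (K0 n fun e => J (i, true, e)) * sg (τ true) * sg y := by
    unfold fl
    ring
  rw [Fintype.sum_bool]
  constructor
  · linarith
  · constructor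
    · intro h
      refine ⟨?_, c2.1 (by linarith)⟩
      intro h'
      cases h'
      · exact a2.1 (by linarith)
      · exact b2.1 (by linarith)
    · rintro ⟨h, h'⟩
      have d1 := a2.2 (h false)
      have d2 := b2.2 (h true)
      have d3 := c2.2 h'
      linarith

/-- all branches -/
theorem all (hn : Form b n) (J : Edge b (n + 1) → ℝ) : ∃ D : Fin b → ℝ,
    ∀ (τ : Bool → Bool) (σ : Vert b (n + 1) → Bool),
      (act J τ σ = ∑ i, (D i + |fl J τ i|) ↔
        ∀ i, (∀ h, Mx (fun e => J (i, h, e)) (he τ h (mid σ i)) (inn σ i h)) ∧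
          0 ≤ sg (mid σ i) * fl J τ i) ∧
      (Mx J τ σ ↔ act J τ σ = ∑ i, (D i + |fl J τ i|)) := by
  choose D hD using branch hn J
  refine ⟨D, fun τ => ?_⟩
  have h0 : ∀ σ, act J τ σ = ∑ i : Fin b, ∑ h : Bool,
      act (fun e => J (i, h, e)) (he τ h (mid σ i)) (inn σ i h) := fun σ => act_succ J τ σ
  have h1 : ∀ σ, act J τ σ ≤ ∑ i, (D i + |fl J τ i|) := by
    intro σ
    rw [h0]
    exact Finset.sum_le_sum fun i _ => (hD i τ (mid σ i) (inn σ i)).1
  have h2 : ∀ σ, (act J τ σ = ∑ i, (D i + |fl J τ i|) ↔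
        ∀ i, (∀ h, Mx (fun e => J (i, h, e)) (he τ h (mid σ i)) (inn σ i h)) ∧
          0 ≤ sg (mid σ i) * fl J τ i) := by
    intro σ
    rw [h0, Finset.sum_eq_sum_iff_of_le fun i _ => (hD i τ (mid σ i) (inn σ i)).1]
    simp only [Finset.mem_univ, true_imp_iff]
    exact forall_congr' fun i => (hD i τ (mid σ i) (inn σ i)).2
  refine fun σ => ⟨h2 σ, fun h => ?_, fun h s => ?_⟩
  · -- a configuration which attains the bound
    have h3 : ∀ i, ∃ g : Bool × (Bool → Vert b n → Bool),
        (∀ h, Mx (fun e => J (i, h, e)) (he τ h g.1) (g.2 h)) ∧ 0 ≤ sg g.1 * fl J τ i := by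
      intro i
      have h4 : ∃ y, 0 ≤ sg y * fl J τ i := by
        rcases le_total 0 (fl J τ i) with h5 | h5
        · exact ⟨true, by simpa [sg] using h5⟩
        · exact ⟨false, by simpa [sg] using h5⟩
      obtain ⟨y, hy⟩ := h4
      choose ρ hρ using fun h : Bool => exists_mx (fun e => J (i, h, e)) (he τ h y)
      exact ⟨(y, ρ), hρ, hy⟩
    choose g hg using h3
    have h4 := (h2 (eqv.symm g)).2 (fun i => hg i)
    exact le_antisymm (h1 σ) (h4 ▸ h (eqv.symm g))
  · rw [h]
    exact h1 s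

theorem form_zero (b : ℕ) : Form b 0 := by
  intro J
  refine ⟨0, fun τ σ _ => ?_⟩
  unfold act
  have h1 : ∀ F : Edge b 0 → ℝ, ∑ e : Edge b 0, F e = F () := by
    intro F
    have h2 : ∀ G : Unit → ℝ, (∀ e : Edge b 0, F e = G e) → ∑ e : Edge b 0, F e = G () := by
      intro G hG
      have h3 : ∑ e : Edge b 0, F e = ∑ e : Unit, G e :=
        Fintype.sum_equiv (Equiv.refl _) _ _ fun e => hG e
      rw [h3, Fintype.sum_unique]
    exact h2 (fun u => F u) fun e => rfl
  rw [h1, zero_add]
  rfl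

theorem abs_ps (a c : ℝ) (s t : Bool) :
    |a * sg s + c * sg t| = (|a + c| + |a - c|) / 2 + ps a c * sg s * sg t := by
  have hsT : sg true = 1 := by simp [sg]
  have hsF : sg false = -1 := by simp [sg]
  unfold ps
  rcases s with _ | _ <;> rcases t with _ | _ <;> simp only [hsT, hsF]
  · rw [show a * -1 + c * -1 = -(a + c) by ring, abs_neg]
    ring
  · rw [show a * -1 + c * 1 = -(a - c) by ring, abs_neg]
    ring
  · rw [show a * 1 + c * -1 = a - c by ring]
    ring
  · rw [show a * 1 + c * 1 = a + c by ring]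
    ring

theorem form (b : ℕ) : ∀ n, Form b n := by
  intro n
  induction n with
  | zero => exact form_zero b
  | succ n ih =>
    intro J
    obtain ⟨D, hD⟩ := all ih J
    refine ⟨∑ i, (D i + (|(K0 n fun e => J (i, false, e)) + (K0 n fun e => J (i, true, e))| +
      |(K0 n fun e => J (i, false, e)) - (K0 n fun e => J (i, true, e))|) / 2), fun τ σ h => ?_⟩
    rw [(hD τ σ).2.1 h]
    have h3 : K0 (n + 1) J * sg (τ false) * sg (τ true) = ∑ i : Fin b,
        ps (K0 n fun e => J (i, false, e)) (K0 n fun e => J (i, true, e)) * sg (τ false) *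
          sg (τ true) := by
      rw [K0, Finset.sum_mul, Finset.sum_mul]
    rw [h3, ← Finset.sum_add_distrib]
    refine Finset.sum_congr rfl fun i _ => ?_
    unfold fl
    rw [abs_ps]
    ring

/-- **EZ/MX.** -/
theorem t_MX : S_MX := by
  intro b n J
  obtain ⟨C, hC⟩ := form b n J
  exact ⟨C, fun τ => ⟨exists_mx J τ, hC τ⟩⟩

/-- **EZ/RS.** -/
theorem t_RS : S_RS := by
  intro b n J τ σ
  obtain ⟨D, hD⟩ := all (form b n) J
  exact (hD τ σ).2.trans (hD τ σ).1

end Pool.Agent.N645.EZ
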