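import Mathlib

set_option autoImplicit false

/-!
# Project TB, KON (helper645): edge colourings of bipartite multigraphs (Koenig)
-/

namespace Pool.Agent.N645.TBKON

open Finset

/-- the regular case -/
lemma regk {U A B : Type} [Fintype A] [Fintype B] [DecidableEq U] [DecidableEq A] [DecidableEq B]
    (a : U → A) (b : U → B) : ∀ (m : ℕ) (E : Finset U), (∀ x, (E.filter fun u => a u = x).card = m) →
    (∀ y, (E.filter fun u => b u = y).card = m) → ∃ i : U → ℕ, (∀ u ∈ E, i u < m) ∧
      (∀ u ∈ E, ∀ v ∈ E, u ≠ v → a u = a v → i u ≠ i v) ∧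
      ∀ u ∈ E, ∀ v ∈ E, u ≠ v → b u = b v → i u ≠ i v := by
  intro m
  induction m with
  | zero =>
    intro E ha hb
    have hE : E = ∅ := by
      rw [Finset.eq_empty_iff_forall_notMem]
      intro u hu
      have h1 := Finset.card_eq_zero.1 (ha (a u))
      have h2 : u ∈ E.filter fun v => a v = a u := mem_filter.2 ⟨hu, rfl⟩
      rw [h1] at h2
      simp at h2
    subst hE
    exact ⟨fun _ => 0, by simp, by simp, by simp⟩
  | succ m ih =>
    intro E ha hb
    have hcountA : ∀ S : Finset A, (E.filter fun u => a u ∈ S).card = (m + 1) * S.card := by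
      intro S
      rw [Finset.card_eq_sum_card_fiberwise (s := E.filter fun u => a u ∈ S) (f := a) (t := S)
        (fun u hu => mem_coe.2 (mem_filter.1 (mem_coe.1 hu)).2)]
      rw [Finset.sum_congr rfl (g := fun _ => m + 1)]
      · rw [Finset.sum_const, smul_eq_mul, mul_comm]
      · intro x hx
        rw [← ha x]
        congr 1
        ext u
        simp only [mem_filter]
        constructor
        · rintro ⟨⟨h1, h2⟩, h3⟩
          exact ⟨h1, h3⟩
        · rintro ⟨h1, h3⟩
          exact ⟨⟨h1, h3 ▸ hx⟩, h3⟩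
    have hcountB : ∀ S : Finset B, (E.filter fun u => b u ∈ S).card = (m + 1) * S.card := by
      intro S
      rw [Finset.card_eq_sum_card_fiberwise (s := E.filter fun u => b u ∈ S) (f := b) (t := S)
        (fun u hu => mem_coe.2 (mem_filter.1 (mem_coe.1 hu)).2)]
      rw [Finset.sum_congr rfl (g := fun _ => m + 1)]
      · rw [Finset.sum_const, smul_eq_mul, mul_comm]
      · intro x hx
        rw [← hb x]
        congr 1
        ext u
        simp only [mem_filter]
        constructor
        · rintro ⟨⟨h1, h2⟩, h3⟩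
          exact ⟨h1, h3⟩
        · rintro ⟨h1, h3⟩
          exact ⟨⟨h1, h3 ▸ hx⟩, h3⟩
    have hall : ∀ S : Finset A,
        S.card ≤ (S.biUnion fun x => (E.filter fun u => a u = x).image b).card := by
      intro S
      have h1 : (E.filter fun u => a u ∈ S) ⊆
          E.filter fun u => b u ∈ S.biUnion fun x => (E.filter fun u => a u = x).image b := by
        intro u hu
        rw [mem_filter] at hu ⊢
        exact ⟨hu.1, mem_biUnion.2 ⟨a u, hu.2, mem_image.2 ⟨u, mem_filter.2 ⟨hu.1, rfl⟩, rfl⟩⟩⟩
      have h2 := card_le_card h1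
      rw [hcountA, hcountB] at h2
      exact Nat.le_of_mul_le_mul_left h2 (Nat.succ_pos m)
    obtain ⟨f, hf, hft⟩ := (Finset.all_card_le_biUnion_card_iff_exists_injective _).1 hall
    have hex : ∀ x, ∃ u, u ∈ E ∧ a u = x ∧ b u = f x := by
      intro x
      obtain ⟨u, hu, hub⟩ := mem_image.1 (hft x)
      rw [mem_filter] at hu
      exact ⟨u, hu.1, hu.2, hub⟩
    choose e heE hea heb using hex
    have hcard : Fintype.card A = Fintype.card B := by
      have h1 := hcountA univ
      have h2 := hcountB univ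
      simp only [mem_univ, filter_true, card_univ] at h1 h2
      have h3 : (m + 1) * Fintype.card A = (m + 1) * Fintype.card B := by rw [← h1, ← h2]
      exact Nat.eq_of_mul_eq_mul_left (Nat.succ_pos m) h3
    have hfb : Function.Bijective f := (Fintype.bijective_iff_injective_and_card f).2 ⟨hf, hcard⟩
    have k1 : ∀ x, ((E.filter fun u => u ≠ e (a u)).filter fun u => a u = x).card = m := by
      intro x
      have h1 : ((E.filter fun u => u ≠ e (a u)).filter fun u => a u = x) =
          (E.filter fun u => a u = x).erase (e x) := by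
        ext u
        simp only [mem_filter, mem_erase]
        constructor
        · rintro ⟨⟨h1, h2⟩, h3⟩
          exact ⟨fun h => h2 (by rw [h3]; exact h), h1, h3⟩
        · rintro ⟨h1, h2, h3⟩
          exact ⟨⟨h2, fun h => h1 (by rw [← h3]; exact h)⟩, h3⟩
      rw [h1, card_erase_of_mem (mem_filter.2 ⟨heE x, hea x⟩), ha x]
      omega
    have k2 : ∀ y, ((E.filter fun u => u ≠ e (a u)).filter fun u => b u = y).card = m := by
      intro y
      obtain ⟨x, hx⟩ := hfb.2 y
      have h1 : ((E.filter fun u => u ≠ e (a u)).filter fun u => b u = y) =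
          (E.filter fun u => b u = y).erase (e x) := by
        ext u
        simp only [mem_filter, mem_erase]
        constructor
        · rintro ⟨⟨h1, h2⟩, h3⟩
          refine ⟨fun h => h2 ?_, h1, h3⟩
          have h4 : a u = x := by rw [h, hea]
          rw [h4]
          exact h
        · rintro ⟨h1, h2, h3⟩
          refine ⟨⟨h2, fun h => h1 ?_⟩, h3⟩
          have h4 : f (a u) = f x := by rw [← heb, ← h, h3, hx]
          rw [← hf h4]
          exact h
      rw [h1, card_erase_of_mem (mem_filter.2 ⟨heE x, by rw [heb, hx]⟩), hb y]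
      omega
    obtain ⟨i, hi1, hi2, hi3⟩ := ih (E.filter fun u => u ≠ e (a u)) k1 k2
    refine ⟨fun u => if u = e (a u) then m else i u, ?_, ?_, ?_⟩
    · intro u hu
      show (if u = e (a u) then m else i u) < m + 1
      split_ifs with h
      · omega
      · have := hi1 u (mem_filter.2 ⟨hu, h⟩)
        omega
    · intro u hu v hv huv hav
      show (if u = e (a u) then m else i u) ≠ (if v = e (a v) then m else i v)
      split_ifs with h h' h'
      · exact absurd (by rw [h, h', hav]) huv
      · exact (hi1 v (mem_filter.2 ⟨hv, h'⟩)).ne'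
      · exact (hi1 u (mem_filter.2 ⟨hu, h⟩)).ne
      · exact hi2 u (mem_filter.2 ⟨hu, h⟩) v (mem_filter.2 ⟨hv, h'⟩) huv hav
    · intro u hu v hv huv hbv
      show (if u = e (a u) then m else i u) ≠ (if v = e (a v) then m else i v)
      split_ifs with h h' h'
      · have h4 : f (a u) = f (a v) := by rw [← heb, ← heb, ← h, ← h', hbv]
        exact absurd (by rw [h, h', hf h4]) huv
      · exact (hi1 v (mem_filter.2 ⟨hv, h'⟩)).ne'
      · exact (hi1 u (mem_filter.2 ⟨hu, h⟩)).ne
      · exact hi3 u (mem_filter.2 ⟨hu, h⟩) v (mem_filter.2 ⟨hv, h'⟩) huv hbv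

/-- the case of finite sets of vertices -/
lemma konF {U A B : Type} [Fintype U] [Fintype A] [Fintype B] [DecidableEq A] [DecidableEq B] (a : U → A)
    (b : U → B) (m : ℕ) (ha : ∀ x, (univ.filter fun u => a u = x).card ≤ m)
    (hb : ∀ y, (univ.filter fun u => b u = y).card ≤ m) :
    ∃ i : U → Fin m, (∀ u v, u ≠ v → a u = a v → i u ≠ i v) ∧
      ∀ u v, u ≠ v → b u = b v → i u ≠ i v := by
  classical
  obtain ⟨da, hda⟩ : ∃ da : A → ℕ, ∀ x, da x = (univ.filter fun u => a u = x).card := ⟨_, fun _ => rfl⟩
  obtain ⟨db, hdb⟩ : ∃ db : B → ℕ, ∀ y, db y = (univ.filter fun u => b u = y).card := ⟨_, fun _ => rfl⟩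
  let a' : U ⊕ (U ⊕ ((Σ x : A, Fin (m - da x)) ⊕ (Σ y : B, Fin (m - db y)))) → A ⊕ B :=
    Sum.elim (fun u => Sum.inl (a u)) (Sum.elim (fun u => Sum.inr (b u))
      (Sum.elim (fun d => Sum.inl d.1) (fun d => Sum.inr d.1)))
  let b' : U ⊕ (U ⊕ ((Σ x : A, Fin (m - da x)) ⊕ (Σ y : B, Fin (m - db y)))) → B ⊕ A :=
    Sum.elim (fun u => Sum.inl (b u)) (Sum.elim (fun u => Sum.inr (a u))
      (Sum.elim (fun d => Sum.inr d.1) (fun d => Sum.inl d.1)))
  have hA : ∀ x, (∑ u, if a u = x then 1 else 0) + (m - da x) = m := by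
    intro x
    rw [← Finset.card_filter, ← hda]
    have := ha x
    rw [← hda] at this
    omega
  have hB : ∀ y, (∑ u, if b u = y then 1 else 0) + (m - db y) = m := by
    intro y
    rw [← Finset.card_filter, ← hdb]
    have := hb y
    rw [← hdb] at this
    omega
  have k1 : ∀ x, (univ.filter fun w => a' w = x).card = m := by
    intro x
    rw [Finset.card_filter, Fintype.sum_sum_type, Fintype.sum_sum_type, Fintype.sum_sum_type,
      Fintype.sum_sigma, Fintype.sum_sigma]
    rcases x with x | y
    · simp only [a', Sum.elim_inl, Sum.elim_inr, Sum.inl.injEq, reduceCtorEq, if_false, sum_const_zero, sum_const,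
        card_univ, Fintype.card_fin, smul_eq_mul, mul_ite, mul_one, mul_zero, sum_ite_eq', mem_univ, if_true,
        zero_add, add_zero]
      exact hA x
    · simp only [a', Sum.elim_inl, Sum.elim_inr, Sum.inr.injEq, reduceCtorEq, if_false, sum_const_zero, sum_const,
        card_univ, Fintype.card_fin, smul_eq_mul, mul_ite, mul_one, mul_zero, sum_ite_eq', mem_univ, if_true,
        zero_add, add_zero]
      exact hB y
  have k2 : ∀ x, (univ.filter fun w => b' w = x).card = m := by
    intro x
    rw [Finset.card_filter, Fintype.sum_sum_type, Fintype.sum_sum_type, Fintype.sum_sum_type,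
      Fintype.sum_sigma, Fintype.sum_sigma]
    rcases x with y | x
    · simp only [b', Sum.elim_inl, Sum.elim_inr, Sum.inl.injEq, reduceCtorEq, if_false, sum_const_zero, sum_const,
        card_univ, Fintype.card_fin, smul_eq_mul, mul_ite, mul_one, mul_zero, sum_ite_eq', mem_univ, if_true,
        zero_add, add_zero]
      exact hB y
    · simp only [b', Sum.elim_inl, Sum.elim_inr, Sum.inr.injEq, reduceCtorEq, if_false, sum_const_zero, sum_const,
        card_univ, Fintype.card_fin, smul_eq_mul, mul_ite, mul_one, mul_zero, sum_ite_eq', mem_univ, if_true,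
        zero_add, add_zero]
      exact hA x
  obtain ⟨i, hi1, hi2, hi3⟩ := regk a' b' m univ k1 k2
  refine ⟨fun u => ⟨i (Sum.inl u), hi1 _ (mem_univ _)⟩, fun u v huv h h' => ?_, fun u v huv h h' => ?_⟩
  · refine hi2 (Sum.inl u) (mem_univ _) (Sum.inl v) (mem_univ _) (fun h1 => huv (Sum.inl_injective h1)) ?_
      (Fin.mk.inj_iff.1 h')
    show (Sum.inl (a u) : A ⊕ B) = Sum.inl (a v)
    rw [h]
  · refine hi3 (Sum.inl u) (mem_univ _) (Sum.inl v) (mem_univ _) (fun h1 => huv (Sum.inl_injective h1)) ?_
      (Fin.mk.inj_iff.1 h')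
    show (Sum.inl (b u) : B ⊕ A) = Sum.inl (b v)
    rw [h]

/-- Koenig's edge colouring theorem for the bipartite multigraph with edge set `U`. -/
theorem kon {U A B : Type} [Fintype U] [DecidableEq A] [DecidableEq B] (a : U → A) (b : U → B)
    (m : ℕ) (ha : ∀ x, (univ.filter fun u => a u = x).card ≤ m)
    (hb : ∀ y, (univ.filter fun u => b u = y).card ≤ m) :
    ∃ i : U → Fin m, (∀ u v, u ≠ v → a u = a v → i u ≠ i v) ∧
      ∀ u v, u ≠ v → b u = b v → i u ≠ i v := by
  obtain ⟨i, h1, h2⟩ := konF (A := {x // x ∈ univ.image a}) (B := {y // y ∈ univ.image b})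
    (fun u => ⟨a u, mem_image_of_mem a (mem_univ u)⟩) (fun u => ⟨b u, mem_image_of_mem b (mem_univ u)⟩) m
    (fun x => by
      refine le_trans (le_of_eq ?_) (ha x.1)
      congr 1
      ext u
      simp [Subtype.ext_iff])
    (fun y => by
      refine le_trans (le_of_eq ?_) (hb y.1)
      congr 1
      ext u
      simp [Subtype.ext_iff])
  exact ⟨i, fun u v huv h => h1 u v huv (Subtype.ext h), fun u v huv h => h2 u v huv (Subtype.ext h)⟩

end Pool.Agent.N645.TBKON
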