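import Pool.Agent.N906.KG.Grid
import Pool.Agent.N803.RS_CNT

/-!
# Project KG (helper906), statement UPG: the upper bound for the grid divisors

`upg` proves `S_UPG K` from `S_CXG`, `S_BASQ K`, `S_CELLQ K`, `S_REDK K`, `S_RANK K`, `S_CNTK K`
(and `RS.S_CNT K`, proved in `Pool/Agent/N803/RS_CNT.lean`), following the paper proof in
`Pool/Agent/N906/KG/Grid.lean`. Written by helper645.
-/

set_option autoImplicit false
set_option linter.unusedSectionVars false

namespace Pool.Agent.N645.KG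

open NumberField IsDedekindDomain Finset Filter Topology Pool.Agent.H691R3 Pool.Agent.W223.AK
open Pool.Agent.N906.NT (Cx cst)
open Pool.Agent.N906.KG

variable {K : Type} [Field K] [NumberField K]

/-! ### tuples of ideals -/

theorem lg (v : Pr K) : 0 < Real.log (Nv v) := Real.log_pos (by linarith [two_le_Nv v])

theorem len0 (a : Idl K) : 0 ≤ len a :=
  Finset.sum_nonneg fun v _ => mul_nonneg (Nat.cast_nonneg _) (lg v).le

theorem tl0 {n : ℕ} (D : Fin n → Idl K) : 0 ≤ tl D := Finset.sum_nonneg fun i _ => len0 (D i)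

theorem mem_sp {n : ℕ} {D : Fin n → Idl K} {v : Pr K} : v ∈ sp D ↔ ∃ i, D i v ≠ 0 := by
  classical
  unfold sp
  rw [mem_biUnion]
  constructor
  · rintro ⟨i, -, hi⟩
    exact ⟨i, Finsupp.mem_support_iff.1 hi⟩
  · rintro ⟨i, hi⟩
    exact ⟨i, mem_univ _, Finsupp.mem_support_iff.2 hi⟩

theorem tl_eq {n : ℕ} (D : Fin n → Idl K) :
    tl D = ∑ v ∈ sp D, ((∑ i, D i v : ℕ) : ℝ) * Real.log (Nv v) := by
  classical
  unfold tl
  have h1 : ∀ i : Fin n, len (D i) = ∑ v ∈ sp D, (D i v : ℝ) * Real.log (Nv v) := by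
    intro i
    unfold len
    refine Finset.sum_subset ?_ ?_
    · intro v hv
      exact mem_sp.2 ⟨i, Finsupp.mem_support_iff.1 hv⟩
    · intro v _ hv
      rw [Finsupp.notMem_support_iff.1 hv]
      simp
  rw [Finset.sum_congr rfl fun i _ => h1 i, Finset.sum_comm]
  refine Finset.sum_congr rfl fun v _ => ?_
  rw [← Finset.sum_mul]
  push_cast
  rfl

theorem gl_eq {n : ℕ} (D : Fin n → Idl K) :
    gl D = ∑ v ∈ sp D, (((∑ i, D i v : ℕ) : ℝ) - 1) * Real.log (Nv v) := by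
  unfold gl
  rw [tl_eq]
  unfold tr
  rw [← Finset.sum_sub_distrib]
  exact Finset.sum_congr rfl fun v _ => by ring

theorem two_le {n : ℕ} {D : Fin n → Idl K} (hD : Sq D) {v : Pr K} (hv : v ∈ sp D) :
    2 ≤ ∑ i, D i v := by
  obtain ⟨i, hi⟩ := mem_sp.1 hv
  have h1 : D i v ≤ ∑ i, D i v :=
    Finset.single_le_sum (f := fun i => D i v) (fun _ _ => Nat.zero_le _) (mem_univ i)
  have h2 := hD v
  omega

theorem tr_le_gl {n : ℕ} {D : Fin n → Idl K} (hD : Sq D) : tr D ≤ gl D := by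
  rw [gl_eq]
  unfold tr
  refine Finset.sum_le_sum fun v hv => ?_
  have h1 : (2 : ℝ) ≤ ((∑ i, D i v : ℕ) : ℝ) := by exact_mod_cast two_le hD hv
  nlinarith [lg v]

/-- the exceptional tuples -/
def Exc {n : ℕ} (D : Fin n → Idl K) (v : Pr K) : Prop := sp D = {v} ∧ ∑ i, D i v = 2

theorem small {n : ℕ} {D : Fin n → Idl K} (hD : Sq D) {T : ℝ} (hT : 0 < T) (h1 : T ≤ gl D)
    (h2 : ∀ v ∈ sp D, gl D - Real.log (Nv v) < T) : gl D ≤ 2 * T ∨ ∃ v, Exc D v := by
  classical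
  by_cases hne : (sp D).Nonempty
  · obtain ⟨v, hv, hmin⟩ := Finset.exists_min_image (sp D) (fun v => Real.log (Nv v)) hne
    by_cases h3 : 2 * Real.log (Nv v) ≤ gl D
    · left
      have := h2 v hv
      linarith
    · right
      push Not at h3
      refine ⟨v, ?_, ?_⟩
      · rw [Finset.eq_singleton_iff_unique_mem]
        refine ⟨hv, fun w hw => ?_⟩
        by_contra hwv
        have h4 : Real.log (Nv v) + Real.log (Nv w) ≤ tr D := by
          unfold tr
          have : ∑ u ∈ ({v, w} : Finset (Pr K)), Real.log (Nv u) ≤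
              ∑ u ∈ sp D, Real.log (Nv u) := by
            refine Finset.sum_le_sum_of_subset_of_nonneg ?_ fun u _ _ => (lg u).le
            intro u hu
            rw [mem_insert, mem_singleton] at hu
            rcases hu with rfl | rfl
            · exact hv
            · exact hw
          rwa [Finset.sum_pair (fun h => hwv h.symm)] at this
        have h5 := tr_le_gl hD
        have h6 := hmin w hw
        linarith
      · have h4 : (((∑ i, D i v : ℕ) : ℝ) - 1) * Real.log (Nv v) ≤ gl D := by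
          rw [gl_eq]
          refine Finset.single_le_sum (f := fun v => (((∑ i, D i v : ℕ) : ℝ) - 1) *
            Real.log (Nv v)) (fun u hu => ?_) hv
          have h1 : (2 : ℝ) ≤ ((∑ i, D i u : ℕ) : ℝ) := by exact_mod_cast two_le hD hu
          exact mul_nonneg (by linarith) (lg u).le
        have h5 := lg v
        have h6 : ((∑ i, D i v : ℕ) : ℝ) < 3 := by
          by_contra h7
          push Not at h7
          nlinarith
        have h7 : ∑ i, D i v < 3 := by exact_mod_cast h6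
        have h8 := two_le hD hv
        omega
  · exfalso
    rw [Finset.not_nonempty_iff_eq_empty] at hne
    rw [gl_eq, hne, Finset.sum_empty] at h1
    linarith

/-- the number of the exceptional tuples -/
theorem exc_card {n : ℕ} {C Y : ℝ} (hY : 1 ≤ Y)
    (hC : ∀ (Y : ℝ) (s : Finset (Pr K)), 1 ≤ Y → (∀ v ∈ s, Nv v ≤ Y) → (s.card : ℝ) ≤ C * Y)
    (L : Finset (Fin n → Idl K)) (hL : ∀ D ∈ L, ∃ v, Exc D v ∧ Nv v ≤ Y) :
    (L.card : ℝ) ≤ 3 ^ n * (C * Y) := by
  classical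
  have h1 : ∀ D : Fin n → Idl K, ∃ v : Option (Pr K), D ∈ L → ∃ w, v = some w ∧ Exc D w ∧
      Nv w ≤ Y := by
    intro D
    by_cases h : D ∈ L
    · obtain ⟨v, hv⟩ := hL D h
      exact ⟨some v, fun _ => ⟨v, rfl, hv⟩⟩
    · exact ⟨none, fun h' => absurd h' h⟩
  choose g hg using h1
  obtain ⟨s, hs⟩ : ∃ s : Finset (Option (Pr K)), s = L.image g := ⟨_, rfl⟩
  have hsc : (s.card : ℝ) ≤ C * Y := by
    have h3 : s = (s.eraseNone).map Function.Embedding.some := by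
      ext o
      rw [Finset.mem_map]
      constructor
      · intro ho
        rw [hs, mem_image] at ho
        obtain ⟨D, hD, rfl⟩ := ho
        obtain ⟨w, hw, -⟩ := hg D hD
        refine ⟨w, ?_, by rw [hw]; rfl⟩
        rw [mem_eraseNone, ← hw, hs]
        exact mem_image_of_mem _ hD
      · rintro ⟨w, hw, rfl⟩
        exact mem_eraseNone.1 hw
    rw [h3, card_map]
    refine hC Y _ hY fun v hv => ?_
    rw [mem_eraseNone, hs, mem_image] at hv
    obtain ⟨D, hD, h4⟩ := hv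
    obtain ⟨w, hw, -, hw2⟩ := hg D hD
    rw [hw] at h4
    rw [← Option.some.inj h4]
    exact hw2
  have hle : L.card ≤ (s ×ˢ Fintype.piFinset (fun _ : Fin n => range 3)).card := by
    refine Finset.card_le_card_of_injOn (fun D => (g D, fun i => match g D with
      | none => 0
      | some v => D i v)) ?_ ?_
    · intro D hD
      have hD' : D ∈ L := hD
      obtain ⟨w, hw, ⟨-, hw2⟩, -⟩ := hg D hD'
      rw [mem_coe, mem_product]
      refine ⟨by rw [hs]; exact mem_image_of_mem _ hD', ?_⟩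
      rw [Fintype.mem_piFinset]
      intro i
      simp only [hw, mem_range]
      have h3 : D i w ≤ ∑ i, D i w :=
        Finset.single_le_sum (f := fun i => D i w) (fun _ _ => Nat.zero_le _) (mem_univ i)
      omega
    · intro D hD E hE hDE
      have hD' : D ∈ L := hD
      have hE' : E ∈ L := hE
      obtain ⟨w, hw, ⟨hw1, -⟩, -⟩ := hg D hD'
      obtain ⟨w', hw', ⟨hw1', -⟩, -⟩ := hg E hE'
      simp only [Prod.mk.injEq] at hDE
      obtain ⟨h3, h4⟩ := hDE
      rw [hw, hw'] at h3 h4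
      have h5 : w = w' := Option.some.inj h3
      subst h5
      have h6 : ∀ i, D i w = E i w := fun i => congrFun h4 i
      funext i
      ext v
      by_cases hv : v = w
      · rw [hv]; exact h6 i
      · have h7 : v ∉ sp D := by rw [hw1]; simpa using hv
        have h8 : v ∉ sp E := by rw [hw1']; simpa using hv
        have h9 : D i v = 0 := by
          by_contra h; exact h7 (mem_sp.2 ⟨i, h⟩)
        have h10 : E i v = 0 := by
          by_contra h; exact h8 (mem_sp.2 ⟨i, h⟩)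
        rw [h9, h10]
  rw [card_product, Fintype.card_piFinset, Finset.prod_const, card_range, card_univ,
    Fintype.card_fin] at hle
  have h2 : (L.card : ℝ) ≤ (s.card : ℝ) * 3 ^ n := by exact_mod_cast hle
  refine h2.trans ?_
  rw [mul_comm]
  exact mul_le_mul_of_nonneg_left hsc (by positivity)

variable {q r : ℕ}

/-- the two halves of a tuple -/
def hl (D : Fin (q + r) → Idl K) : Fin q → Idl K := fun l => D (Fin.castAdd r l)
def hrr (D : Fin (q + r) → Idl K) : Fin r → Idl K := fun l => D (Fin.natAdd q l)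

theorem tl_split (D : Fin (q + r) → Idl K) : tl D = tl (hl D) + tl (hrr D) := by
  unfold tl hl hrr
  rw [Fin.sum_univ_add]

theorem len_ge (a : Idl K) (v : Pr K) : (a v : ℝ) * Real.log (Nv v) ≤ len a := by
  by_cases h : v ∈ a.support
  · exact Finset.single_le_sum (f := fun v => (a v : ℝ) * Real.log (Nv v))
      (fun u _ => mul_nonneg (Nat.cast_nonneg _) (lg u).le) h
  · rw [Finsupp.notMem_support_iff.1 h]
    simpa using len0 a

theorem tl_ge {n : ℕ} (D : Fin n → Idl K) (v : Pr K) :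
    ((∑ i, D i v : ℕ) : ℝ) * Real.log (Nv v) ≤ tl D := by
  push_cast
  rw [Finset.sum_mul]
  exact Finset.sum_le_sum fun i _ => len_ge (D i) v

/-- exceptional tuples with large prime -/
theorem exc_large {D : Fin (q + r) → Idl K} {v : Pr K} {Λ : ℝ} (hT : Tp (Gc q r) D)
    (hE : Exc D v) (hb : ∀ i, (D i v : ℝ) * Real.log (Nv v) ≤ Λ)
    (hl1 : Λ / 2 < Real.log (Nv v)) :
    Λ / 2 ≤ tl (hl D) ∧ Λ / 2 ≤ tl (hrr D) := by
  have h1 : ∀ i, D i v ≤ 1 := by
    intro i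
    by_contra h
    push Not at h
    have h2 : (2 : ℝ) ≤ (D i v : ℝ) := by exact_mod_cast h
    have := hb i
    nlinarith [lg v]
  have hg := hT v
  unfold Gc at hg
  rw [mem_filter] at hg
  obtain ⟨-, hg1, hg2⟩ := hg
  have hs : ∑ l : Fin q, hl D l v ≤ 1 := by
    have h3 : ∑ l : Fin q, hl D l v ≤
        ∑ l : Fin q, (if D (Fin.castAdd r l) v ≠ 0 then 1 else 0) := by
      refine Finset.sum_le_sum fun l _ => ?_
      unfold hl
      have := h1 (Fin.castAdd r l)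
      split_ifs with h
      · exact this
      · omega
    refine h3.trans ?_
    rw [← Finset.card_filter]
    refine le_trans ?_ hg1
    refine Finset.card_le_card_of_injOn (Fin.castAdd r) ?_ ?_
    · intro l hl
      have hl' : l ∈ univ.filter (fun l : Fin q => D (Fin.castAdd r l) v ≠ 0) := hl
      rw [mem_filter] at hl'
      rw [mem_coe, mem_filter, mem_filter]
      exact ⟨⟨mem_univ _, hl'.2⟩, by simp⟩
    · intro a _ b _ hab
      exact Fin.castAdd_injective q r hab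
  have hs' : ∑ l : Fin r, hrr D l v ≤ 1 := by
    have h3 : ∑ l : Fin r, hrr D l v ≤
        ∑ l : Fin r, (if D (Fin.natAdd q l) v ≠ 0 then 1 else 0) := by
      refine Finset.sum_le_sum fun l _ => ?_
      unfold hrr
      have := h1 (Fin.natAdd q l)
      split_ifs with h
      · exact this
      · omega
    refine h3.trans ?_
    rw [← Finset.card_filter]
    refine le_trans ?_ hg2
    refine Finset.card_le_card_of_injOn (Fin.natAdd q) ?_ ?_
    · intro l hl
      have hl' : l ∈ univ.filter (fun l : Fin r => D (Fin.natAdd q l) v ≠ 0) := hl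
      rw [mem_filter] at hl'
      rw [mem_coe, mem_filter, mem_filter]
      exact ⟨⟨mem_univ _, hl'.2⟩, by simp⟩
    · intro a _ b _ hab
      exact Fin.natAdd_injective r q hab
  have htot : ∑ l : Fin q, hl D l v + ∑ l : Fin r, hrr D l v = 2 := by
    rw [← hE.2, Fin.sum_univ_add]
    rfl
  have ha : ∑ l : Fin q, hl D l v = 1 := by omega
  have hb' : ∑ l : Fin r, hrr D l v = 1 := by omega
  have t1 := tl_ge (hl D) v
  have t2 := tl_ge (hrr D) v
  rw [ha] at t1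
  rw [hb'] at t2
  push_cast at t1 t2
  constructor <;> linarith

/-- the contribution of the exceptional tuples -/
theorem exc_sum {C A Λ : ℝ} (hΛ : 0 ≤ Λ) (hA : Λ / 2 ≤ A)
    (hC : ∀ (Y : ℝ) (s : Finset (Pr K)), 1 ≤ Y → (∀ v ∈ s, Nv v ≤ Y) → (s.card : ℝ) ≤ C * Y)
    (L : Finset (Fin (q + r) → Idl K)) (hL : ∀ D ∈ L, Tp (Gc q r) D ∧ ∃ v, Exc D v ∧
      ∀ i, (D i v : ℝ) * Real.log (Nv v) ≤ Λ) :
    ∑ D ∈ L, (Real.exp (A - tl (hl D)) + Real.exp (A - tl (hrr D)) + 1) ≤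
      6 * 3 ^ (q + r) * C * Real.exp (A + Λ / 2) := by
  classical
  have hlog : ∀ (v : Pr K) (y : ℝ), Nv v ≤ Real.exp y ↔ Real.log (Nv v) ≤ y := by
    intro v y
    rw [Real.log_le_iff_le_exp (by linarith [two_le_Nv v])]
  set L1 := L.filter fun D => ∃ v, Exc D v ∧ Nv v ≤ Real.exp (Λ / 2) with hL1
  set L2 := L.filter fun D => ¬ ∃ v, Exc D v ∧ Nv v ≤ Real.exp (Λ / 2) with hL2
  rw [← Finset.sum_filter_add_sum_filter_not L (fun D => ∃ v, Exc D v ∧ Nv v ≤ Real.exp (Λ / 2))]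
  have c1 : (L1.card : ℝ) ≤ 3 ^ (q + r) * (C * Real.exp (Λ / 2)) := by
    refine exc_card (Real.one_le_exp (by linarith)) hC L1 fun D hD => ?_
    rw [hL1, mem_filter] at hD
    exact hD.2
  have c2 : (L2.card : ℝ) ≤ 3 ^ (q + r) * (C * Real.exp Λ) := by
    refine exc_card (Real.one_le_exp hΛ) hC L2 fun D hD => ?_
    rw [hL2, mem_filter] at hD
    obtain ⟨-, v, hv, hb⟩ := hL D hD.1
    refine ⟨v, hv, (hlog v Λ).2 ?_⟩
    obtain ⟨i, hi⟩ := mem_sp.1 (show v ∈ sp D by rw [hv.1]; exact mem_singleton_self _)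
    have h1 : (1 : ℝ) ≤ (D i v : ℝ) := by exact_mod_cast Nat.one_le_iff_ne_zero.2 hi
    have := hb i
    nlinarith [lg v]
  have s1 : ∑ D ∈ L1, (Real.exp (A - tl (hl D)) + Real.exp (A - tl (hrr D)) + 1) ≤
      L1.card * (3 * Real.exp A) := by
    rw [← nsmul_eq_mul]
    refine Finset.sum_le_card_nsmul _ _ _ fun D _ => ?_
    have h1 : Real.exp (A - tl (hl D)) ≤ Real.exp A := Real.exp_le_exp.2 (by linarith [tl0 (hl D)])
    have h2 : Real.exp (A - tl (hrr D)) ≤ Real.exp A :=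
      Real.exp_le_exp.2 (by linarith [tl0 (hrr D)])
    have h3 : 1 ≤ Real.exp A := Real.one_le_exp (by linarith)
    linarith
  have s2 : ∑ D ∈ L2, (Real.exp (A - tl (hl D)) + Real.exp (A - tl (hrr D)) + 1) ≤
      L2.card * (3 * Real.exp (A - Λ / 2)) := by
    rw [← nsmul_eq_mul]
    refine Finset.sum_le_card_nsmul _ _ _ fun D hD => ?_
    rw [hL2, mem_filter] at hD
    obtain ⟨hT, v, hv, hb⟩ := hL D hD.1
    have hlv : Λ / 2 < Real.log (Nv v) := by
      by_contra h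
      push Not at h
      exact hD.2 ⟨v, hv, (hlog v _).2 h⟩
    obtain ⟨h4, h5⟩ := exc_large hT hv hb hlv
    have h1 : Real.exp (A - tl (hl D)) ≤ Real.exp (A - Λ / 2) := Real.exp_le_exp.2 (by linarith)
    have h2 : Real.exp (A - tl (hrr D)) ≤ Real.exp (A - Λ / 2) :=
      Real.exp_le_exp.2 (by linarith)
    have h3 : 1 ≤ Real.exp (A - Λ / 2) := Real.one_le_exp (by linarith)
    linarith
  have e1 : (L1.card : ℝ) * (3 * Real.exp A) ≤ 3 * 3 ^ (q + r) * C * Real.exp (A + Λ / 2) := by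
    rw [Real.exp_add]
    have := mul_le_mul_of_nonneg_right c1 (show 0 ≤ 3 * Real.exp A by positivity)
    nlinarith
  have e2 : (L2.card : ℝ) * (3 * Real.exp (A - Λ / 2)) ≤
      3 * 3 ^ (q + r) * C * Real.exp (A + Λ / 2) := by
    have := mul_le_mul_of_nonneg_right c2 (show 0 ≤ 3 * Real.exp (A - Λ / 2) by positivity)
    have h1 : Real.exp Λ * Real.exp (A - Λ / 2) = Real.exp (A + Λ / 2) := by
      rw [← Real.exp_add]; congr 1; ring
    rw [← h1]
    nlinarith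
  linarith


/-! ### codes -/

/-- the point `x` has the code `c` -/
structure Ic (α : Fin q → K × K) (S : Finset (Pr K)) (C : ℝ)
    (c : ℕ × (Pl K → Fin q) × (Pl K → ℕ)) (x : K) : Prop where
  up : hr (aff x) ≤ c.1
  dn : (c.1 : ℝ) - 1 ≤ hr (aff x)
  cl : ∀ v ∈ Spl S, (c.2.2 v : ℝ) ≤ lam v (aff x) (α (c.2.1 v)) + loss v
  ge : ∀ P, IsP S α x P →
    (q : ℝ) * hr (aff x) - ∑ v ∈ Spl S, (c.2.2 v : ℝ) - C ≤ tl P

theorem codes (h1 : S_BASQ K) {q : ℕ} {α : Fin q → K × K} (hq : 1 ≤ q) (hα : Al α)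
    {S : Finset (Pr K)} (hS : Gd S α) :
    ∃ C : ℝ, 0 < C ∧ (∀ x, Of α x → ∀ P, IsP S α x P →
      (∀ l l', l ≠ l' → Cop (P l) (P l')) ∧
        ∀ l v, (P l v : ℝ) * Real.log (Nv v) ≤ hr (aff x) + C) ∧
    ∀ X : ℝ, 0 ≤ X → ∃ T : Finset (ℕ × (Pl K → Fin q) × (Pl K → ℕ)),
      (T.card : ℝ) ≤ C * (X + C) ^ (1 + (Spl S).card) ∧ (∀ c ∈ T, (c.1 : ℝ) ≤ X + 1) ∧
      ∀ x, Of α x → hr (aff x) ≤ X → ∃ c ∈ T, Ic α S C c x := by
  classical
  obtain ⟨C₀, hC₀, hb⟩ := (h1 q α hq hα).2 S hS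
  obtain ⟨s, hs⟩ : ∃ s : Finset (Pl K), s = Spl S := ⟨_, rfl⟩
  obtain ⟨Λ, hΛ⟩ : ∃ Λ : ℝ, Λ = ∑ v ∈ s, loss v := ⟨_, rfl⟩
  have hΛ0 : 0 ≤ Λ := by rw [hΛ]; exact Finset.sum_nonneg fun v _ => loss_nonneg v
  have hΛv : ∀ v ∈ s, loss v ≤ Λ := by
    intro v hv
    rw [hΛ]
    exact Finset.single_le_sum (f := fun v => loss v) (fun v _ => loss_nonneg v) hv
  have hs0 : (0 : ℝ) ≤ s.card := Nat.cast_nonneg _
  have hq0 : (0 : ℝ) ≤ q := Nat.cast_nonneg _
  have hqs : (0 : ℝ) ≤ (q : ℝ) ^ s.card := by positivity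
  have hsq : 0 ≤ (s.card : ℝ) * (1 + q * C₀) := by positivity
  obtain ⟨C, hC⟩ : ∃ C : ℝ, C = 2 + C₀ + Λ + s.card * (1 + q * C₀) + (q : ℝ) ^ s.card :=
    ⟨_, rfl⟩
  have hC0 : 0 < C := by rw [hC]; linarith
  refine ⟨C, hC0, ?_, ?_⟩
  · intro x hx P hP
    obtain ⟨-, h2, -, -⟩ := hb x hx
    obtain ⟨h3, -, h5⟩ := h2 P hP
    refine ⟨h3, fun l v => (h5 l v).trans ?_⟩
    linarith
  · intro X hX
    rw [← hs]
    obtain ⟨N, hN⟩ : ∃ N : ℕ, N = ⌊X + C₀ + Λ⌋₊ + 1 := ⟨_, rfl⟩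
    obtain ⟨t₀, -⟩ : ∃ t : Fin q, True := ⟨⟨0, hq⟩, trivial⟩
    obtain ⟨ext, hext⟩ : ∃ ext : ℕ × (s → Fin q) × (s → ℕ) → ℕ × (Pl K → Fin q) × (Pl K → ℕ),
        ext = fun c => (c.1, (fun v => if h : v ∈ s then c.2.1 ⟨v, h⟩ else t₀),
          (fun v => if h : v ∈ s then c.2.2 ⟨v, h⟩ else 0)) := ⟨_, rfl⟩
    refine ⟨(range (⌈X⌉₊ + 1) ×ˢ ((univ : Finset (s → Fin q)) ×ˢ
      Fintype.piFinset (fun _ : s => range N))).image ext, ?_, ?_, ?_⟩
    · refine (Nat.cast_le.2 card_image_le).trans ?_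
      rw [card_product, card_product, card_univ, Fintype.card_piFinset, Finset.prod_const,
        Fintype.card_fun, Fintype.card_fin, card_range, card_range, card_univ,
        Fintype.card_coe]
      push_cast
      have e1 : ((⌈X⌉₊ : ℕ) : ℝ) + 1 ≤ X + C := by
        have := (Nat.ceil_lt_add_one hX).le
        linarith
      have e2 : (N : ℝ) ≤ X + C := by
        rw [hN]
        push_cast
        have := Nat.floor_le (show 0 ≤ X + C₀ + Λ by linarith)
        linarith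
      calc ((⌈X⌉₊ : ℝ) + 1) * ((q : ℝ) ^ s.card * (N : ℝ) ^ s.card)
          ≤ (X + C) * (C * (X + C) ^ s.card) := by
            apply mul_le_mul e1 _ (by positivity) (by linarith)
            apply mul_le_mul _ _ (by positivity) hC0.le
            · linarith
            · exact pow_le_pow_left₀ (Nat.cast_nonneg _) e2 _
        _ = C * (X + C) ^ (1 + s.card) := by rw [pow_add]; ring
    · intro c hc
      obtain ⟨d, hd, rfl⟩ := mem_image.1 hc
      rw [mem_product, mem_range] at hd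
      have h5 : d.1 ≤ ⌈X⌉₊ := by omega
      have h6 := (Nat.ceil_lt_add_one hX).le
      have h7 : (d.1 : ℝ) ≤ (⌈X⌉₊ : ℝ) := by exact_mod_cast h5
      have h8 : (ext d).1 = d.1 := by rw [hext]
      rw [h8]
      linarith
    · intro x hx hxX
      obtain ⟨-, h2, h3, h4⟩ := hb x hx
      rw [← hs] at h3 h4
      have h5 : ∀ v : Pl K, ∃ τ : Fin q, v ∈ s → ∀ l, l ≠ τ → lam v (aff x) (α l) ≤ C₀ := by
        intro v
        by_cases hv : v ∈ s
        · obtain ⟨τ, hτ⟩ := (h3 v hv).2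
          exact ⟨τ, fun _ => hτ⟩
        · exact ⟨t₀, fun h => absurd h hv⟩
      choose τ hτ using h5
      have hk0 : ∀ v ∈ s, 0 ≤ lam v (aff x) (α (τ v)) + loss v := by
        intro v hv
        have := (h3 v hv).1 (τ v)
        linarith
      refine ⟨ext (⌈hr (aff x)⌉₊, (fun v => τ v.1),
        (fun v => ⌊lam v.1 (aff x) (α (τ v.1)) + loss v.1⌋₊)), mem_image_of_mem _ ?_, ?_⟩
      · rw [mem_product, mem_product, mem_range, Fintype.mem_piFinset]
        refine ⟨Nat.lt_succ_of_le (Nat.ceil_le_ceil hxX), mem_univ _, fun v => ?_⟩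
        rw [mem_range, hN]
        apply Nat.lt_succ_of_le
        apply Nat.floor_le_floor
        have h6 := h4 v.1 v.2 (τ v.1)
        have h7 := hΛv v.1 v.2
        linarith
      · have hτe : ∀ v ∈ s, (ext (⌈hr (aff x)⌉₊, (fun v => τ v.1),
            (fun v => ⌊lam v.1 (aff x) (α (τ v.1)) + loss v.1⌋₊))).2.1 v = τ v := by
          intro v hv
          rw [hext]
          simp only [dif_pos hv]
        have hke : ∀ v ∈ s, (ext (⌈hr (aff x)⌉₊, (fun v => τ v.1),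
            (fun v => ⌊lam v.1 (aff x) (α (τ v.1)) + loss v.1⌋₊))).2.2 v =
              ⌊lam v (aff x) (α (τ v)) + loss v⌋₊ := by
          intro v hv
          rw [hext]
          simp only [dif_pos hv]
        have hme : (ext (⌈hr (aff x)⌉₊, (fun v => τ v.1),
            (fun v => ⌊lam v.1 (aff x) (α (τ v.1)) + loss v.1⌋₊))).1 = ⌈hr (aff x)⌉₊ := by
          rw [hext]
        refine ⟨?_, ?_, ?_, ?_⟩
        · rw [hme]; exact Nat.le_ceil _
        · rw [hme]
          have := (Nat.ceil_lt_add_one (hr_aff_nonneg x)).le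
          linarith
        · intro v hv
          rw [← hs] at hv
          rw [hτe v hv, hke v hv]
          exact Nat.floor_le (hk0 v hv)
        · intro P hP
          obtain ⟨-, h7, -⟩ := h2 P hP
          rw [← hs] at h7 ⊢
          rw [Finset.sum_congr rfl fun v hv => by rw [hke v hv]]
          have h8 := (abs_le.1 h7).2
          have h9 : ∑ l, ∑ v ∈ s, lam v (aff x) (α l) ≤
              ∑ v ∈ s, ((⌊lam v (aff x) (α (τ v)) + loss v⌋₊ : ℝ) + (1 + q * C₀)) := by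
            rw [Finset.sum_comm]
            refine Finset.sum_le_sum fun v hv => ?_
            rw [← Finset.add_sum_erase _ _ (mem_univ (τ v))]
            have h10 : ∑ l ∈ univ.erase (τ v), lam v (aff x) (α l) ≤ q * C₀ := by
              refine (Finset.sum_le_card_nsmul _ _ C₀ fun l hl => ?_).trans ?_
              · exact hτ v hv l (ne_of_mem_erase hl)
              · rw [nsmul_eq_mul]
                apply mul_le_mul_of_nonneg_right _ hC₀
                have : (univ.erase (τ v)).card ≤ q := by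
                  refine (card_erase_le).trans ?_
                  rw [card_univ, Fintype.card_fin]
                exact_mod_cast this
            have h11 := (Nat.lt_floor_add_one (lam v (aff x) (α (τ v)) + loss v)).le
            have h12 := loss_nonneg v
            linarith
          rw [Finset.sum_add_distrib, Finset.sum_const, nsmul_eq_mul] at h9
          rw [hC]
          linarith


/-! ### the bound for one pair of codes -/

/-- the cell bound -/
def CB (α : Fin q → K × K) (S : Finset (Pr K)) (C : ℝ) : Prop :=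
  ∀ (X : ℝ) (D : Fin q → Idl K) (τ : Pl K → Fin q) (s : Pl K → ℝ) (F : Finset K),
    0 ≤ X → (∀ v ∈ Spl S, 0 ≤ s v) → (∀ l, OffS S (D l)) →
    (∀ x ∈ F, Of α x ∧ hr (aff x) ≤ X ∧ (∀ v ∈ Spl S, s v ≤ lam v (aff x) (α (τ v)) + loss v) ∧
      ∃ P, IsP S α x P ∧ ∀ l, D l ≤ P l) →
    (F.card : ℝ) ≤ C * (Real.exp (2 * X - tl D - ∑ v ∈ Spl S, s v) + 1)

/-- the sum of the closeness parameters -/
noncomputable def Kc (S : Finset (Pr K)) {q : ℕ} (c : ℕ × (Pl K → Fin q) × (Pl K → ℕ)) : ℝ :=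
  ∑ v ∈ Spl S, (c.2.2 v : ℝ)

theorem Kc0 (S : Finset (Pr K)) {q : ℕ} (c : ℕ × (Pl K → Fin q) × (Pl K → ℕ)) : 0 ≤ Kc S c :=
  Finset.sum_nonneg fun _ _ => Nat.cast_nonneg _

theorem cell_code {α : Fin q → K × K} {S : Finset (Pr K)} {A C : ℝ} (hA : 0 ≤ A) (h : CB α S A)
    {c : ℕ × (Pl K → Fin q) × (Pl K → ℕ)} {D : Fin q → Idl K} {F : Finset K}
    (hF : ∀ x ∈ F, Of α x ∧ Ic α S C c x ∧ ∃ P, IsP S α x P ∧ ∀ l, D l ≤ P l) :
    (F.card : ℝ) ≤ A * (Real.exp (2 * c.1 - tl D - Kc S c) + 1) := by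
  rcases F.eq_empty_or_nonempty with rfl | ⟨x₀, hx₀⟩
  · rw [card_empty]
    push_cast
    positivity
  · refine h c.1 D c.2.1 (fun v => (c.2.2 v : ℝ)) F (Nat.cast_nonneg _)
      (fun v _ => Nat.cast_nonneg _) ?_ ?_
    · obtain ⟨-, -, P, hP, hD⟩ := hF x₀ hx₀
      intro l v hv
      have h1 := hP.1 l v hv
      have h2 := hD l v
      omega
    · intro x hx
      obtain ⟨h1, h2, h3⟩ := hF x hx
      exact ⟨h1, h2.up, h2.cl, h3⟩

theorem pair_bd {α : Fin q → K × K} {β : Fin r → K × K} {S : Finset (Pr K)} {A C : ℝ}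
    (hA : 0 ≤ A) (h : CB α S A) (h' : CB β S A)
    {c : ℕ × (Pl K → Fin q) × (Pl K → ℕ)} {c' : ℕ × (Pl K → Fin r) × (Pl K → ℕ)}
    {D : Fin (q + r) → Idl K} {G : Finset (K × K)}
    (hG : ∀ p ∈ G, Of α p.1 ∧ Of β p.2 ∧ Ic α S C c p.1 ∧ Ic β S C c' p.2 ∧
      ∃ P Q, IsP S α p.1 P ∧ IsP S β p.2 Q ∧ ∀ i, D i ≤ ap P Q i) :
    (G.card : ℝ) ≤ A ^ 2 * (Real.exp (2 * c.1 + 2 * c'.1 - Kc S c - Kc S c' - tl D) +
      Real.exp (2 * c.1 - tl (hl D)) + Real.exp (2 * c'.1 - tl (hrr D)) + 1) := by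
  classical
  have h1 : ((G.image Prod.fst).card : ℝ) ≤
      A * (Real.exp (2 * c.1 - tl (hl D) - Kc S c) + 1) := by
    refine cell_code (C := C) hA h fun x hx => ?_
    obtain ⟨p, hp, rfl⟩ := mem_image.1 hx
    obtain ⟨g1, g2, g3, g4, P, Q, hP, hQ, hD⟩ := hG p hp
    refine ⟨g1, g3, P, hP, fun l => ?_⟩
    have := hD (Fin.castAdd r l)
    unfold ap at this
    rwa [Fin.append_left] at this
  have h2 : ((G.image Prod.snd).card : ℝ) ≤
      A * (Real.exp (2 * c'.1 - tl (hrr D) - Kc S c') + 1) := by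
    refine cell_code (C := C) hA h' fun x hx => ?_
    obtain ⟨p, hp, rfl⟩ := mem_image.1 hx
    obtain ⟨g1, g2, g3, g4, P, Q, hP, hQ, hD⟩ := hG p hp
    refine ⟨g2, g4, Q, hQ, fun l => ?_⟩
    have := hD (Fin.natAdd q l)
    unfold ap at this
    rwa [Fin.append_right] at this
  have h3 : G ⊆ G.image Prod.fst ×ˢ G.image Prod.snd := by
    intro p hp
    rw [mem_product]
    exact ⟨mem_image_of_mem _ hp, mem_image_of_mem _ hp⟩
  have h4 : (G.card : ℝ) ≤ ((G.image Prod.fst).card : ℝ) * ((G.image Prod.snd).card : ℝ) := by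
    have := card_le_card h3
    rw [card_product] at this
    exact_mod_cast this
  have k1 := Kc0 S c
  have k2 := Kc0 S c'
  obtain ⟨a, ha⟩ : ∃ a : ℝ, a = Real.exp (2 * c.1 - tl (hl D) - Kc S c) := ⟨_, rfl⟩
  obtain ⟨b, hb⟩ : ∃ b : ℝ, b = Real.exp (2 * c'.1 - tl (hrr D) - Kc S c') := ⟨_, rfl⟩
  have hab : a * b = Real.exp (2 * c.1 + 2 * c'.1 - Kc S c - Kc S c' - tl D) := by
    rw [ha, hb, ← Real.exp_add, tl_split D]
    congr 1; ring
  have ha' : a ≤ Real.exp (2 * c.1 - tl (hl D)) := by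
    rw [ha]; exact Real.exp_le_exp.2 (by linarith)
  have hb' : b ≤ Real.exp (2 * c'.1 - tl (hrr D)) := by
    rw [hb]; exact Real.exp_le_exp.2 (by linarith)
  rw [← ha] at h1
  rw [← hb] at h2
  have ha0 : 0 ≤ a := by rw [ha]; positivity
  have hb0 : 0 ≤ b := by rw [hb]; positivity
  calc (G.card : ℝ) ≤ (A * (a + 1)) * (A * (b + 1)) :=
        h4.trans (mul_le_mul h1 h2 (Nat.cast_nonneg _) (by positivity))
    _ = A ^ 2 * (a * b + a + b + 1) := by ring
    _ ≤ _ := by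
        apply mul_le_mul_of_nonneg_left _ (by positivity)
        rw [hab]
        linarith

theorem tp_ap {P : Fin q → Idl K} {Q : Fin r → Idl K}
    (hP : ∀ l l', l ≠ l' → Cop (P l) (P l')) (hQ : ∀ l l', l ≠ l' → Cop (Q l) (Q l')) :
    Tp (Gc q r) (ap P Q) := by
  intro v
  unfold Gc
  rw [mem_filter]
  refine ⟨mem_univ _, ?_, ?_⟩
  · rw [Finset.card_le_one]
    intro a ha b hb
    rw [mem_filter, mem_filter] at ha hb
    obtain ⟨⟨-, ha1⟩, ha2⟩ := ha
    obtain ⟨⟨-, hb1⟩, hb2⟩ := hb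
    have ea : a = Fin.castAdd r ⟨a, ha2⟩ := by ext; simp
    have eb : b = Fin.castAdd r ⟨b, hb2⟩ := by ext; simp
    rw [ea] at ha1
    rw [eb] at hb1
    unfold ap at ha1 hb1
    rw [Fin.append_left] at ha1 hb1
    by_contra hne
    have hne' : (⟨a, ha2⟩ : Fin q) ≠ ⟨b, hb2⟩ := by
      intro h
      apply hne
      have := congrArg Fin.val h
      ext
      exact this
    rcases hP _ _ hne' v with h | h
    · exact ha1 h
    · exact hb1 h
  · rw [Finset.card_le_one]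
    intro a ha b hb
    rw [mem_filter, mem_filter] at ha hb
    obtain ⟨⟨-, ha1⟩, ha2⟩ := ha
    obtain ⟨⟨-, hb1⟩, hb2⟩ := hb
    have ha3 : (a : ℕ) - q < r := by have := a.2; omega
    have hb3 : (b : ℕ) - q < r := by have := b.2; omega
    have ea : a = Fin.natAdd q ⟨(a : ℕ) - q, ha3⟩ := by
      ext; simp only [Fin.natAdd_mk]; omega
    have eb : b = Fin.natAdd q ⟨(b : ℕ) - q, hb3⟩ := by
      ext; simp only [Fin.natAdd_mk]; omega
    rw [ea] at ha1
    rw [eb] at hb1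
    unfold ap at ha1 hb1
    rw [Fin.append_right] at ha1 hb1
    by_contra hne
    have hne' : (⟨(a : ℕ) - q, ha3⟩ : Fin r) ≠ ⟨(b : ℕ) - q, hb3⟩ := by
      intro h
      apply hne
      have := congrArg Fin.val h
      simp only at this
      ext
      omega
    rcases hQ _ _ hne' v with h | h
    · exact ha1 h
    · exact hb1 h

theorem tl_ap (P : Fin q → Idl K) (Q : Fin r → Idl K) : tl (ap P Q) = tl P + tl Q := by
  rw [tl_split]
  unfold hl hrr ap
  simp only [Fin.append_left, Fin.append_right]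

theorem split3 (x y z E : ℝ) : (4 * x + y + z) * E = 4 * (x * E) + y * E + z * E := by ring

/-- the contribution of one pair of codes -/
theorem cls {α : Fin q → K × K} {β : Fin r → K × K} {S : Finset (Pr K)}
    {A C Cn Ct κ C₀ X R : ℝ} (hA : 0 ≤ A) (hC : 0 ≤ C) (hCn : 0 ≤ Cn) (hCt : 0 ≤ Ct)
    (hκ : 0 < κ) (hκ1 : κ < 1 / 3) (hC₀ : 0 ≤ C₀) (hX : 0 ≤ X) (hR : 0 ≤ R)
    (h : CB α S A) (h' : CB β S A)
    (hred : ∀ (E : Fin (q + r) → Idl K) (T : ℝ), Tp (Gc q r) E → 0 ≤ T → T ≤ gl E →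
      ∃ D : Fin (q + r) → Idl K, (∀ i, D i ≤ E i) ∧ Tp (Gc q r) D ∧ Sq D ∧ T ≤ gl D ∧
        ∀ v ∈ sp D, gl D - Real.log (Nv v) < T)
    (hrank : ∀ (T : ℝ) (F : Finset (Fin (q + r) → Idl K)), T ≤ 2 * κ * (X + 1) →
      (∀ D ∈ F, Tp (Gc q r) D ∧ Sq D ∧ T ≤ gl D) →
      ∑ D ∈ F, Real.exp (-tl D) ≤ Real.exp (-T + R))
    (hcnt : ∀ (G : ℝ) (F : Finset (Fin (q + r) → Idl K)), 0 ≤ G →
      (∀ D ∈ F, Tp (Gc q r) D ∧ Sq D ∧ gl D ≤ G) →
      (F.card : ℝ) ≤ Ct * Real.exp ((1 + (1 - 3 * κ) / (2 * κ)) * G))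
    (hn : ∀ (Y : ℝ) (s : Finset (Pr K)), 1 ≤ Y → (∀ v ∈ s, Nv v ≤ Y) →
      (s.card : ℝ) ≤ Cn * Y)
    (hα : ∀ x, Of α x → ∀ P, IsP S α x P → (∀ l l', l ≠ l' → Cop (P l) (P l')) ∧
      ∀ l v, (P l v : ℝ) * Real.log (Nv v) ≤ hr (aff x) + C)
    (hβ : ∀ x, Of β x → ∀ P, IsP S β x P → (∀ l l', l ≠ l' → Cop (P l) (P l')) ∧
      ∀ l v, (P l v : ℝ) * Real.log (Nv v) ≤ hr (aff x) + C)
    {c : ℕ × (Pl K → Fin q) × (Pl K → ℕ)} {c' : ℕ × (Pl K → Fin r) × (Pl K → ℕ)}
    (hc : (c.1 : ℝ) ≤ X + 1) (hc' : (c'.1 : ℝ) ≤ X + 1)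
    {G : Finset (K × K)} (hG : ∀ p ∈ G, Of α p.1 ∧ Of β p.2 ∧ hr (aff p.1) ≤ X ∧
      hr (aff p.2) ≤ X ∧ Ic α S C c p.1 ∧ Ic β S C c' p.2 ∧
      ∃ P Q, IsP S α p.1 P ∧ IsP S β p.2 Q ∧
        tr (ap P Q) ≤ ((q : ℝ) - κ) * hr (aff p.1) + ((r : ℝ) - κ) * hr (aff p.2) + C₀) :
    (G.card : ℝ) ≤ A ^ 2 * (4 * Real.exp (5 + 2 * C + C₀) + 3 * Ct * Real.exp (4 + C) +
      6 * 3 ^ (q + r) * Cn * Real.exp (2 + 2 * C)) * Real.exp ((4 - 2 * κ) * X + R) := by
  classical
  obtain ⟨T, hT⟩ : ∃ T : ℝ, T = κ * (c.1 + c'.1) - Kc S c - Kc S c' - (2 * κ + 2 * C + C₀) :=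
    ⟨_, rfl⟩
  have k1 := Kc0 S c
  have k2 := Kc0 S c'
  have hTle : T ≤ 2 * κ * (X + 1) := by
    rw [hT]
    nlinarith
  obtain ⟨M, hM⟩ : ∃ M : ℝ, M = 2 * (c.1 : ℝ) + 2 * c'.1 - Kc S c - Kc S c' := ⟨_, rfl⟩
  have hMT : M - T ≤ (4 - 2 * κ) * X + (5 + 2 * C + C₀) := by
    rw [hM, hT]
    nlinarith
  have hgl : ∀ p ∈ G, ∃ P Q, IsP S α p.1 P ∧ IsP S β p.2 Q ∧ Tp (Gc q r) (ap P Q) ∧
      T ≤ gl (ap P Q) := by
    intro p hp
    obtain ⟨g1, g2, -, -, g5, g6, P, Q, hP, hQ, htr⟩ := hG p hp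
    refine ⟨P, Q, hP, hQ, tp_ap (hα _ g1 P hP).1 (hβ _ g2 Q hQ).1, ?_⟩
    have e1 := g5.ge P hP
    have e2 := g6.ge Q hQ
    have e3 := g5.dn
    have e4 := g6.dn
    unfold gl
    rw [tl_ap, hT]
    unfold Kc
    nlinarith
  have hE4 : Real.exp ((4 - 2 * κ) * X) ≤ Real.exp ((4 - 2 * κ) * X + R) :=
    Real.exp_le_exp.2 (by linarith)
  have hE0 : (1 : ℝ) ≤ Real.exp ((4 - 2 * κ) * X) := Real.one_le_exp (by nlinarith)
  obtain ⟨E, hE⟩ : ∃ E : ℝ, E = Real.exp ((4 - 2 * κ) * X + R) := ⟨_, rfl⟩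
  have hEpos : 0 < E := by rw [hE]; positivity
  rw [← hE] at hE4 ⊢
  have q1 : 0 ≤ 3 * Ct * Real.exp (4 + C) * E := by positivity
  have q2 : 0 ≤ 6 * 3 ^ (q + r) * Cn * Real.exp (2 + 2 * C) * E := by positivity
  rcases le_or_gt T 0 with hT0 | hT0
  · -- no condition on the ideals
    have b1 := pair_bd (D := (0 : Fin (q + r) → Idl K)) (G := G) (C := C) (c := c) (c' := c')
      hA h h' (by
        intro p hp
        obtain ⟨g1, g2, -, -, g5, g6, P, Q, hP, hQ, -⟩ := hG p hp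
        exact ⟨g1, g2, g5, g6, P, Q, hP, hQ, fun i => bot_le⟩)
    refine b1.trans ?_
    rw [mul_assoc]
    apply mul_le_mul_of_nonneg_left _ (by positivity)
    have z1 : tl (0 : Fin (q + r) → Idl K) = 0 := by simp [tl, len]
    have z2 : tl (hl (0 : Fin (q + r) → Idl K)) = 0 := by simp [tl, len, hl]
    have z3 : tl (hrr (0 : Fin (q + r) → Idl K)) = 0 := by simp [tl, len, hrr]
    rw [z1, z2, z3, sub_zero, sub_zero, sub_zero, ← hM]
    have e1 : Real.exp M ≤ Real.exp (5 + 2 * C + C₀) * E := by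
      rw [hE, ← Real.exp_add]
      exact Real.exp_le_exp.2 (by linarith)
    have e2 : Real.exp (2 * (c.1 : ℝ)) ≤ Real.exp (5 + 2 * C + C₀) * E := by
      rw [hE, ← Real.exp_add]
      exact Real.exp_le_exp.2 (by nlinarith)
    have e3 : Real.exp (2 * (c'.1 : ℝ)) ≤ Real.exp (5 + 2 * C + C₀) * E := by
      rw [hE, ← Real.exp_add]
      exact Real.exp_le_exp.2 (by nlinarith)
    have e4 : 1 ≤ Real.exp (5 + 2 * C + C₀) * E := by
      rw [hE, ← Real.exp_add]
      exact Real.one_le_exp (by nlinarith)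
    rw [split3]
    linarith
  · have hex : ∀ p : K × K, ∃ D : Fin (q + r) → Idl K, p ∈ G → Tp (Gc q r) D ∧ Sq D ∧ T ≤ gl D ∧
        (∀ v ∈ sp D, gl D - Real.log (Nv v) < T) ∧
        ∃ P Q, IsP S α p.1 P ∧ IsP S β p.2 Q ∧ ∀ i, D i ≤ ap P Q i := by
      intro p
      by_cases hp : p ∈ G
      · obtain ⟨P, Q, hP, hQ, hTp, hg⟩ := hgl p hp
        obtain ⟨D, d1, d2, d3, d4, d5⟩ := hred (ap P Q) T hTp hT0.le hg
        exact ⟨D, fun _ => ⟨d2, d3, d4, d5, P, Q, hP, hQ, d1⟩⟩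
      · exact ⟨0, fun h => absurd h hp⟩
    choose d hd using hex
    obtain ⟨L, hL⟩ : ∃ L : Finset (Fin (q + r) → Idl K), L = G.image d := ⟨_, rfl⟩
    have hLm : ∀ D ∈ L, Tp (Gc q r) D ∧ Sq D ∧ T ≤ gl D ∧
        (∀ v ∈ sp D, gl D - Real.log (Nv v) < T) ∧
        ∀ i v, (D i v : ℝ) * Real.log (Nv v) ≤ X + C := by
      intro D hD
      rw [hL] at hD
      obtain ⟨p, hp, rfl⟩ := mem_image.1 hD
      obtain ⟨d1, d2, d3, d4, P, Q, hP, hQ, d5⟩ := hd p hp
      obtain ⟨g1, g2, g3, g4, -⟩ := hG p hp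
      refine ⟨d1, d2, d3, d4, fun i v => ?_⟩
      have h1 : (d p i v : ℝ) ≤ (ap P Q i v : ℝ) := by exact_mod_cast d5 i v
      refine (mul_le_mul_of_nonneg_right h1 (lg v).le).trans ?_
      refine Fin.addCases (fun l => ?_) (fun l => ?_) i
      · unfold ap
        rw [Fin.append_left]
        have := (hα _ g1 P hP).2 l v
        linarith
      · unfold ap
        rw [Fin.append_right]
        have := (hβ _ g2 Q hQ).2 l v
        linarith
    obtain ⟨B, hB⟩ : ∃ B : ℝ, B = 2 * (X + 1) + C := ⟨_, rfl⟩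
    -- one tuple
    have hterm : ∀ D ∈ L, ((#{p ∈ G | d p = D} : ℕ) : ℝ) ≤ A ^ 2 * (Real.exp (M - tl D) +
        (Real.exp (B - tl (hl D)) + Real.exp (B - tl (hrr D)) + 1)) := by
      intro D _
      have b1 := pair_bd (D := D) (G := {p ∈ G | d p = D}) (C := C) (c := c) (c' := c')
        hA h h' (by
          intro p hp
          rw [mem_filter] at hp
          obtain ⟨g1, g2, -, -, g5, g6, -⟩ := hG p hp.1
          obtain ⟨-, -, -, -, d5⟩ := hd p hp.1
          rw [hp.2] at d5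
          exact ⟨g1, g2, g5, g6, d5⟩)
      refine b1.trans ?_
      apply mul_le_mul_of_nonneg_left _ (by positivity)
      rw [← hM]
      have e1 : Real.exp (2 * (c.1 : ℝ) - tl (hl D)) ≤ Real.exp (B - tl (hl D)) :=
        Real.exp_le_exp.2 (by rw [hB]; linarith)
      have e2 : Real.exp (2 * (c'.1 : ℝ) - tl (hrr D)) ≤ Real.exp (B - tl (hrr D)) :=
        Real.exp_le_exp.2 (by rw [hB]; linarith)
      linarith
    have hsum : (G.card : ℝ) ≤ A ^ 2 * (∑ D ∈ L, Real.exp (M - tl D) +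
        ∑ D ∈ L, (Real.exp (B - tl (hl D)) + Real.exp (B - tl (hrr D)) + 1)) := by
      rw [card_eq_sum_card_image d G, ← hL]
      push_cast
      refine (Finset.sum_le_sum hterm).trans (le_of_eq ?_)
      rw [← Finset.mul_sum, Finset.sum_add_distrib]
    -- the main term
    have hmain : ∑ D ∈ L, Real.exp (M - tl D) ≤ Real.exp (5 + 2 * C + C₀) * E := by
      have h1 := hrank T L hTle fun D hD => ⟨(hLm D hD).1, (hLm D hD).2.1, (hLm D hD).2.2.1⟩
      calc ∑ D ∈ L, Real.exp (M - tl D) = Real.exp M * ∑ D ∈ L, Real.exp (-tl D) := by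
            rw [Finset.mul_sum]
            refine Finset.sum_congr rfl fun D _ => ?_
            rw [← Real.exp_add, sub_eq_add_neg]
        _ ≤ Real.exp M * Real.exp (-T + R) := mul_le_mul_of_nonneg_left h1 (by positivity)
        _ = Real.exp (M - T + R) := by rw [← Real.exp_add]; congr 1; ring
        _ ≤ _ := by
            rw [hE, ← Real.exp_add]
            exact Real.exp_le_exp.2 (by linarith)
    -- the other terms
    have hw1 : ∑ D ∈ L.filter (fun D => gl D ≤ 2 * T),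
        (Real.exp (B - tl (hl D)) + Real.exp (B - tl (hrr D)) + 1) ≤
        3 * Ct * Real.exp (4 + C) * E := by
      have h1 : ((L.filter (fun D => gl D ≤ 2 * T)).card : ℝ) ≤
          Ct * Real.exp ((1 + (1 - 3 * κ) / (2 * κ)) * (2 * T)) := by
        refine hcnt (2 * T) _ (by linarith) fun D hD => ?_
        rw [mem_filter] at hD
        exact ⟨(hLm D hD.1).1, (hLm D hD.1).2.1, hD.2⟩
      have h2 : (1 + (1 - 3 * κ) / (2 * κ)) * (2 * T) ≤ 2 * (1 - κ) * (X + 1) := by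
        have h3 : (1 + (1 - 3 * κ) / (2 * κ)) = (1 - κ) / (2 * κ) := by field_simp; ring
        rw [h3, div_mul_eq_mul_div, div_le_iff₀ (by positivity)]
        nlinarith
      refine (Finset.sum_le_card_nsmul _ _ (3 * Real.exp B) fun D _ => ?_).trans ?_
      · have h4 : Real.exp (B - tl (hl D)) ≤ Real.exp B :=
          Real.exp_le_exp.2 (by linarith [tl0 (hl D)])
        have h5 : Real.exp (B - tl (hrr D)) ≤ Real.exp B :=
          Real.exp_le_exp.2 (by linarith [tl0 (hrr D)])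
        have h6 : 1 ≤ Real.exp B := Real.one_le_exp (by rw [hB]; linarith)
        linarith
      · rw [nsmul_eq_mul]
        calc ((L.filter (fun D => gl D ≤ 2 * T)).card : ℝ) * (3 * Real.exp B)
            ≤ (Ct * Real.exp (2 * (1 - κ) * (X + 1))) * (3 * Real.exp B) := by
              apply mul_le_mul_of_nonneg_right _ (by positivity)
              refine h1.trans ?_
              apply mul_le_mul_of_nonneg_left _ hCt
              exact Real.exp_le_exp.2 h2
          _ = 3 * Ct * Real.exp (2 * (1 - κ) * (X + 1) + B) := by rw [Real.exp_add]; ring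
          _ ≤ 3 * Ct * (Real.exp (4 + C) * E) := by
              apply mul_le_mul_of_nonneg_left _ (by positivity)
              rw [hE, ← Real.exp_add]
              apply Real.exp_le_exp.2
              rw [hB]
              nlinarith
          _ = _ := by ring
    have hw2 : ∑ D ∈ L.filter (fun D => ¬ gl D ≤ 2 * T),
        (Real.exp (B - tl (hl D)) + Real.exp (B - tl (hrr D)) + 1) ≤
        6 * 3 ^ (q + r) * Cn * Real.exp (2 + 2 * C) * E := by
      refine (exc_sum (Λ := X + C) (by linarith) (by rw [hB]; linarith) hn _ fun D hD => ?_).trans ?_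
      · rw [mem_filter] at hD
        obtain ⟨d1, d2, d3, d4, d5⟩ := hLm D hD.1
        rcases small d2 hT0 d3 d4 with h1 | ⟨v, hv⟩
        · exact absurd h1 hD.2
        · exact ⟨d1, v, hv, fun i => d5 i v⟩
      · rw [mul_assoc (6 * 3 ^ (q + r) * Cn)]
        apply mul_le_mul_of_nonneg_left _ (by positivity)
        rw [hE, ← Real.exp_add]
        apply Real.exp_le_exp.2
        rw [hB]
        nlinarith
    have hw := Finset.sum_filter_add_sum_filter_not L (fun D => gl D ≤ 2 * T)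
      (fun D => Real.exp (B - tl (hl D)) + Real.exp (B - tl (hrr D)) + 1)
    refine hsum.trans ?_
    rw [mul_assoc (A ^ 2)]
    apply mul_le_mul_of_nonneg_left _ (by positivity)
    rw [← hw]
    have q3 : 0 ≤ Real.exp (5 + 2 * C + C₀) * E := by positivity
    rw [split3]
    linarith

/-! ### asymptotics -/

/-- the change of the argument -/
theorem tl1 {κ δ : ℝ} (hκ : 0 < κ) (hδ : 0 < δ) (hδ1 : δ < 1) :
    ∀ᶠ X : ℝ in atTop, 2 * κ * (X + 1) / Real.log (2 * κ * (X + 1)) ≤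
      (1 + δ) / (1 - δ) * (2 * κ * X / Real.log X) := by
  have e1 : ∀ᶠ x : ℝ in atTop, -Real.log (2 * κ) / δ ≤ Real.log x :=
    Real.tendsto_log_atTop.eventually_ge_atTop _
  filter_upwards [e1, eventually_ge_atTop (1 / δ), eventually_ge_atTop (1 : ℝ),
    Real.tendsto_log_atTop.eventually_ge_atTop 1] with X h1 h2 h3 h4
  have hX0 : 0 < X := by linarith
  have hl : 0 < Real.log X := by linarith
  have h5 : (1 - δ) * Real.log X ≤ Real.log (2 * κ * (X + 1)) := by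
    have h6 : Real.log (2 * κ * X) ≤ Real.log (2 * κ * (X + 1)) :=
      Real.log_le_log (by positivity) (by nlinarith)
    rw [Real.log_mul (by positivity) (by positivity)] at h6
    rw [div_le_iff₀ hδ] at h1
    linarith
  have h6 : X + 1 ≤ (1 + δ) * X := by
    rw [div_le_iff₀ hδ] at h2
    nlinarith
  have h7 : 0 < (1 - δ) * Real.log X := by
    apply mul_pos _ hl
    linarith
  calc 2 * κ * (X + 1) / Real.log (2 * κ * (X + 1))
      ≤ 2 * κ * ((1 + δ) * X) / ((1 - δ) * Real.log X) := by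
        apply div_le_div₀ (by positivity) _ h7 h5
        exact mul_le_mul_of_nonneg_left h6 (by positivity)
    _ = (1 + δ) / (1 - δ) * (2 * κ * X / Real.log X) := by
        have : (1 - δ) ≠ 0 := by linarith
        field_simp

/-- polynomial factors -/
theorem poly2 {κ η A : ℝ} (hκ : 0 < κ) (hη : 0 < η) (hA : 0 < A) (n : ℕ) :
    ∀ᶠ X : ℝ in atTop, A * (X + A) ^ n ≤
      Real.exp (η * (2 * κ * X / Real.log X) ^ ((2 : ℝ) / 3)) := by
  have hc : (0 : ℝ) < 2 * κ * (η / ((2 * n + 1 : ℕ) : ℝ)) ^ ((3 : ℝ) / 2) := by positivity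
  have e0 : (fun x : ℝ => Real.log x ^ 3) =o[atTop] (id : ℝ → ℝ) :=
    Real.isLittleO_pow_log_id_atTop (n := 3)
  have e1 := e0.bound hc
  filter_upwards [e1, eventually_ge_atTop A, eventually_ge_atTop (2 : ℝ),
    Real.tendsto_log_atTop.eventually_ge_atTop 1] with X h1 h2 h3 h4
  have hX0 : 0 < X := by linarith
  have hl0 : 0 < Real.log X := by linarith
  rw [Real.norm_of_nonneg (by positivity), id, Real.norm_of_nonneg hX0.le] at h1
  have h5 : A * (X + A) ^ n ≤ X ^ (2 * n + 1) := by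
    calc A * (X + A) ^ n ≤ X * (X ^ 2) ^ n := by
          apply mul_le_mul h2 (pow_le_pow_left₀ (by linarith) (by nlinarith) n) (by positivity)
            hX0.le
      _ = X ^ (2 * n + 1) := by rw [← pow_mul]; ring
  refine h5.trans ?_
  have h6 : X ^ (2 * n + 1) = Real.exp (((2 * n + 1 : ℕ) : ℝ) * Real.log X) := by
    rw [← Real.log_pow, Real.exp_log (by positivity)]
  rw [h6]
  apply Real.exp_le_exp.2
  have hN : (0 : ℝ) < ((2 * n + 1 : ℕ) : ℝ) := by positivity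
  obtain ⟨N, hNd⟩ : ∃ N : ℝ, N = ((2 * n + 1 : ℕ) : ℝ) := ⟨_, rfl⟩
  rw [← hNd] at h1 hN ⊢
  -- `(N log X / η)^(3/2) ≤ 2 κ X / log X`
  have h7 : N * Real.log X / η ≤ (2 * κ * X / Real.log X) ^ ((2 : ℝ) / 3) := by
    have h8 : (N * Real.log X / η) ^ ((3 : ℝ) / 2) ≤ 2 * κ * X / Real.log X := by
      rw [le_div_iff₀ hl0]
      have h9 : (N * Real.log X / η) ^ ((3 : ℝ) / 2) =
          Real.log X ^ ((3 : ℝ) / 2) / (η / N) ^ ((3 : ℝ) / 2) := by
        rw [← Real.div_rpow hl0.le (by positivity)]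
        congr 1
        field_simp
      have h10 : Real.log X ^ ((3 : ℝ) / 2) ≤ Real.log X ^ 2 := by
        rw [← Real.rpow_natCast (Real.log X) 2]
        exact Real.rpow_le_rpow_of_exponent_le h4 (by norm_num)
      have hp : 0 < (η / N) ^ ((3 : ℝ) / 2) := by positivity
      rw [h9, div_mul_eq_mul_div, div_le_iff₀ hp]
      calc Real.log X ^ ((3 : ℝ) / 2) * Real.log X ≤ Real.log X ^ 2 * Real.log X :=
            mul_le_mul_of_nonneg_right h10 hl0.le
        _ = Real.log X ^ 3 := by ring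
        _ ≤ 2 * κ * (η / N) ^ ((3 : ℝ) / 2) * X := h1
        _ = 2 * κ * X * (η / N) ^ ((3 : ℝ) / 2) := by ring
    calc N * Real.log X / η = ((N * Real.log X / η) ^ ((3 : ℝ) / 2)) ^ ((2 : ℝ) / 3) := by
          rw [← Real.rpow_mul (by positivity)]; norm_num
      _ ≤ _ := Real.rpow_le_rpow (by positivity) h8 (by norm_num)
  rw [div_le_iff₀ hη] at h7
  linarith

/-- the final comparison -/
theorem asym {κ ε A c : ℝ} (hκ : 0 < κ) (hε : 0 < ε) (hA : 0 < A) (hc : 0 < c) (N : ℕ) :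
    ∀ᶠ X : ℝ in atTop, A * (X + A) ^ N * Real.exp ((1 + ε / 4) * c *
      (2 * κ * (X + 1) / Real.log (2 * κ * (X + 1))) ^ ((2 : ℝ) / 3)) ≤
      Real.exp ((1 + ε) * c * (2 * κ * X / Real.log X) ^ ((2 : ℝ) / 3)) := by
  -- `δ` with `(1 + δ) / (1 - δ) (1 + ε / 4) ≤ 1 + ε / 2`
  obtain ⟨δ, hδ⟩ : ∃ δ : ℝ, δ = (ε / 4) / (2 + 3 * ε / 4) := ⟨_, rfl⟩
  have hδ0 : 0 < δ := by rw [hδ]; positivity
  have hδ1 : δ < 1 := by rw [hδ, div_lt_one (by positivity)]; linarith
  have hδ2 : (1 + δ) / (1 - δ) * (1 + ε / 4) ≤ 1 + ε / 2 := by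
    have h1 : 0 < 1 - δ := by linarith
    rw [div_mul_eq_mul_div, div_le_iff₀ h1]
    have h2 : δ * (2 + 3 * ε / 4) = ε / 4 := by
      rw [hδ]; field_simp
    nlinarith
  filter_upwards [tl1 hκ hδ0 hδ1, poly2 hκ (show 0 < ε / 2 * c by positivity) hA N,
    eventually_ge_atTop (1 / κ + 1), Real.tendsto_log_atTop.eventually_ge_atTop 1]
    with X h1 h2 h3 h4
  have hκ1 : 0 < 1 / κ := by positivity
  have hX0 : 0 < X := by linarith
  obtain ⟨W, hW⟩ : ∃ W : ℝ, W = 2 * κ * X / Real.log X := ⟨_, rfl⟩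
  obtain ⟨V, hV⟩ : ∃ V : ℝ, V = 2 * κ * (X + 1) / Real.log (2 * κ * (X + 1)) := ⟨_, rfl⟩
  rw [← hW] at h1 h2 ⊢
  rw [← hV] at h1 ⊢
  have hW0 : 0 ≤ W := by rw [hW]; positivity
  have hV0 : 0 ≤ V := by
    rw [hV]
    apply div_nonneg (by positivity)
    apply Real.log_nonneg
    have : 1 / κ * κ = 1 := by field_simp
    nlinarith
  have hM : 1 ≤ (1 + δ) / (1 - δ) := by
    rw [le_div_iff₀ (by linarith)]; linarith
  have h5 : V ^ ((2 : ℝ) / 3) ≤ (1 + δ) / (1 - δ) * W ^ ((2 : ℝ) / 3) := by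
    calc V ^ ((2 : ℝ) / 3) ≤ ((1 + δ) / (1 - δ) * W) ^ ((2 : ℝ) / 3) :=
          Real.rpow_le_rpow hV0 h1 (by norm_num)
      _ = ((1 + δ) / (1 - δ)) ^ ((2 : ℝ) / 3) * W ^ ((2 : ℝ) / 3) :=
          Real.mul_rpow (by linarith) hW0
      _ ≤ ((1 + δ) / (1 - δ)) ^ (1 : ℝ) * W ^ ((2 : ℝ) / 3) := by
          apply mul_le_mul_of_nonneg_right _ (by positivity)
          exact Real.rpow_le_rpow_of_exponent_le hM (by norm_num)
      _ = _ := by rw [Real.rpow_one]
  have hW1 : 0 ≤ W ^ ((2 : ℝ) / 3) := by positivity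
  calc A * (X + A) ^ N * Real.exp ((1 + ε / 4) * c * V ^ ((2 : ℝ) / 3))
      ≤ Real.exp (ε / 2 * c * W ^ ((2 : ℝ) / 3)) *
          Real.exp ((1 + ε / 4) * c * V ^ ((2 : ℝ) / 3)) :=
        mul_le_mul_of_nonneg_right h2 (by positivity)
    _ = Real.exp (ε / 2 * c * W ^ ((2 : ℝ) / 3) + (1 + ε / 4) * c * V ^ ((2 : ℝ) / 3)) := by
        rw [Real.exp_add]
    _ ≤ _ := by
        apply Real.exp_le_exp.2
        have h6 : (1 + ε / 4) * c * V ^ ((2 : ℝ) / 3) ≤
            (1 + ε / 4) * c * ((1 + δ) / (1 - δ) * W ^ ((2 : ℝ) / 3)) :=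
          mul_le_mul_of_nonneg_left h5 (by positivity)
        have h7 : (1 + δ) / (1 - δ) * (1 + ε / 4) * (c * W ^ ((2 : ℝ) / 3)) ≤
            (1 + ε / 2) * (c * W ^ ((2 : ℝ) / 3)) :=
          mul_le_mul_of_nonneg_right hδ2 (by positivity)
        linarith

theorem Ic.mono {α : Fin q → K × K} {S : Finset (Pr K)} {C C' : ℝ} (hC : C ≤ C')
    {c : ℕ × (Pl K → Fin q) × (Pl K → ℕ)} {x : K} (h : Ic α S C c x) : Ic α S C' c x :=
  ⟨h.up, h.dn, h.cl, fun P hP => by have := h.ge P hP; linarith⟩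

theorem CB.mono {α : Fin q → K × K} {S : Finset (Pr K)} {C C' : ℝ} (hC : C ≤ C')
    (h : CB α S C) : CB α S C' := by
  intro X D τ s F h1 h2 h3 h4
  refine (h X D τ s F h1 h2 h3 h4).trans ?_
  exact mul_le_mul_of_nonneg_right hC (by positivity)

/-- UPG: the upper bound for the grid divisors -/
theorem upg (K : Type) [Field K] [NumberField K] (h0 : S_CXG) (h1 : S_BASQ K) (h2 : S_CELLQ K)
    (h3 : S_REDK K) (h4 : S_RANK K) (h5 : S_CNTK K) : S_UPG K := by
  classical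
  intro q r α β S κ ε C₀ hq hr' hα hβ hSα hSβ hκ hκ1 hε hC₀
  obtain ⟨Ca, hCa, ha1, ha2⟩ := codes h1 hq hα hSα
  obtain ⟨Cb, hCb, hb1, hb2⟩ := codes h1 hr' hβ hSβ
  obtain ⟨A1, hA1, hcell1⟩ := h2 q α S hα hSα
  obtain ⟨A2, hA2, hcell2⟩ := h2 r β S hβ hSβ
  have hcx := h0 q r hq hr'
  have hred := h3 (q + r) (Gc q r) 2 (q * r) hcx
  obtain ⟨Z₀, hZ₀, hrank⟩ := h4 (q + r) (Gc q r) 2 (q * r) (ε / 4) hcx (by positivity)
  have hη : 0 < (1 - 3 * κ) / (2 * κ) := by
    apply div_pos _ (by positivity)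
    linarith
  obtain ⟨Ct, hCt, hcnt⟩ := h5 (q + r) (Gc q r) 2 (q * r) _ hcx hη
  obtain ⟨Cn, hCn, hn, -⟩ := Pool.Agent.N803.RS.cnt K
  obtain ⟨C, hC⟩ : ∃ C : ℝ, C = Ca + Cb := ⟨_, rfl⟩
  have hC0 : 0 < C := by rw [hC]; positivity
  obtain ⟨A, hA⟩ : ∃ A : ℝ, A = A1 + A2 := ⟨_, rfl⟩
  have hA0 : 0 < A := by rw [hA]; positivity
  obtain ⟨B, hB⟩ : ∃ B : ℝ, B = A ^ 2 * (4 * Real.exp (5 + 2 * C + C₀) +
    3 * Ct * Real.exp (4 + C) + 6 * 3 ^ (q + r) * Cn * Real.exp (2 + 2 * C)) := ⟨_, rfl⟩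
  have hB0 : 0 < B := by rw [hB]; positivity
  obtain ⟨s, hs⟩ : ∃ s : ℕ, s = (Spl S).card := ⟨_, rfl⟩
  obtain ⟨D, hD⟩ : ∃ D : ℝ, D = C ^ 2 * B + C := ⟨_, rfl⟩
  have hD0 : 0 < D := by rw [hD]; positivity
  have hcst : 0 < cst 2 (q * r) := by
    unfold cst
    have : 0 < q * r := Nat.mul_pos hq hr'
    have h6 : (0 : ℝ) < ((q * r : ℕ) : ℝ) := by exact_mod_cast this
    positivity
  have ev := (asym (N := 2 * (1 + s)) hκ hε hD0 hcst).and
    ((eventually_ge_atTop (Z₀ / (2 * κ))).and (eventually_ge_atTop (1 : ℝ)))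
  obtain ⟨X₀, hX₀⟩ := eventually_atTop.1 ev
  refine ⟨max X₀ 2, lt_max_of_lt_right (by norm_num), fun X F hX hF => ?_⟩
  obtain ⟨hasy, hXZ, hX1⟩ := hX₀ X ((le_max_left _ _).trans hX)
  have hX0 : 0 ≤ X := by linarith
  have hZ : Z₀ ≤ 2 * κ * (X + 1) := by
    rw [div_le_iff₀ (by positivity)] at hXZ
    nlinarith
  obtain ⟨V, hV⟩ : ∃ V : ℝ, V = 2 * κ * (X + 1) / Real.log (2 * κ * (X + 1)) := ⟨_, rfl⟩
  have hV0 : 0 ≤ V := by
    rw [hV]
    exact div_nonneg (by positivity) (Real.log_nonneg (by linarith))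
  obtain ⟨R, hR⟩ : ∃ R : ℝ, R = (1 + ε / 4) * cst 2 (q * r) * V ^ ((2 : ℝ) / 3) := ⟨_, rfl⟩
  have hR0 : 0 ≤ R := by rw [hR]; positivity
  rw [← hV, ← hR] at hasy
  obtain ⟨Ta, ta1, ta2, ta3⟩ := ha2 X hX0
  obtain ⟨Tb, tb1, tb2, tb3⟩ := hb2 X hX0
  rw [← hs] at ta1 tb1
  -- the codes of the points
  have hfa : ∀ x : K, ∃ c : Option (ℕ × (Pl K → Fin q) × (Pl K → ℕ)), Of α x →
      hr (aff x) ≤ X → ∃ c₁ ∈ Ta, c = some c₁ ∧ Ic α S Ca c₁ x := by
    intro x
    by_cases hx : Of α x ∧ hr (aff x) ≤ X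
    · obtain ⟨c, hc, hc'⟩ := ta3 x hx.1 hx.2
      exact ⟨some c, fun _ _ => ⟨c, hc, rfl, hc'⟩⟩
    · exact ⟨none, fun h h' => absurd ⟨h, h'⟩ hx⟩
  have hfb : ∀ x : K, ∃ c : Option (ℕ × (Pl K → Fin r) × (Pl K → ℕ)), Of β x →
      hr (aff x) ≤ X → ∃ c₁ ∈ Tb, c = some c₁ ∧ Ic β S Cb c₁ x := by
    intro x
    by_cases hx : Of β x ∧ hr (aff x) ≤ X
    · obtain ⟨c, hc, hc'⟩ := tb3 x hx.1 hx.2
      exact ⟨some c, fun _ _ => ⟨c, hc, rfl, hc'⟩⟩
    · exact ⟨none, fun h h' => absurd ⟨h, h'⟩ hx⟩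
  choose fa hfa using hfa
  choose fb hfb using hfb
  have hcard : (F.card : ℝ) ≤ (Ta.card : ℝ) * Tb.card *
      (B * Real.exp ((4 - 2 * κ) * X + R)) := by
    obtain ⟨U, hU⟩ : ∃ U : Finset (Option (ℕ × (Pl K → Fin q) × (Pl K → ℕ)) ×
        Option (ℕ × (Pl K → Fin r) × (Pl K → ℕ))), U = Ta.image some ×ˢ Tb.image some := ⟨_, rfl⟩
    have hUc : (U.card : ℝ) ≤ (Ta.card : ℝ) * Tb.card := by
      rw [hU, card_product]
      push_cast
      have e1 : ((Ta.image some).card : ℝ) ≤ Ta.card := by exact_mod_cast card_image_le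
      have e2 : ((Tb.image some).card : ℝ) ≤ Tb.card := by exact_mod_cast card_image_le
      exact mul_le_mul e1 e2 (Nat.cast_nonneg _) (Nat.cast_nonneg _)
    rw [card_eq_sum_card_fiberwise (f := fun p : K × K => (fa p.1, fb p.2)) (t := U) (by
      intro p hp
      have hp' : p ∈ F := hp
      obtain ⟨g1, g2, g3, g4, -⟩ := hF p hp'
      obtain ⟨c, hc, hc1, -⟩ := hfa p.1 g1 g3
      obtain ⟨c', hc', hc1', -⟩ := hfb p.2 g2 g4
      rw [hU, mem_coe, mem_product]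
      simp only [hc1, hc1']
      exact ⟨mem_image_of_mem _ hc, mem_image_of_mem _ hc'⟩)]
    push_cast
    have hfib : ∀ u ∈ U, ((#{p ∈ F | (fa p.1, fb p.2) = u} : ℕ) : ℝ) ≤
        B * Real.exp ((4 - 2 * κ) * X + R) := by
      intro u hu
      rw [hU, mem_product, mem_image, mem_image] at hu
      obtain ⟨⟨c, hc, hcu⟩, ⟨c', hc', hcu'⟩⟩ := hu
      rw [hB]
      refine cls (c := c) (c' := c') (α := α) (β := β) (S := S) hA0.le hC0.le hCn.le hCt.le hκ
        hκ1 hC₀ hX0 hR0 (CB.mono (by linarith) hcell1) (CB.mono (by linarith) hcell2) hred ?_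
        hcnt hn ?_ ?_ (ta2 c hc) (tb2 c' hc') ?_
      · intro T F' hT hF'
        have := hrank (2 * κ * (X + 1)) T F' hZ hT hF'
        rw [hR, hV]
        have e1 : ((2 : ℕ) : ℝ) / (((2 : ℕ) : ℝ) + 1) = (2 : ℝ) / 3 := by norm_num
        rw [e1] at this
        exact this
      · intro x hx P hP
        obtain ⟨e1, e2⟩ := ha1 x hx P hP
        exact ⟨e1, fun l v => (e2 l v).trans (by linarith)⟩
      · intro x hx P hP
        obtain ⟨e1, e2⟩ := hb1 x hx P hP
        exact ⟨e1, fun l v => (e2 l v).trans (by linarith)⟩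
      · intro p hp
        rw [mem_filter] at hp
        obtain ⟨hpF, hpu⟩ := hp
        obtain ⟨g1, g2, g3, g4, g5⟩ := hF p hpF
        obtain ⟨d, -, hd1, hd2⟩ := hfa p.1 g1 g3
        obtain ⟨d', -, hd1', hd2'⟩ := hfb p.2 g2 g4
        have e1 : fa p.1 = u.1 := congrArg Prod.fst hpu
        have e2 : fb p.2 = u.2 := congrArg Prod.snd hpu
        rw [hd1, ← hcu] at e1
        rw [hd1', ← hcu'] at e2
        have e3 : d = c := Option.some.inj e1
        have e4 : d' = c' := Option.some.inj e2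
        rw [e3] at hd2
        rw [e4] at hd2'
        exact ⟨g1, g2, g3, g4, hd2.mono (by linarith), hd2'.mono (by linarith), g5⟩
    refine (Finset.sum_le_sum hfib).trans ?_
    rw [Finset.sum_const, nsmul_eq_mul]
    exact mul_le_mul_of_nonneg_right hUc (by positivity)
  have hTa : (Ta.card : ℝ) ≤ C * (X + D) ^ (1 + s) := by
    refine ta1.trans ?_
    apply mul_le_mul (by linarith) _ (by positivity) hC0.le
    apply pow_le_pow_left₀ (by linarith)
    have : 0 ≤ C ^ 2 * B := by positivity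
    rw [hD]; linarith
  have hTb : (Tb.card : ℝ) ≤ C * (X + D) ^ (1 + s) := by
    refine tb1.trans ?_
    apply mul_le_mul (by linarith) _ (by positivity) hC0.le
    apply pow_le_pow_left₀ (by linarith)
    have : 0 ≤ C ^ 2 * B := by positivity
    rw [hD]; linarith
  have hTT : (Ta.card : ℝ) * Tb.card * B ≤ D * (X + D) ^ (2 * (1 + s)) := by
    calc (Ta.card : ℝ) * Tb.card * B ≤ (C * (X + D) ^ (1 + s)) * (C * (X + D) ^ (1 + s)) * B := by
          apply mul_le_mul_of_nonneg_right _ hB0.le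
          exact mul_le_mul hTa hTb (Nat.cast_nonneg _) (by positivity)
      _ = (C ^ 2 * B) * (X + D) ^ (2 * (1 + s)) := by
          rw [two_mul, pow_add]; ring
      _ ≤ _ := by
          apply mul_le_mul_of_nonneg_right _ (by positivity)
          rw [hD]; linarith
  calc (F.card : ℝ) ≤ (Ta.card : ℝ) * Tb.card * (B * Real.exp ((4 - 2 * κ) * X + R)) := hcard
    _ = ((Ta.card : ℝ) * Tb.card * B) * (Real.exp ((4 - 2 * κ) * X) * Real.exp R) := by
        rw [Real.exp_add]; ring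
    _ ≤ (D * (X + D) ^ (2 * (1 + s))) * (Real.exp ((4 - 2 * κ) * X) * Real.exp R) :=
        mul_le_mul_of_nonneg_right hTT (by positivity)
    _ = Real.exp ((4 - 2 * κ) * X) * (D * (X + D) ^ (2 * (1 + s)) * Real.exp R) := by ring
    _ ≤ Real.exp ((4 - 2 * κ) * X) * Real.exp ((1 + ε) * cst 2 (q * r) *
        (2 * κ * X / Real.log X) ^ ((2 : ℝ) / 3)) :=
        mul_le_mul_of_nonneg_left hasy (by positivity)
    _ = _ := by rw [← Real.exp_add]

end Pool.Agent.N645.KG
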