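import Mathlib
import Pool.Agent.N580.NS.Stm
import Pool.Agent.N580.NS.Stm2

/-!
# Project NS (helper580), task CERT1: characters of a central `p'`-subgroup
-/

set_option autoImplicit false

namespace Pool.Agent.N645.NS

open Module Finset Subgroup
open Pool.Agent.N580.NS (ide IDE CERT1)

variable {K : Type} [Field K] {L : Type} [Group L]

lemma ide_eq (Q : Subgroup L) [Fintype Q] (χ : Q →* Kˣ) :
    ide K Q χ = (Nat.card Q : K)⁻¹ • ∑ q : Q, (((χ q)⁻¹ : Kˣ) : K) • MonoidAlgebra.of K L (q : L) := by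
  unfold ide
  rw [finsum_eq_sum_of_fintype]

/-- shifting the sum -/
lemma shift (Q : Subgroup L) [Fintype Q] (χ : Q →* Kˣ) (r : Q) :
    MonoidAlgebra.of K L (r : L) * ∑ q : Q, (((χ q)⁻¹ : Kˣ) : K) • MonoidAlgebra.of K L (q : L) =
      ((χ r : Kˣ) : K) • ∑ q : Q, (((χ q)⁻¹ : Kˣ) : K) • MonoidAlgebra.of K L (q : L) := by
  rw [mul_sum, smul_sum]
  refine Fintype.sum_equiv (Equiv.mulLeft r) _ _ fun q => ?_
  change MonoidAlgebra.of K L (r : L) * ((((χ q)⁻¹ : Kˣ) : K) • MonoidAlgebra.of K L (q : L)) =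
    ((χ r : Kˣ) : K) • ((((χ (r * q))⁻¹ : Kˣ) : K) • MonoidAlgebra.of K L ((r * q : Q) : L))
  have h1 : χ r * (χ (r * q))⁻¹ = (χ q)⁻¹ := by
    rw [map_mul, mul_inv, mul_inv_cancel_left]
  rw [mul_smul_comm, ← map_mul, smul_smul, ← Units.val_mul, h1, Subgroup.coe_mul]

lemma of_mul_ide [Finite L] (Q : Subgroup L) (χ : Q →* Kˣ) (q : Q) :
    MonoidAlgebra.of K L (q : L) * ide K Q χ = ((χ q : Kˣ) : K) • ide K Q χ := by
  have := Fintype.ofFinite Q
  rw [ide_eq, mul_smul_comm, shift, smul_comm]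

lemma ide_mul_ide [Finite L] (Q : Subgroup L) (χ : Q →* Kˣ) (h : (Nat.card Q : K) ≠ 0) :
    ide K Q χ * ide K Q χ = ide K Q χ := by
  have := Fintype.ofFinite Q
  have h1 : ide K Q χ * ide K Q χ = ((Nat.card Q : K)⁻¹ •
      ∑ q : Q, (((χ q)⁻¹ : Kˣ) : K) • MonoidAlgebra.of K L (q : L)) * ide K Q χ := by
    rw [← ide_eq]
  have h2 : ∀ q : Q, ((((χ q)⁻¹ : Kˣ) : K) • MonoidAlgebra.of K L (q : L)) * ide K Q χ =
      ide K Q χ := by
    intro q
    rw [smul_mul_assoc, of_mul_ide, smul_smul, ← Units.val_mul, inv_mul_cancel, Units.val_one,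
      one_smul]
  rw [h1, smul_mul_assoc, sum_mul, sum_congr rfl fun q _ => h2 q, sum_const, card_univ,
    ← Nat.card_eq_fintype_card, ← Nat.cast_smul_eq_nsmul K, smul_smul, inv_mul_cancel₀ h, one_smul]

lemma ide_central [Finite L] (Q : Subgroup L) (χ : Q →* Kˣ) (hQ : Q ≤ Subgroup.center L)
    (x : MonoidAlgebra K L) : x * ide K Q χ = ide K Q χ * x := by
  have := Fintype.ofFinite Q
  rw [ide_eq, mul_smul_comm, smul_mul_assoc, mul_sum, sum_mul]
  congr 1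
  refine sum_congr rfl fun q _ => ?_
  rw [mul_smul_comm, smul_mul_assoc]
  congr 1
  induction x using MonoidAlgebra.induction_on with
  | of g =>
    rw [← map_mul, ← map_mul, Subgroup.mem_center_iff.1 (hQ q.2) g]
  | add a b ha hb => rw [add_mul, mul_add, ha, hb]
  | smul r a ha => rw [smul_mul_assoc, mul_smul_comm, ha]

theorem ide_part1 (K : Type) [Field K] (L : Type) [Group L] [Finite L] (Q : Subgroup L)
    (χ : Q →* Kˣ) (h : (Nat.card Q : K) ≠ 0) :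
    (∀ q : Q, MonoidAlgebra.of K L (q : L) * ide K Q χ = ((χ q : Kˣ) : K) • ide K Q χ) ∧
    ide K Q χ * ide K Q χ = ide K Q χ ∧
    (Q ≤ Subgroup.center L → ∀ x, x * ide K Q χ = ide K Q χ * x) :=
  ⟨of_mul_ide Q χ, ide_mul_ide Q χ h, ide_central Q χ⟩

theorem ide_part2 (K : Type) [Field K] (L E : Type) [Group L] [Finite L] [Group E] [Finite E]
    (f : L →* E) (Q : Subgroup L) (QQ : Subgroup E) (χ : Q →* Kˣ) (lam : QQ →* Kˣ)
    (h : (Nat.card Q : K) ≠ 0) (_ : (Nat.card QQ : K) ≠ 0)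
    (hf : ∀ q : Q, ∃ h : f (q : L) ∈ QQ, χ q = lam ⟨f (q : L), h⟩) :
    MonoidAlgebra.mapDomainAlgHom K K f (ide K Q χ) * ide K QQ lam = ide K QQ lam := by
  have := Fintype.ofFinite Q
  rw [ide_eq Q χ, map_smul, map_sum, smul_mul_assoc, sum_mul]
  have h2 : ∀ q : Q, MonoidAlgebra.mapDomainAlgHom K K f ((((χ q)⁻¹ : Kˣ) : K) •
      MonoidAlgebra.of K L (q : L)) * ide K QQ lam = ide K QQ lam := by
    intro q
    obtain ⟨h3, h4⟩ := hf q
    have h5 : MonoidAlgebra.mapDomainAlgHom K K f (MonoidAlgebra.of K L (q : L)) =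
        MonoidAlgebra.of K E (f (q : L)) := by
      simp [MonoidAlgebra.of_apply]
    have h6 := of_mul_ide QQ lam ⟨f (q : L), h3⟩
    rw [map_smul, h5, smul_mul_assoc, h6, ← h4, smul_smul, ← Units.val_mul, inv_mul_cancel,
      Units.val_one, one_smul]
  rw [sum_congr rfl fun q _ => h2 q, sum_const, card_univ,
    ← Nat.card_eq_fintype_card, ← Nat.cast_smul_eq_nsmul K, smul_smul, inv_mul_cancel₀ h, one_smul]

/-- orthogonality -/
lemma ide_orth [Finite L] (Q : Subgroup L) (χ ψ : Q →* Kˣ) (h : χ ≠ ψ) :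
    ide K Q χ * ide K Q ψ = 0 := by
  have := Fintype.ofFinite Q
  have h1 : ide K Q χ * ide K Q ψ = ((Nat.card Q : K)⁻¹ •
      ∑ q : Q, (((χ q)⁻¹ : Kˣ) : K) • MonoidAlgebra.of K L (q : L)) * ide K Q ψ := by
    rw [← ide_eq]
  have h2 : ∀ q : Q, ((((χ q)⁻¹ : Kˣ) : K) • MonoidAlgebra.of K L (q : L)) * ide K Q ψ =
      (((χ q)⁻¹ * ψ q : Kˣ) : K) • ide K Q ψ := by
    intro q
    rw [smul_mul_assoc, of_mul_ide, smul_smul, ← Units.val_mul]
  have h3 : ∑ q : Q, (((χ q)⁻¹ * ψ q : Kˣ) : K) = 0 := by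
    obtain ⟨r, hr⟩ : ∃ r, χ r ≠ ψ r := by
      by_contra hc
      push Not at hc
      exact h (MonoidHom.ext hc)
    have h4 : (((χ r)⁻¹ * ψ r : Kˣ) : K) * ∑ q : Q, (((χ q)⁻¹ * ψ q : Kˣ) : K) =
        ∑ q : Q, (((χ q)⁻¹ * ψ q : Kˣ) : K) := by
      rw [mul_sum]
      refine Fintype.sum_equiv (Equiv.mulLeft r) _ _ fun q => ?_
      rw [Equiv.coe_mulLeft, ← Units.val_mul]
      congr 1
      rw [map_mul, map_mul, mul_inv]
      exact mul_mul_mul_comm _ _ _ _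
    have h5 : ((((χ r)⁻¹ * ψ r : Kˣ) : K) - 1) * ∑ q : Q, (((χ q)⁻¹ * ψ q : Kˣ) : K) = 0 := by
      rw [sub_mul, h4, one_mul, sub_self]
    rcases mul_eq_zero.1 h5 with h6 | h6
    · exfalso
      apply hr
      have h7 : ((χ r)⁻¹ * ψ r : Kˣ) = 1 := by
        apply Units.ext
        rw [Units.val_one]
        exact sub_eq_zero.1 h6
      exact (inv_mul_eq_one.1 h7)
    · exact h6
  rw [h1, smul_mul_assoc, sum_mul, sum_congr rfl fun q _ => h2 q, ← sum_smul, h3, zero_smul,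
    smul_zero]

/-- completeness -/
lemma ide_sum [Finite L] (Q : Subgroup L) (hQ : Q ≤ Subgroup.center L)
    (h : (Nat.card Q : K) ≠ 0) (hK : HasEnoughRootsOfUnity K (Monoid.exponent Q)) :
    Finite (Q →* Kˣ) ∧ Nat.card (Q →* Kˣ) = Nat.card Q ∧
    ∀ [Fintype (Q →* Kˣ)], ∑ χ : Q →* Kˣ, ide K Q χ = 1 := by
  classical
  let iQ : CommGroup Q := { (inferInstance : Group Q) with
    mul_comm := fun a b => Subtype.ext (Subgroup.mem_center_iff.1 (hQ b.2) a) }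
  have := Fintype.ofFinite Q
  obtain ⟨E⟩ := CommGroup.monoidHom_mulEquiv_of_hasEnoughRootsOfUnity Q K
  have hcard : Nat.card (Q →* Kˣ) = Nat.card Q := Nat.card_congr E.toEquiv
  refine ⟨Finite.of_equiv Q E.toEquiv.symm, hcard, ?_⟩
  intro _
  simp only [ide_eq]
  rw [← smul_sum, sum_comm]
  have h1 : ∀ q : Q, ∑ χ : Q →* Kˣ, (((χ q)⁻¹ : Kˣ) : K) • MonoidAlgebra.of K L (q : L) =
      if q = 1 then (Nat.card Q : K) • (1 : MonoidAlgebra K L) else 0 := by
    intro q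
    rw [← sum_smul]
    by_cases hq : q = 1
    · rw [if_pos hq, hq]
      simp only [map_one, inv_one, Units.val_one, sum_const, card_univ, nsmul_eq_mul, mul_one,
        OneMemClass.coe_one]
      rw [← Nat.card_eq_fintype_card, hcard]
    · rw [if_neg hq]
      obtain ⟨l, hl⟩ := CommGroup.exists_apply_ne_one_of_hasEnoughRootsOfUnity Q K hq
      have h4 : (((l q)⁻¹ : Kˣ) : K) * ∑ χ : Q →* Kˣ, (((χ q)⁻¹ : Kˣ) : K) =
          ∑ χ : Q →* Kˣ, (((χ q)⁻¹ : Kˣ) : K) := by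
        rw [mul_sum]
        refine Fintype.sum_equiv (Equiv.mulLeft l) _ _ fun χ => ?_
        rw [Equiv.coe_mulLeft, ← Units.val_mul, MonoidHom.mul_apply, mul_inv]
      have h5 : ((((l q)⁻¹ : Kˣ) : K) - 1) * ∑ χ : Q →* Kˣ, (((χ q)⁻¹ : Kˣ) : K) = 0 := by
        rw [sub_mul, h4, one_mul, sub_self]
      rcases mul_eq_zero.1 h5 with h6 | h6
      · exfalso
        apply hl
        have h7 : ((l q)⁻¹ : Kˣ) = 1 := by
          apply Units.ext
          rw [Units.val_one]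
          exact sub_eq_zero.1 h6
        exact inv_eq_one.1 h7
      · rw [h6, zero_smul]
  rw [sum_congr rfl fun q _ => h1 q, sum_ite_eq' univ (1 : Q), if_pos (mem_univ _), smul_smul,
    inv_mul_cancel₀ h, one_smul]

/-- NS/CERT1, first part -/
theorem ide : IDE :=
  ⟨fun K _ L _ _ Q χ h => ide_part1 K L Q χ h,
    fun K _ L E _ _ _ _ f Q QQ χ lam h h' hf => ide_part2 K L E f Q QQ χ lam h h' hf⟩

/-- NS/CERT1, second part -/
theorem cert1 : CERT1 := by
  intro K _ E _ _ QQ hQ h hK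
  obtain ⟨hfin, hcard, hsum⟩ := ide_sum QQ hQ h hK
  have := Fintype.ofFinite (QQ →* Kˣ)
  refine ⟨Nat.card (QQ →* Kˣ), fun i => (Finite.equivFin (QQ →* Kˣ)).symm i, hcard.le, ?_, ?_⟩
  · intro i j hij
    exact ide_orth QQ _ _ fun h1 => hij ((Finite.equivFin (QQ →* Kˣ)).symm.injective h1)
  · rw [← hsum]
    exact Fintype.sum_equiv (Finite.equivFin (QQ →* Kˣ)).symm _ _ fun i => rfl

end Pool.Agent.N645.NS
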