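import Mathlib
import Pool.Agent.N604.MW.Stm3

/-!
# Project PD (helper604), task DDIO: almost every tuple is diophantine
-/

set_option autoImplicit false

namespace Pool.Agent.N645.PD

open Finset MeasureTheory Pool.Agent.N604.MW Filter
open scoped ENNReal

lemma ae_scale (P : ℝ → Prop) (h : ∀ᵐ x : ℝ, P x) (a : ℝ) (ha : a ≠ 0) : ∀ᵐ t : ℝ, P (a * t) := by
  rw [ae_iff] at h ⊢
  have e : {t | ¬ P (a * t)} = (fun t => a * t) ⁻¹' {x | ¬ P x} := rfl
  rw [e, Real.volume_preimage_mul_left ha, h, mul_zero]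

/-- the diophantine condition for a number (as in `N547/MW_Dio.lean`) -/
lemma dio_of (x : ℝ) (hx : Irrational x) (hL : ¬ LiouvilleWith 3 x) :
    ∃ κ : ℝ, 0 < κ ∧ ∀ m n : ℤ, m ≠ 0 → κ / (m : ℝ) ^ 2 ≤ |m * x - n| := by
  unfold LiouvilleWith at hL
  push Not at hL
  have h1 := hL 1
  rw [eventually_atTop] at h1
  obtain ⟨N, hN⟩ := h1
  -- the distance to the nearest integer
  have hd : ∀ n : ℕ, 1 ≤ n → 0 < |(n : ℝ) * x - round ((n : ℝ) * x)| := by
    intro n hn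
    rw [abs_pos, sub_ne_zero]
    intro h
    have h2 : Irrational ((n : ℝ) * x) := hx.natCast_mul (by omega)
    exact h2.ne_int _ h
  -- a positive lower bound for the small n
  have hsmall : ∀ M : ℕ, ∃ κ : ℝ, 0 < κ ∧ κ ≤ 1 ∧ ∀ n : ℕ, 1 ≤ n → n < M →
      κ ≤ |(n : ℝ) * x - round ((n : ℝ) * x)| := by
    intro M
    induction M with
    | zero => exact ⟨1, one_pos, le_rfl, fun n _ h => absurd h (Nat.not_lt_zero n)⟩
    | succ M ih =>
      obtain ⟨κ, hκ, hκ1, h⟩ := ih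
      rcases Nat.eq_zero_or_pos M with h0 | h0
      · exact ⟨κ, hκ, hκ1, fun n hn1 hn2 => absurd hn2 (by omega)⟩
      · refine ⟨min κ |(M : ℝ) * x - round ((M : ℝ) * x)|, lt_min hκ (hd M h0), (min_le_left _ _).trans hκ1, ?_⟩
        intro n hn1 hn2
        rcases Nat.lt_succ_iff_lt_or_eq.1 hn2 with h3 | rfl
        · exact (min_le_left _ _).trans (h n hn1 h3)
        · exact min_le_right _ _
  obtain ⟨κ, hκ, hκ1, hs⟩ := hsmall (N + 1)
  have main : ∀ n : ℕ, 1 ≤ n → ∀ m : ℤ, κ / (n : ℝ) ^ 2 ≤ |(n : ℝ) * x - m| := by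
    intro n hn m
    have hn1 : (1 : ℝ) ≤ n := by exact_mod_cast hn
    have hn0 : (0 : ℝ) < n := by linarith
    rcases Nat.lt_or_ge n (N + 1) with h2 | h2
    · calc κ / (n : ℝ) ^ 2 ≤ κ := div_le_self hκ.le (one_le_pow₀ hn1)
        _ ≤ |(n : ℝ) * x - round ((n : ℝ) * x)| := hs n hn h2
        _ ≤ |(n : ℝ) * x - m| := round_le _ _
    · have h3 := hN n (by omega) m (by
        intro h
        have : Irrational ((n : ℝ) * x) := hx.natCast_mul (by omega)
        apply this.ne_int m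
        rw [h]
        field_simp)
      have e3 : ((n : ℝ) ^ (3 : ℝ)) = (n : ℝ) ^ (3 : ℕ) := by
        rw [← Real.rpow_natCast]
        norm_num
      rw [e3] at h3
      have h4 : |(n : ℝ) * x - m| = n * |x - m / n| := by
        rw [← abs_of_pos hn0, ← abs_mul, abs_of_pos hn0]
        congr 1
        field_simp
      rw [h4]
      calc κ / (n : ℝ) ^ 2 ≤ 1 / (n : ℝ) ^ 2 := by gcongr
        _ = n * (1 / (n : ℝ) ^ 3) := by field_simp
        _ ≤ n * |x - m / n| := mul_le_mul_of_nonneg_left h3 hn0.le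
  refine ⟨κ, hκ, fun m n hm => ?_⟩
  rcases lt_or_gt_of_ne hm with h | h
  · have h5 := main m.natAbs (by omega) (-n)
    have e : ((m.natAbs : ℕ) : ℝ) = -(m : ℝ) := by
      have : ((m.natAbs : ℤ) : ℝ) = ((-m : ℤ) : ℝ) := by
        congr 1
        omega
      push_cast at this
      rw [← this]
      simp
    rw [e] at h5
    have e2 : -(m : ℝ) * x - ((-n : ℤ) : ℝ) = -(m * x - n) := by push_cast; ring
    rw [e2, abs_neg, neg_sq] at h5
    exact h5
  · have h5 := main m.natAbs (by omega) n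
    have e : ((m.natAbs : ℕ) : ℝ) = (m : ℝ) := by
      have : ((m.natAbs : ℤ) : ℝ) = ((m : ℤ) : ℝ) := by
        congr 1
        omega
      rw [← this]
      simp
    rw [e] at h5
    exact h5

/-- the form -/
noncomputable def F (A B C : ℝ) (p : ℝ × ℝ) : ℝ := A * p.1 + B * p.2 + C * (p.1 * p.2)

/-- the region -/
def D (R : ℝ) : Set (ℝ × ℝ) := {p | 1 ≤ R * |p.1| ∧ |p.1| ≤ R ∧ 1 ≤ R * |p.2| ∧ |p.2| ≤ R}

lemma meas_D (R : ℝ) : MeasurableSet (D R) := by
  have h1 : MeasurableSet {p : ℝ × ℝ | 1 ≤ R * |p.1|} := measurableSet_le (by fun_prop) (by fun_prop)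
  have h2 : MeasurableSet {p : ℝ × ℝ | |p.1| ≤ R} := measurableSet_le (by fun_prop) (by fun_prop)
  have h3 : MeasurableSet {p : ℝ × ℝ | 1 ≤ R * |p.2|} := measurableSet_le (by fun_prop) (by fun_prop)
  have h4 : MeasurableSet {p : ℝ × ℝ | |p.2| ≤ R} := measurableSet_le (by fun_prop) (by fun_prop)
  exact h1.inter (h2.inter (h3.inter h4))

/-- the set where the form is small -/
def E (A B C R ε : ℝ) : Set (ℝ × ℝ) := {p | |F A B C p| ≤ ε} ∩ D R

lemma meas_E (A B C R ε : ℝ) : MeasurableSet (E A B C R ε) := by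
  refine MeasurableSet.inter ?_ (meas_D R)
  refine measurableSet_le ?_ measurable_const
  unfold F
  fun_prop

lemma vol_le {S : Set ℝ} {r : ℝ} (h : ∀ x ∈ S, ∀ y ∈ S, |y - x| ≤ r) :
    volume S ≤ ENNReal.ofReal (2 * r) := by
  rcases S.eq_empty_or_nonempty with rfl | ⟨x, hx⟩
  · simp
  · have h1 : S ⊆ Set.Icc (x - r) (x + r) := by
      intro y hy
      have := abs_le.1 (h x hx y hy)
      constructor <;> linarith
    refine (measure_mono h1).trans ?_
    rw [Real.volume_Icc]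
    apply ENNReal.ofReal_le_ofReal
    linarith

lemma vol_E1 {A B C R ε : ℝ} (hA : A ≠ 0) (hR : 1 ≤ R) (hε : 0 ≤ ε) :
    volume (E A B C R ε) ≤ ENNReal.ofReal (8 * R ^ 3 * ε / |A|) := by
  have hA0 : 0 < |A| := abs_pos.2 hA
  have hR0 : 0 < R := by linarith
  rw [Measure.volume_eq_prod, Measure.prod_apply (meas_E A B C R ε)]
  have hsec : ∀ x : ℝ, volume (Prod.mk x ⁻¹' E A B C R ε) ≤
      (Set.Icc (-R) R).indicator (fun _ => ENNReal.ofReal (2 * (2 * ε * R ^ 2 / |A|))) x := by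
    intro x
    by_cases hx : x ∈ Set.Icc (-R) R
    · rw [Set.indicator_of_mem hx]
      apply vol_le
      rintro y1 ⟨hy1, hy1'⟩ y2 ⟨hy2, hy2'⟩
      simp only [Set.mem_ofPred_eq, F, D] at hy1 hy1' hy2 hy2'
      obtain ⟨a1, a2, a3, a4⟩ := hy1'
      obtain ⟨b1, b2, b3, b4⟩ := hy2'
      have h1 : A * x * (y2 - y1) = (A * x + B * y1 + C * (x * y1)) * y2 -
        (A * x + B * y2 + C * (x * y2)) * y1 := by ring
      have h2 : |A| * |x| * |y2 - y1| ≤ 2 * ε * R := by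
        rw [← abs_mul, ← abs_mul, h1]
        refine (abs_sub _ _).trans ?_
        rw [abs_mul, abs_mul]
        have h3 : |A * x + B * y1 + C * (x * y1)| * |y2| ≤ ε * R :=
          mul_le_mul hy1 b4 (abs_nonneg _) hε
        have h4 : |A * x + B * y2 + C * (x * y2)| * |y1| ≤ ε * R :=
          mul_le_mul hy2 a4 (abs_nonneg _) hε
        linarith
      rw [le_div_iff₀ hA0]
      have h3 : |y2 - y1| * |A| * 1 ≤ |y2 - y1| * |A| * (R * |x|) :=
        mul_le_mul_of_nonneg_left a1 (by positivity)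
      nlinarith
    · rw [Set.indicator_of_notMem hx, nonpos_iff_eq_zero]
      have : Prod.mk x ⁻¹' E A B C R ε = ∅ := by
        ext y
        simp only [Set.mem_preimage, Set.mem_empty_iff_false, iff_false]
        rintro ⟨-, h1⟩
        exact hx (abs_le.1 h1.2.1)
      rw [this, measure_empty]
  refine (lintegral_mono hsec).trans ?_
  rw [lintegral_indicator_const measurableSet_Icc, Real.volume_Icc, ← ENNReal.ofReal_mul (by positivity)]
  apply ENNReal.ofReal_le_ofReal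
  apply le_of_eq
  field_simp
  ring

lemma vol_E2 {A B C R ε : ℝ} (hB : B ≠ 0) (hR : 1 ≤ R) (hε : 0 ≤ ε) :
    volume (E A B C R ε) ≤ ENNReal.ofReal (8 * R ^ 3 * ε / |B|) := by
  have h1 := vol_E1 (B := A) (C := C) hB hR hε
  have h2 : E A B C R ε = Prod.swap ⁻¹' E B A C R ε := by
    ext ⟨x, y⟩
    simp only [E, D, F, Set.mem_inter_iff, Set.mem_ofPred_eq, Set.mem_preimage, Prod.swap_prod_mk]
    rw [show A * x + B * y + C * (x * y) = B * y + A * x + C * (y * x) by ring]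
    tauto
  rw [h2, Measure.volume_eq_prod, ((Measure.measurePreserving_swap).measure_preimage
    (meas_E B A C R ε).nullMeasurableSet)]
  exact h1

/-- the constant -/
def KK (R : ℕ) : ℕ := R ^ 2 * (1 + 2 * R)

/-- the triples of height `m` -/
noncomputable def J (R m : ℕ) : Finset (ℤ × ℤ × ℤ) :=
  (Icc (-(m : ℤ)) m ×ˢ Icc (-(m : ℤ)) m ×ˢ Icc (-((KK R * m : ℕ) : ℤ)) (KK R * m : ℕ)).filter
    (fun t => max t.1.natAbs t.2.1.natAbs = m)

lemma card_J (R m : ℕ) (hR : 1 ≤ R) (hm : 1 ≤ m) : (J R m).card ≤ 27 * KK R * m ^ 3 := by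
  unfold J
  refine (card_filter_le _ _).trans ?_
  rw [card_product, card_product, Int.card_Icc, Int.card_Icc]
  have h1 : ((m : ℤ) + 1 - -(m : ℤ)).toNat ≤ 3 * m := by omega
  have hK : 1 ≤ KK R := by
    unfold KK
    exact Nat.mul_pos (pow_pos (by omega) 2) (by omega)
  have hKm : 1 ≤ KK R * m := Nat.mul_pos (by omega) (by omega)
  have h2 : (((KK R * m : ℕ) : ℤ) + 1 - -((KK R * m : ℕ) : ℤ)).toNat ≤ 3 * (KK R * m) := by omega
  calc ((m : ℤ) + 1 - -(m : ℤ)).toNat * (((m : ℤ) + 1 - -(m : ℤ)).toNat *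
        (((KK R * m : ℕ) : ℤ) + 1 - -((KK R * m : ℕ) : ℤ)).toNat)
      ≤ (3 * m) * ((3 * m) * (3 * (KK R * m))) := Nat.mul_le_mul h1 (Nat.mul_le_mul h1 h2)
    _ = _ := by ring

/-- the exceptional sets -/
def S (R m : ℕ) : Set (ℝ × ℝ) := ⋃ t ∈ J R m, E t.1 t.2.1 t.2.2 R (1 / (m : ℝ) ^ 4)

lemma vol_S (R m : ℕ) (hR : 1 ≤ R) (hm : 1 ≤ m) :
    volume (S R m) ≤ ENNReal.ofReal (216 * KK R * (R : ℝ) ^ 3 * (1 / (m : ℝ) ^ 2)) := by
  have hR' : (1 : ℝ) ≤ R := by exact_mod_cast hR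
  have hm' : (1 : ℝ) ≤ m := by exact_mod_cast hm
  have hm0 : (0 : ℝ) < m := by linarith
  unfold S
  refine (measure_biUnion_finset_le _ _).trans ?_
  have h1 : ∀ t ∈ J R m, volume (E (t.1 : ℝ) t.2.1 t.2.2 R (1 / (m : ℝ) ^ 4)) ≤
      ENNReal.ofReal (8 * (R : ℝ) ^ 3 * (1 / (m : ℝ) ^ 4) / m) := by
    intro t ht
    have h2 : max t.1.natAbs t.2.1.natAbs = m := (mem_filter.1 ht).2
    rcases max_choice t.1.natAbs t.2.1.natAbs with h3 | h3
    · have h4 : t.1.natAbs = m := by omega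
      have h5 : |(t.1 : ℝ)| = m := by
        rw [← h4, Nat.cast_natAbs, Int.cast_abs]
      have h6 := vol_E1 (A := (t.1 : ℝ)) (B := t.2.1) (C := t.2.2) (R := R) (ε := 1 / (m : ℝ) ^ 4)
        (by rw [← abs_pos, h5]; exact hm0) hR' (by positivity)
      rwa [h5] at h6
    · have h4 : t.2.1.natAbs = m := by omega
      have h5 : |(t.2.1 : ℝ)| = m := by
        rw [← h4, Nat.cast_natAbs, Int.cast_abs]
      have h6 := vol_E2 (A := (t.1 : ℝ)) (B := t.2.1) (C := t.2.2) (R := R) (ε := 1 / (m : ℝ) ^ 4)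
        (by rw [← abs_pos, h5]; exact hm0) hR' (by positivity)
      rwa [h5] at h6
  refine (sum_le_sum h1).trans ?_
  rw [sum_const, nsmul_eq_mul]
  have h2 : ((J R m).card : ℝ≥0∞) ≤ ENNReal.ofReal (27 * KK R * (m : ℝ) ^ 3) := by
    rw [← ENNReal.ofReal_natCast]
    apply ENNReal.ofReal_le_ofReal
    exact_mod_cast card_J R m hR hm
  refine (mul_le_mul_left h2 _).trans ?_
  rw [← ENNReal.ofReal_mul (by positivity)]
  apply ENNReal.ofReal_le_ofReal
  apply le_of_eq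
  field_simp
  ring

lemma ae_S (R : ℕ) (hR : 1 ≤ R) : ∀ᵐ p : ℝ × ℝ, ∀ᶠ n in atTop, p ∉ S R (n + 1) := by
  apply ae_eventually_notMem
  have h1 : Summable (fun n : ℕ => 216 * (KK R : ℝ) * (R : ℝ) ^ 3 * (1 / ((n + 1 : ℕ) : ℝ) ^ 2)) := by
    apply Summable.mul_left
    exact (summable_nat_add_iff 1).2 (Real.summable_one_div_nat_pow.2 (by norm_num))
  have h2 : ∑' n : ℕ, volume (S R (n + 1)) ≤
      ∑' n : ℕ, ENNReal.ofReal (216 * (KK R : ℝ) * (R : ℝ) ^ 3 * (1 / ((n + 1 : ℕ) : ℝ) ^ 2)) :=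
    ENNReal.tsum_le_tsum fun n => vol_S R (n + 1) hR (by omega)
  refine ne_top_of_le_ne_top ?_ h2
  rw [← ENNReal.ofReal_tsum_of_nonneg (fun n => by positivity) h1]
  exact ENNReal.ofReal_ne_top

lemma ae_ne (R : ℕ) (hR : 1 ≤ R) : ∀ᵐ p : ℝ × ℝ, p ∈ D R → ∀ A B C : ℤ, (A ≠ 0 ∨ B ≠ 0 ∨ C ≠ 0) →
    F A B C p ≠ 0 := by
  have hR' : (1 : ℝ) ≤ R := by exact_mod_cast hR
  have h1 : ∀ A B C : ℤ, ∀ᵐ p : ℝ × ℝ, p ∈ D R → (A ≠ 0 ∨ B ≠ 0 ∨ C ≠ 0) → F A B C p ≠ 0 := by
    intro A B C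
    by_cases hAB : A = 0 ∧ B = 0
    · refine Eventually.of_forall fun p hp hne => ?_
      obtain ⟨rfl, rfl⟩ := hAB
      have hC : C ≠ 0 := by tauto
      obtain ⟨a1, a2, a3, a4⟩ := hp
      have h1 : p.1 ≠ 0 := by
        intro h
        rw [h, abs_zero, mul_zero] at a1
        linarith
      have h2 : p.2 ≠ 0 := by
        intro h
        rw [h, abs_zero, mul_zero] at a3
        linarith
      unfold F
      simp [h1, h2, hC]
    · have h2 : volume (E (A : ℝ) B C R 0) = 0 := by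
        rcases not_and_or.1 hAB with h | h
        · have := vol_E1 (A := (A : ℝ)) (B := B) (C := C) (R := R) (ε := 0) (by exact_mod_cast h) hR' le_rfl
          rw [mul_zero, zero_div, ENNReal.ofReal_zero] at this
          exact nonpos_iff_eq_zero.1 this
        · have := vol_E2 (A := (A : ℝ)) (B := B) (C := C) (R := R) (ε := 0) (by exact_mod_cast h) hR' le_rfl
          rw [mul_zero, zero_div, ENNReal.ofReal_zero] at this
          exact nonpos_iff_eq_zero.1 this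
      have h3 := measure_eq_zero_iff_ae_notMem.1 h2
      filter_upwards [h3] with p hp hpD _ h0
      exact hp ⟨by
        show |F A B C p| ≤ 0
        rw [h0, abs_zero], hpD⟩
  have h2 := ae_all_iff.2 fun A => ae_all_iff.2 fun B => ae_all_iff.2 fun C => h1 A B C
  filter_upwards [h2] with p hp hpD A B C hne
  exact hp A B C hpD hne

lemma point (R : ℕ) (hR : 1 ≤ R) (x y : ℝ) (hD : (x, y) ∈ D R)
    (hS : ∀ᶠ n in atTop, (x, y) ∉ S R (n + 1))
    (hne : ∀ A B C : ℤ, (A ≠ 0 ∨ B ≠ 0 ∨ C ≠ 0) → F A B C (x, y) ≠ 0) : Dio2 x y := by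
  classical
  have hR' : (1 : ℝ) ≤ R := by exact_mod_cast hR
  have hR0 : (0 : ℝ) < R := by linarith
  obtain ⟨N, hN⟩ := eventually_atTop.1 hS
  set T : Finset (ℤ × ℤ × ℤ) := (Icc (-(N : ℤ)) N ×ˢ Icc (-(N : ℤ)) N ×ˢ
    Icc (-((KK R * N : ℕ) : ℤ)) (KK R * N : ℕ)).filter (fun t => t.1 ≠ 0 ∨ t.2.1 ≠ 0 ∨ t.2.2 ≠ 0) with hT
  obtain ⟨κ0, hκ0, hκT⟩ : ∃ κ0 : ℝ, 0 < κ0 ∧ ∀ t ∈ T, κ0 ≤ |F t.1 t.2.1 t.2.2 (x, y)| := by
    rcases T.eq_empty_or_nonempty with h | h
    · exact ⟨1, one_pos, fun t ht => absurd ht (by rw [h]; exact notMem_empty t)⟩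
    · obtain ⟨t0, ht0, hmin⟩ := T.exists_min_image (fun t => |F t.1 t.2.1 t.2.2 (x, y)|) h
      exact ⟨_, abs_pos.2 (hne _ _ _ (mem_filter.1 ht0).2), hmin⟩
  obtain ⟨a1, a2, a3, a4⟩ := hD
  simp only at a1 a2 a3 a4
  have hxy : 1 ≤ (R : ℝ) ^ 2 * (|x| * |y|) := by
    calc (1 : ℝ) = 1 * 1 := by ring
      _ ≤ (R * |x|) * (R * |y|) := mul_le_mul a1 a3 zero_le_one (by positivity)
      _ = _ := by ring
  have hlow : ∀ A B C : ℝ, |C| * (|x| * |y|) - |A| * R - |B| * R ≤ |F A B C (x, y)| := by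
    intro A B C
    have h1 : C * (x * y) = F A B C (x, y) - A * x - B * y := by
      unfold F
      ring
    have h2 : |C| * (|x| * |y|) ≤ |F A B C (x, y)| + |A| * |x| + |B| * |y| := by
      rw [← abs_mul x y, ← abs_mul, h1, ← abs_mul, ← abs_mul]
      exact (abs_sub _ _).trans (add_le_add_left (abs_sub _ _) _)
    have h3 : |A| * |x| ≤ |A| * R := mul_le_mul_of_nonneg_left a2 (abs_nonneg _)
    have h4 : |B| * |y| ≤ |B| * R := mul_le_mul_of_nonneg_left a4 (abs_nonneg _)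
    linarith
  set κ := min (min 1 κ0) (1 / (R : ℝ) ^ 2) with hκ
  have hκpos : 0 < κ := lt_min (lt_min one_pos hκ0) (by positivity)
  have hκ1 : κ ≤ 1 := (min_le_left _ _).trans (min_le_left _ _)
  have hκ2 : κ ≤ κ0 := (min_le_left _ _).trans (min_le_right _ _)
  have hκ3 : κ ≤ 1 / (R : ℝ) ^ 2 := min_le_right _ _
  refine ⟨κ, hκpos, fun A B C H hne' hA hB hC => ?_⟩
  have hH : 1 ≤ H := by
    have key : ∀ Z : ℤ, Z ≠ 0 → |(Z : ℝ)| ≤ H → 1 ≤ H := by
      intro Z hZ hZH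
      have : (1 : ℝ) ≤ |(Z : ℝ)| := by
        have : (1 : ℤ) ≤ |Z| := Int.one_le_abs hZ
        exact_mod_cast this
      linarith
    rcases hne' with h | h | h
    · exact key A h hA
    · exact key B h hB
    · exact key C h hC
  have hH4 : 1 ≤ H ^ 4 := one_le_pow₀ hH
  have hκH : κ / H ^ 4 ≤ κ := div_le_self hκpos.le hH4
  have hF : A * x + B * y + C * (x * y) = F A B C (x, y) := rfl
  rw [hF]
  set m : ℕ := max A.natAbs B.natAbs with hm
  have hAm : |(A : ℝ)| ≤ m := by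
    have : ((A.natAbs : ℕ) : ℝ) ≤ m := by exact_mod_cast le_max_left _ _
    rwa [Nat.cast_natAbs, Int.cast_abs] at this
  have hBm : |(B : ℝ)| ≤ m := by
    have : ((B.natAbs : ℕ) : ℝ) ≤ m := by exact_mod_cast le_max_right _ _
    rwa [Nat.cast_natAbs, Int.cast_abs] at this
  have hmH : (m : ℝ) ≤ H := by
    rcases max_choice A.natAbs B.natAbs with h3 | h3
    · have h4 : A.natAbs = m := by omega
      rw [← h4, Nat.cast_natAbs, Int.cast_abs]
      exact hA
    · have h4 : B.natAbs = m := by omega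
      rw [← h4, Nat.cast_natAbs, Int.cast_abs]
      exact hB
  rcases Nat.eq_zero_or_pos m with hm0 | hm0
  · have hA0 : A = 0 := by omega
    have hB0 : B = 0 := by omega
    have hC0 : C ≠ 0 := by tauto
    have h1 := hlow A B C
    have h2 : (1 : ℝ) ≤ |(C : ℝ)| := by
      have : (1 : ℤ) ≤ |C| := Int.one_le_abs hC0
      exact_mod_cast this
    rw [hA0, hB0] at h1 ⊢
    simp only [Int.cast_zero, abs_zero, zero_mul, sub_zero] at h1 ⊢
    refine hκH.trans (hκ3.trans (le_trans ?_ h1))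
    rw [div_le_iff₀ (by positivity)]
    calc (1 : ℝ) ≤ (R : ℝ) ^ 2 * (|x| * |y|) := hxy
      _ ≤ |(C : ℝ)| * ((R : ℝ) ^ 2 * (|x| * |y|)) := le_mul_of_one_le_left (by positivity) h2
      _ = _ := by ring
  · have hm1 : (1 : ℝ) ≤ m := by exact_mod_cast hm0
    rcases le_or_gt C.natAbs (KK R * m) with hC1 | hC1
    · rcases le_or_gt m N with hmN | hmN
      · -- small triple
        have ht : (A, B, C) ∈ T := by
          rw [hT, mem_filter, mem_product, mem_product, mem_Icc, mem_Icc, mem_Icc]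
          have h3 : KK R * m ≤ KK R * N := Nat.mul_le_mul_left _ hmN
          refine ⟨⟨⟨?_, ?_⟩, ⟨?_, ?_⟩, ?_, ?_⟩, hne'⟩ <;> simp only <;> omega
        exact hκH.trans (hκ2.trans (hκT _ ht))
      · -- large triple
        clear_value m
        obtain ⟨n, rfl⟩ : ∃ n, m = n + 1 := ⟨m - 1, by omega⟩
        have h1 := hN n (by omega)
        have ht : (A, B, C) ∈ J R (n + 1) := by
          unfold J
          rw [mem_filter, mem_product, mem_product, mem_Icc, mem_Icc, mem_Icc]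
          refine ⟨⟨⟨?_, ?_⟩, ⟨?_, ?_⟩, ?_, ?_⟩, ?_⟩ <;> simp only <;> omega
        have h2 : ¬ |F A B C (x, y)| ≤ 1 / ((n + 1 : ℕ) : ℝ) ^ 4 := by
          intro h
          apply h1
          unfold S
          refine Set.mem_iUnion₂.2 ⟨(A, B, C), ht, h, a1, a2, a3, a4⟩
        push Not at h2
        refine le_trans ?_ h2.le
        apply div_le_div₀ zero_le_one hκ1 (by positivity)
        exact pow_le_pow_left₀ (by positivity) hmH 4
    · -- large C
      have h1 := hlow A B C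
      have h2 : ((KK R * m : ℕ) : ℝ) ≤ |(C : ℝ)| := by
        have : ((KK R * m : ℕ) : ℝ) ≤ ((C.natAbs : ℕ) : ℝ) := by exact_mod_cast hC1.le
        rwa [Nat.cast_natAbs, Int.cast_abs] at this
      have h3 : (1 + 2 * (R : ℝ)) * m ≤ |(C : ℝ)| * (|x| * |y|) := by
        have h4 : (1 + 2 * (R : ℝ)) * m * 1 ≤ (1 + 2 * (R : ℝ)) * m * ((R : ℝ) ^ 2 * (|x| * |y|)) :=
          mul_le_mul_of_nonneg_left hxy (by positivity)
        calc (1 + 2 * (R : ℝ)) * m = (1 + 2 * (R : ℝ)) * m * 1 := by ring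
          _ ≤ (1 + 2 * (R : ℝ)) * m * ((R : ℝ) ^ 2 * (|x| * |y|)) := h4
          _ = ((KK R * m : ℕ) : ℝ) * (|x| * |y|) := by unfold KK; push_cast; ring
          _ ≤ _ := mul_le_mul_of_nonneg_right h2 (by positivity)
      have h5 : |(A : ℝ)| * R ≤ m * R := mul_le_mul_of_nonneg_right hAm hR0.le
      have h6 : |(B : ℝ)| * R ≤ m * R := mul_le_mul_of_nonneg_right hBm hR0.le
      have h7 : (1 : ℝ) ≤ |F A B C (x, y)| := by nlinarith
      exact hκH.trans (hκ1.trans h7)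

theorem ae_dio2 : ∀ᵐ p : ℝ × ℝ, Dio2 p.1 p.2 := by
  have h0 : ∀ᵐ x : ℝ, x ≠ 0 := by
    rw [ae_iff]
    simp
  have h1 : ∀ᵐ p : ℝ × ℝ, p.1 ≠ 0 := by
    rw [Measure.volume_eq_prod]
    exact Measure.quasiMeasurePreserving_fst.ae h0
  have h2 : ∀ᵐ p : ℝ × ℝ, p.2 ≠ 0 := by
    rw [Measure.volume_eq_prod]
    exact Measure.quasiMeasurePreserving_snd.ae h0
  have h3 : ∀ᵐ p : ℝ × ℝ, ∀ R : ℕ, 1 ≤ R → (∀ᶠ n in atTop, p ∉ S R (n + 1)) ∧
      (p ∈ D R → ∀ A B C : ℤ, (A ≠ 0 ∨ B ≠ 0 ∨ C ≠ 0) → F A B C p ≠ 0) := by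
    rw [ae_all_iff]
    intro R
    by_cases hR : 1 ≤ R
    · filter_upwards [ae_S R hR, ae_ne R hR] with p a1 a2 _
      exact ⟨a1, a2⟩
    · exact Eventually.of_forall fun p h => absurd h hR
  filter_upwards [h1, h2, h3] with p hp1 hp2 hp3
  have b1 : 0 < |p.1| := abs_pos.2 hp1
  have b2 : 0 < |p.2| := abs_pos.2 hp2
  set R : ℕ := ⌈|p.1| + 1 / |p.1| + |p.2| + 1 / |p.2| + 1⌉₊ with hR
  have hR1 : |p.1| + 1 / |p.1| + |p.2| + 1 / |p.2| + 1 ≤ R := Nat.le_ceil _
  have c1 : 0 < 1 / |p.1| := by positivity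
  have c2 : 0 < 1 / |p.2| := by positivity
  have hR2 : 1 ≤ R := by
    have : (1 : ℝ) ≤ R := by linarith
    exact_mod_cast this
  have hD : p ∈ D R := by
    refine ⟨?_, by linarith, ?_, by linarith⟩
    · have : 1 / |p.1| ≤ R := by linarith
      rwa [div_le_iff₀ b1] at this
    · have : 1 / |p.2| ≤ R := by linarith
      rwa [div_le_iff₀ b2] at this
  obtain ⟨d1, d2⟩ := hp3 R hR2
  exact point R hR2 p.1 p.2 hD d1 (d2 hD)

/-- two coordinates -/
lemma qmp (s : ℕ) (i j : Fin s) (hij : i ≠ j) :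
    Measure.QuasiMeasurePreserving (fun α : Fin s → ℝ => (α i, α j)) volume volume := by
  cases s with
  | zero => exact i.elim0
  | succ n =>
    obtain ⟨j', rfl⟩ := Fin.exists_succAbove_eq (Ne.symm hij)
    have h1 := (volume_preserving_piFinSuccAbove (fun _ : Fin (n + 1) => ℝ) i).quasiMeasurePreserving
    have h2 : Measure.QuasiMeasurePreserving (Prod.map (id : ℝ → ℝ) (Function.eval j' : (Fin n → ℝ) → ℝ))
        (volume.prod volume) (volume.prod volume) :=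
      MeasureTheory.QuasiMeasurePreserving.prodMap (Measure.QuasiMeasurePreserving.id _)
        (Measure.quasiMeasurePreserving_eval (μ := fun _ : Fin n => (volume : Measure ℝ)) j')
    exact h2.comp h1

/-- DDIO -/
theorem ddio : S_DDIO := by
  intro s
  have h1 : ∀ i : Fin s, ∀ᵐ α : Fin s → ℝ, Dio1 (α i) := by
    intro i
    have h2 : ∀ᵐ x : ℝ, Dio1 x := by
      have h2 : ∀ᵐ x : ℝ, Irrational x := (Set.countable_range (Rat.cast : ℚ → ℝ)).ae_notMem volume
      filter_upwards [h2, ae_not_liouvilleWith] with x hx hx2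
      exact dio_of x hx (hx2 3 (by norm_num))
    exact (Measure.quasiMeasurePreserving_eval (μ := fun _ : Fin s => (volume : Measure ℝ)) i).ae h2
  have h2 : ∀ i j : Fin s, i ≠ j → ∀ᵐ α : Fin s → ℝ, Dio2 (α i) (α j) := by
    intro i j hij
    exact (qmp s i j hij).ae ae_dio2
  have h3 : ∀ᵐ α : Fin s → ℝ, ∀ i, Dio1 (α i) := ae_all_iff.2 h1
  have h4 : ∀ᵐ α : Fin s → ℝ, ∀ i j, i ≠ j → Dio2 (α i) (α j) := by
    rw [ae_all_iff]
    intro i
    rw [ae_all_iff]
    intro j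
    by_cases hij : i = j
    · exact Eventually.of_forall fun α h => absurd hij h
    · filter_upwards [h2 i j hij] with α hα _
      exact hα
  filter_upwards [h3, h4] with α a1 a2
  exact ⟨a1, a2⟩

end Pool.Agent.N645.PD
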