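import Mathlib
import Pool.Agent.N604.MW.Stm12
import Pool.Agent.N667.AD_Amom
import Pool.Agent.N787.KV_Phi
import Pool.Agent.N700.KV_Char

/-!
# AK/KMOM: moments of the contribution of the large frequencies, several coefficients (helper645, after
AD/AMOM of helper667, KV/MOM of helper490 and KV/PHI of helper787)
-/

set_option autoImplicit false

namespace Pool.Agent.N645.AKKmom

open MeasureTheory Finset Pool.Agent.N604.MW
open Pool.Agent.N667.ADAmom (Blk_sub sq_continuous sq_neg sq_nonneg' meas_R)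
open Pool.Agent.N787.KVPhi (e_add e_sum)
open scoped ENNReal

/-- the elements of a signed block -/
theorem mem_ZB {a : ℕ} {σ : Bool} {x : ℤ} (hx : x ∈ ZB a σ) :
    x.natAbs ∈ Blk a ∧ x = (if σ then 1 else -1) * (x.natAbs : ℤ) := by
  unfold ZB at hx
  cases σ
  · simp only [Bool.false_eq_true, if_false] at hx ⊢
    split_ifs at hx with h0
    · simp at hx
    · obtain ⟨y, hy, rfl⟩ := Finset.mem_image.1 hx
      refine ⟨by simpa using hy, by simp⟩
  · simp only [if_true] at hx ⊢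
    obtain ⟨y, hy, rfl⟩ := Finset.mem_image.1 hx
    refine ⟨by simpa using hy, by simp⟩

/-- the Gaussian factor -/
noncomputable def gz {n : ℕ} (d : ℕ) (b : Fin n → ℝ) (z : Fin n → ℤ) : ℝ :=
  Real.exp (-(2 * Real.pi ^ 2 * ∑ l : Fin d, (∑ j, b j * (z j : ℝ) ^ ((l : ℕ) + 1)) ^ 2))

theorem gz_eq {n d a : ℕ} {σ : Bool} (b : Fin n → ℝ) (z : Fin n → ℤ) (hz : ∀ j, z j ∈ ZB a σ) :
    gz d b z =
      Real.exp (-(2 * Real.pi ^ 2 * ∑ l : Fin d, (∑ j, b j * (((z j).natAbs : ℕ) : ℝ) ^ ((l : ℕ) + 1)) ^ 2)) := by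
  unfold gz
  congr 3
  refine Finset.sum_congr rfl fun l _ => ?_
  have h1 : ∀ j, (z j : ℝ) = (if σ then 1 else -1) * (((z j).natAbs : ℕ) : ℝ) := by
    intro j
    have h2 := (mem_ZB (hz j)).2
    have h3 : ((z j : ℤ) : ℝ) = (((if σ then 1 else -1) * ((z j).natAbs : ℤ) : ℤ) : ℝ) := congrArg _ h2
    rw [h3]
    cases σ
    · push_cast
      simp
    · push_cast
      simp
  have h4 : ∑ j, b j * (z j : ℝ) ^ ((l : ℕ) + 1) =
      (if σ then 1 else -1) ^ ((l : ℕ) + 1) * ∑ j, b j * (((z j).natAbs : ℕ) : ℝ) ^ ((l : ℕ) + 1) := by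
    rw [Finset.mul_sum]
    refine Finset.sum_congr rfl fun j _ => ?_
    conv_lhs => rw [h1 j]
    rw [mul_pow]
    ring
  rw [h4, mul_pow, ← pow_mul, mul_comm ((l : ℕ) + 1) 2, pow_mul]
  have h5 : ((if σ then 1 else -1 : ℝ)) ^ 2 = 1 := by
    split_ifs <;> norm_num
  rw [h5, one_pow, one_mul]

theorem sum_gz_le (n d a : ℕ) (σ : Bool) (b : Fin n → ℝ) :
    ∑ z ∈ Fintype.piFinset (fun _ : Fin n => ZB a σ), gz d b z ≤ GS n d (XB a) b := by
  classical
  have hinj : Set.InjOn (fun (z : Fin n → ℤ) (j : Fin n) => (z j).natAbs)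
      (Fintype.piFinset (fun _ : Fin n => ZB a σ) : Finset (Fin n → ℤ)) := by
    intro x hx y hy hxy
    have hx' := Fintype.mem_piFinset.1 (Finset.mem_coe.1 hx)
    have hy' := Fintype.mem_piFinset.1 (Finset.mem_coe.1 hy)
    funext j
    have h1 : (x j).natAbs = (y j).natAbs := congrFun hxy j
    rw [(mem_ZB (hx' j)).2, (mem_ZB (hy' j)).2, h1]
  have h1 : ∑ z ∈ Fintype.piFinset (fun _ : Fin n => ZB a σ), gz d b z =
      ∑ y ∈ (Fintype.piFinset (fun _ : Fin n => ZB a σ)).image (fun (z : Fin n → ℤ) (j : Fin n) => (z j).natAbs),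
        Real.exp (-(2 * Real.pi ^ 2 * ∑ l : Fin d, (∑ j, b j * (y j : ℝ) ^ ((l : ℕ) + 1)) ^ 2)) := by
    rw [Finset.sum_image hinj]
    refine Finset.sum_congr rfl fun z hz => ?_
    exact gz_eq b z (Fintype.mem_piFinset.1 hz)
  rw [h1]
  unfold GS
  refine Finset.sum_le_sum_of_subset_of_nonneg ?_ fun z _ _ => (Real.exp_pos _).le
  intro y hy
  obtain ⟨z, hz, rfl⟩ := Finset.mem_image.1 hy
  rw [Fintype.mem_piFinset] at hz ⊢
  intro j
  exact Blk_sub a (mem_ZB (hz j)).1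

theorem SG_neg (A : Finset ℤ) (f : ℤ → ℝ) (t : ℝ) : SG A f (-t) = (starRingEnd ℂ) (SG A f t) := by
  unfold SG
  rw [map_sum]
  refine Finset.sum_congr rfl fun x _ => ?_
  rw [← e_neg, neg_mul]

theorem SG_norm (A : Finset ℤ) (f : ℤ → ℝ) (t : ℝ) : ‖SG A f t‖ ≤ A.card := by
  unfold SG
  refine (norm_sum_le _ _).trans ?_
  refine (Finset.sum_le_card_nsmul _ _ 1 fun x _ => (e_norm _).le).trans ?_
  rw [nsmul_eq_mul, mul_one]

theorem SG_cont (d : ℕ) (A : Finset ℤ) (c : ℝ) :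
    Continuous fun p : (Fin d → ℝ) × ℝ => SG A (pk d c p.1) p.2 := by
  unfold SG pk
  refine continuous_finsetSum _ fun x _ => ?_
  refine e_continuous.comp ?_
  fun_prop

/-- the expectation of the product of the exponential sums -/
theorem int_prod_SG (n d a : ℕ) (σ : Bool) (c : ℝ) (b : Fin n → ℝ) :
    ‖∫ θ, ∏ j, SG (ZB a σ) (pk d c θ) (b j) ∂(GM d)‖ ≤ GS n d (XB a) b := by
  have h1 : ∀ θ : Fin d → ℝ, ∏ j, SG (ZB a σ) (pk d c θ) (b j) =
      ∑ z ∈ Fintype.piFinset (fun _ : Fin n => ZB a σ),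
        e (∑ j, b j * (c * |(z j : ℝ)| ^ (d + 1))) *
          e (∑ l, θ l * ∑ j, b j * (z j : ℝ) ^ ((l : ℕ) + 1)) := by
    intro θ
    unfold SG
    rw [Finset.prod_univ_sum]
    refine Finset.sum_congr rfl fun z _ => ?_
    rw [← e_sum, ← e_add]
    congr 1
    simp only [pk, mul_add, Finset.sum_add_distrib, Finset.mul_sum]
    congr 1
    rw [Finset.sum_comm]
    refine Finset.sum_congr rfl fun l _ => Finset.sum_congr rfl fun j _ => ?_
    ring
  simp_rw [h1]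
  have hint : ∀ z : Fin n → ℤ, Integrable (fun θ : Fin d → ℝ =>
      e (∑ l, θ l * ∑ j, b j * (z j : ℝ) ^ ((l : ℕ) + 1))) (GM d) := by
    intro z
    refine Integrable.of_bound (C := 1) ?_ (ae_of_all _ fun x => (e_norm _).le)
    refine (e_continuous.comp ?_).aestronglyMeasurable
    fun_prop
  rw [integral_finsetSum _ fun z _ => (hint z).const_mul _]
  refine (norm_sum_le _ _).trans ?_
  refine le_trans (le_of_eq ?_) (sum_gz_le n d a σ b)
  refine Finset.sum_congr rfl fun z _ => ?_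
  rw [integral_const_mul, Pool.Agent.N700.KVChar.charT, norm_mul, e_norm, one_mul, Complex.norm_real,
    Real.norm_of_nonneg (Real.exp_pos _).le]
  rfl

section

variable (s d : ℕ) (c : Fin s → ℝ) (a : Fin s → ℕ) (σ : Fin s → Bool) (N : ℤ)

/-- the function under the integral -/
noncomputable def ff (θ : Fin s → Fin d → ℝ) (t : ℝ) : ℂ :=
  (N604.MW.sq t : ℂ) * (∏ i, SG (ZB (a i) (σ i)) (pk d (c i) (θ i)) t) * e (-(t * N))

theorem ff_continuous : Continuous fun p : (Fin s → Fin d → ℝ) × ℝ => ff s d c a σ N p.1 p.2 := by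
  unfold ff
  refine ((Complex.continuous_ofReal.comp (sq_continuous.comp continuous_snd)).mul
    (continuous_finsetProd _ fun i _ => ?_)).mul (e_continuous.comp ?_)
  · exact (SG_cont d (ZB (a i) (σ i)) (c i)).comp
      (f := fun p : (Fin s → Fin d → ℝ) × ℝ => (p.1 i, p.2)) (by fun_prop)
  · fun_prop

/-- the bound for the product -/
noncomputable def CC : ℝ := ∏ i, (((ZB (a i) (σ i)).card : ℕ) : ℝ)

theorem ff_norm_le (θ : Fin s → Fin d → ℝ) (t : ℝ) : ‖ff s d c a σ N θ t‖ ≤ CC s a σ * N604.MW.sq t := by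
  unfold ff CC
  rw [norm_mul, e_norm, mul_one, norm_mul, norm_prod, Complex.norm_real, Real.norm_eq_abs,
    abs_of_nonneg (sq_nonneg' t), mul_comm]
  exact mul_le_mul_of_nonneg_right
    (Finset.prod_le_prod (fun i _ => norm_nonneg _) fun i _ => SG_norm _ _ _) (sq_nonneg' t)

theorem ff_neg (θ : Fin s → Fin d → ℝ) (t : ℝ) :
    ff s d c a σ N θ (-t) = (starRingEnd ℂ) (ff s d c a σ N θ t) := by
  unfold ff
  rw [map_mul, map_mul, map_prod, ← e_neg, sq_neg, Complex.conj_ofReal]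
  congr 1
  · congr 1
    exact Finset.prod_congr rfl fun i _ => by rw [← SG_neg]
  · congr 1
    ring

/-- the contribution of the large frequencies -/
noncomputable def EK (η : ℝ) (θ : Fin s → Fin d → ℝ) : ℂ :=
  EG (fun i => ZB (a i) (σ i)) (fun i => pk d (c i) (θ i)) η N

theorem EK_eq (η : ℝ) (θ : Fin s → Fin d → ℝ) :
    EK s d c a σ N η θ = ∫ t in {t : ℝ | η ≤ |t|}, ff s d c a σ N θ t := rfl

theorem EK_conj (η : ℝ) (θ : Fin s → Fin d → ℝ) :
    (starRingEnd ℂ) (EK s d c a σ N η θ) = EK s d c a σ N η θ := by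
  rw [EK_eq, ← integral_conj, ← integral_indicator (meas_R _),
    ← integral_indicator (meas_R _),
    ← integral_neg_eq_self (fun t => ({t : ℝ | η ≤ |t|}).indicator (fun t => ff s d c a σ N θ t) t)]
  refine integral_congr_ae (ae_of_all _ fun t => ?_)
  have h1 : -t ∈ {t : ℝ | η ≤ |t|} ↔ t ∈ {t : ℝ | η ≤ |t|} := by simp
  by_cases hb : t ∈ {t : ℝ | η ≤ |t|}
  · simp only [Set.indicator_of_mem hb, Set.indicator_of_mem (h1.2 hb)]
    exact (ff_neg s d c a σ N θ t).symm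
  · simp only [Set.indicator_of_notMem hb, Set.indicator_of_notMem (fun h => hb (h1.1 h))]

theorem EK_pow (η : ℝ) (θ : Fin s → Fin d → ℝ) (n : ℕ) :
    EK s d c a σ N η θ ^ n = ∫ b : Fin n → ℝ, ∏ j, ff s d c a σ N θ (b j)
      ∂(Measure.pi fun _ : Fin n => volume.restrict {t : ℝ | η ≤ |t|}) := by
  rw [integral_fintype_prod_eq_pow (fun t => ff s d c a σ N θ t), Fintype.card_fin, EK_eq]

theorem EK_norm_pow (η : ℝ) (θ : Fin s → Fin d → ℝ) (m : ℕ) :
    ((‖EK s d c a σ N η θ‖ ^ (2 * m) : ℝ) : ℂ) = EK s d c a σ N η θ ^ (2 * m) := by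
  obtain ⟨z, hz⟩ : ∃ z, z = EK s d c a σ N η θ := ⟨_, rfl⟩
  have h1 : (starRingEnd ℂ) z = z := by
    rw [hz]
    exact EK_conj s d c a σ N η θ
  rw [← hz]
  have h2 : ((z.re : ℝ) : ℂ) = z := Complex.conj_eq_iff_re.1 h1
  rw [← h2, Complex.norm_real, Real.norm_eq_abs, pow_mul, sq_abs, ← pow_mul]
  push_cast
  rfl

/-- the expectation of the product -/
theorem inner_eq (n : ℕ) (b : Fin n → ℝ) :
    ∫ θ, ∏ j, ff s d c a σ N θ (b j) ∂(GMs s d) =
      (∏ j, ((N604.MW.sq (b j) : ℂ) * e (-(b j * N)))) *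
        ∏ i : Fin s, ∫ θ, ∏ j, SG (ZB (a i) (σ i)) (pk d (c i) θ) (b j) ∂(GM d) := by
  have h1 : ∀ θ : Fin s → Fin d → ℝ, ∏ j, ff s d c a σ N θ (b j) =
      (∏ j, ((N604.MW.sq (b j) : ℂ) * e (-(b j * N)))) *
        ∏ i, ∏ j, SG (ZB (a i) (σ i)) (pk d (c i) (θ i)) (b j) := by
    intro θ
    unfold ff
    rw [Finset.prod_comm, ← Finset.prod_mul_distrib]
    exact Finset.prod_congr rfl fun j _ => by ring
  simp_rw [h1]
  rw [integral_const_mul]
  congr 1
  exact integral_fintype_prod_eq_prod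
    (fun (i : Fin s) (θ : Fin d → ℝ) => ∏ j, SG (ZB (a i) (σ i)) (pk d (c i) θ) (b j))

theorem norm_inner (n : ℕ) (b : Fin n → ℝ) :
    ‖∫ θ, ∏ j, ff s d c a σ N θ (b j) ∂(GMs s d)‖ ≤
      (∏ j, N604.MW.sq (b j)) * ∏ i, GS n d (XB (a i)) b := by
  rw [inner_eq, norm_mul, norm_prod, norm_prod]
  have h1 : ∏ j, ‖(N604.MW.sq (b j) : ℂ) * e (-(b j * N))‖ = ∏ j, N604.MW.sq (b j) :=
    Finset.prod_congr rfl fun j _ => by
      rw [norm_mul, e_norm, mul_one, Complex.norm_real, Real.norm_eq_abs, abs_of_nonneg (sq_nonneg' _)]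
  rw [h1]
  exact mul_le_mul_of_nonneg_left
    (Finset.prod_le_prod (fun i _ => norm_nonneg _) fun i _ => int_prod_SG n d (a i) (σ i) (c i) b)
    (Finset.prod_nonneg fun j _ => sq_nonneg' _)

end

theorem kmom (h : S_ATRI) : S_KMOM := by
  intro s m hs hm d c a σ η N hη
  obtain ⟨hsi, hsq, -⟩ := h
  obtain ⟨n, hn⟩ : ∃ n, n = 2 * m := ⟨_, rfl⟩
  show ∫⁻ θ, ENNReal.ofReal (‖EK s d c a σ N η θ‖ ^ (2 * m)) ∂(GMs s d) ≤ _
  have hmeas : Measurable fun p : (Fin s → Fin d → ℝ) × (Fin n → ℝ) => ∏ j, ff s d c a σ N p.1 (p.2 j) := by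
    refine Finset.measurable_prod _ fun j _ => ?_
    exact Measurable.comp (g := fun p : (Fin s → Fin d → ℝ) × ℝ => ff s d c a σ N p.1 p.2)
      (f := fun p : (Fin s → Fin d → ℝ) × (Fin n → ℝ) => (p.1, p.2 j))
      (ff_continuous s d c a σ N).measurable (by fun_prop)
  have hI : Integrable (fun b : Fin n → ℝ => ∏ j, N604.MW.sq (b j))
      (Measure.pi fun _ : Fin n => volume.restrict {t : ℝ | η ≤ |t|}) :=
    Integrable.fintype_prod (f := fun _ : Fin n => N604.MW.sq) fun _ => hsi.integrableOn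
  have hint : Integrable (Function.uncurry fun (θ : Fin s → Fin d → ℝ) (b : Fin n → ℝ) =>
      ∏ j, ff s d c a σ N θ (b j)) ((GMs s d).prod (Measure.pi fun _ : Fin n => volume.restrict {t : ℝ | η ≤ |t|})) := by
    refine ((hI.comp_snd (GMs s d)).const_mul (CC s a σ ^ n)).mono' hmeas.aestronglyMeasurable
      (ae_of_all _ fun p => ?_)
    show ‖∏ j, ff s d c a σ N p.1 (p.2 j)‖ ≤ CC s a σ ^ n * ∏ j, N604.MW.sq (p.2 j)
    rw [norm_prod]
    refine (Finset.prod_le_prod (fun j _ => norm_nonneg _) fun j _ => ff_norm_le s d c a σ N p.1 (p.2 j)).trans ?_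
    rw [Finset.prod_mul_distrib]
    simp
  have hEi : Integrable (fun θ => ‖EK s d c a σ N η θ‖ ^ (2 * m)) (GMs s d) := by
    have h1 := hint.integral_prod_left
    refine Integrable.congr (f := fun θ => ‖∫ b : Fin n → ℝ, ∏ j, ff s d c a σ N θ (b j)
      ∂(Measure.pi fun _ : Fin n => volume.restrict {t : ℝ | η ≤ |t|})‖) h1.norm (ae_of_all _ fun θ => ?_)
    simp only
    rw [← EK_pow, norm_pow, hn]
  have e1 : ∫⁻ θ, ENNReal.ofReal (‖EK s d c a σ N η θ‖ ^ (2 * m)) ∂(GMs s d) =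
      ‖∫ b : Fin n → ℝ, (∫ θ, ∏ j, ff s d c a σ N θ (b j) ∂(GMs s d))
        ∂(Measure.pi fun _ : Fin n => volume.restrict {t : ℝ | η ≤ |t|})‖ₑ := by
    rw [← integral_integral_swap hint, ← ofReal_integral_eq_lintegral_ofReal hEi (ae_of_all _ fun θ => by positivity)]
    have h1 : ∫ θ, (∫ b : Fin n → ℝ, ∏ j, ff s d c a σ N θ (b j)
        ∂(Measure.pi fun _ : Fin n => volume.restrict {t : ℝ | η ≤ |t|})) ∂(GMs s d) =
        ((∫ θ, ‖EK s d c a σ N η θ‖ ^ (2 * m) ∂(GMs s d) : ℝ) : ℂ) := by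
      refine Eq.trans ?_ integral_complex_ofReal
      refine integral_congr_ae (ae_of_all _ fun θ => ?_)
      simp only
      rw [← EK_pow, hn]
      exact (EK_norm_pow s d c a σ N η θ m).symm
    rw [h1, ← ofReal_norm, Complex.norm_real, Real.norm_eq_abs, abs_of_nonneg]
    exact integral_nonneg fun θ => by positivity
  rw [e1]
  refine (enorm_integral_le_lintegral_enorm _).trans ?_
  have hpi : (Measure.pi fun _ : Fin n => volume.restrict {t : ℝ | η ≤ |t|}) =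
      (volume : Measure (Fin n → ℝ)).restrict {γ : Fin n → ℝ | ∀ j, η ≤ |γ j|} := by
    rw [volume_pi, ← Measure.restrict_pi_pi]
    congr 1
    ext γ
    simp
  have hSm : MeasurableSet {γ : Fin n → ℝ | ∀ j, η ≤ |γ j|} := by
    have : {γ : Fin n → ℝ | ∀ j, η ≤ |γ j|} = Set.univ.pi fun _ => {t : ℝ | η ≤ |t|} := by
      ext γ
      simp
    rw [this]
    exact MeasurableSet.univ_pi fun _ => meas_R η
  rw [hpi]
  subst hn
  rw [lintegral_indicator hSm]
  refine lintegral_mono fun b => ?_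
  show ‖∫ θ, ∏ j, ff s d c a σ N θ (b j) ∂(GMs s d)‖ₑ ≤ _
  rw [← ofReal_norm]
  refine ENNReal.ofReal_le_ofReal ((norm_inner s d c a σ N (2 * m) b).trans ?_)
  refine mul_le_mul_of_nonneg_right ?_ ?_
  · exact Finset.prod_le_prod (fun j _ => sq_nonneg' _) fun j _ => (hsq _).2.2
  · exact Finset.prod_nonneg fun i _ => GS_nonneg _ _ _ _

end Pool.Agent.N645.AKKmom
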