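import Pool.Agent.N988.ET.Stm
import Pool.Agent.N988.EC.BO

/-!
# Project ET (helper988), part MP: assembly
-/

set_option autoImplicit false

open MeasureTheory Set Filter
open scoped Topology
open Pool.Agent.N988.EA Pool.Agent.N988.EC Pool.Agent.N988.EP Pool.Agent.N988.ES Pool.Agent.N988.ET

namespace Pool.Agent.N645.ET

theorem card_edge (b : ℕ) (n : ℕ) : Fintype.card (Edge b n) = (2 * b) ^ n := by
  induction n with
  | zero => rfl
  | succ n ih =>
    have h : Fintype.card (Edge b (n + 1)) = Fintype.card (Fin b × Bool × Edge b n) := rfl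
    rw [h, Fintype.card_prod, Fintype.card_prod, Fintype.card_fin, Fintype.card_bool, ih]
    ring

theorem thm_zero (h1 : S_BAS) (h2 : S_FR) (b : ℕ) (p : ℝ) (hc : Crit b p) : Thm b p 0 := by
  classical
  intro t ht
  have hb : 1 ≤ b := by
    have := hc.two
    omega
  obtain ⟨-, -, hK, -⟩ := h1 b 0 hb p hc.pos hc.lt
  obtain ⟨hf, hx, -⟩ := h2 b p hc 0
  have hnk : ¬ Known (fresh b 0) := by
    rw [hK, hf, hx]
    rintro (h | h)
    · exact hc.pos.ne' h
    · exact hc.lt.ne h
  have hk : ∀ (a : Edge b 0 → Option Bool) (e : Edge b 0) (x : Bool), a e = some x → Known a := by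
    intro a e x ha w w' hw hw'
    have h : w = w' := by
      funext e'
      have he : e' = e := Subsingleton.elim (α := Unit) e' e
      subst he
      rw [hw e' x ha, hw' e' x ha]
    rw [h]
  cases t with
  | stop => exact absurd ht hnk
  | ask e t u =>
    obtain ⟨-, -, h3, h4⟩ := ht
    cases t with
    | ask _ _ _ => exact absurd (hk _ e false (Function.update_self _ _ _)) h3.1
    | stop =>
      cases u with
      | ask _ _ _ => exact absurd (hk _ e true (Function.update_self _ _ _)) h4.1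
      | stop => exact ⟨by simp [cost], Or.inl rfl, trivial, trivial⟩

theorem one_le_mul (b : ℕ) (p : ℝ) (hc : Crit b p) : 1 ≤ b * p := by
  have h1 : 1 + (b : ℝ) * (-(p ^ 2)) ≤ (1 + -(p ^ 2)) ^ b :=
    one_add_mul_le_pow (by nlinarith [hc.pos, hc.lt]) b
  have h2 := hc.fix
  have h3 : (1 + -(p ^ 2)) ^ b = 1 - p := by
    rw [← sub_eq_add_neg]
    linarith
  rw [h3] at h1
  have h4 : p * 1 ≤ p * (b * p) := by nlinarith
  exact le_of_mul_le_mul_left h4 hc.pos

theorem t_MP (h1 : S_BAS) (h2 : S_FR) (h3 : S_IND) : S_MP := by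
  intro b hb
  obtain ⟨p, hp0, hp1, hfix, hiter, -⟩ := Pool.Agent.N283.EP.t_FIX b hb
  have hb1 : 1 ≤ b := by omega
  obtain ⟨hY, -, -⟩ := k_LOW b hb1
  have hYset : ∀ (n : ℕ), {w : Edge b n → Bool | across w = 0} = {w | Y n w = 0} := by
    intro n
    ext w
    simp only [Set.mem_ofPred_eq, hY]
  have hx : ∀ p' : ℝ, 0 ≤ p' → p' ≤ 1 →
      (fun n : ℕ => (iid (coin (1 - p')) b n).real {w | across w = 0}) 0 = p' ∧
      ∀ n : ℕ, (fun n : ℕ => (iid (coin (1 - p')) b n).real {w | across w = 0}) (n + 1) =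
        1 - (1 - (fun n : ℕ => (iid (coin (1 - p')) b n).real {w | across w = 0}) n ^ 2) ^ b := by
    intro p' h0 h1
    obtain ⟨ha, hb'⟩ := k_LAW b hb1 p' h0 h1
    refine ⟨?_, fun n => ?_⟩
    · show (iid (coin (1 - p')) b 0).real {w | across w = 0} = p'
      rw [hYset]
      exact ha
    · show (iid (coin (1 - p')) b (n + 1)).real {w | across w = 0} =
        1 - (1 - (iid (coin (1 - p')) b n).real {w | across w = 0} ^ 2) ^ b
      rw [hYset, hYset]
      exact (hb' n).1
  have hc : Crit b p := ⟨hb, hp0, hp1, hfix⟩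
  have hT : ∀ n, Thm b p n := by
    intro n
    induction n with
    | zero => exact thm_zero h1 h2 b p hc
    | succ n ih => exact h3 b p hc n ih
  refine ⟨p, hp0, hp1, fun p' h0 hlt => ?_, fun p' hlt h1' => ?_,
    fun n => ⟨fun e => ⟨rfl, fun e' _ => ?_⟩, ?_, fun t ht => ?_⟩, ?_⟩
  · obtain ⟨ha, hb'⟩ := hx p' h0 (hlt.le.trans hp1.le)
    exact (hiter _ (h0.trans_eq ha.symm) hb').1 (lt_of_eq_of_lt ha hlt)
  · obtain ⟨ha, hb'⟩ := hx p' (hp0.le.trans hlt.le) h1'
    exact (hiter _ ((hp0.le.trans hlt.le).trans_eq ha.symm) hb').2 (lt_of_lt_of_eq hlt ha.symm)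
      (le_of_eq_of_le ha h1')
  · have h4 := (h2 b p hc n).2.2
    exact ((h4 e').trans (h4 e).symm).le
  · exact (h1 b n hb1 p hp0 hp1).2.2.2.2.2.1 _
  · rw [(h1 b n hb1 p hp0 hp1).2.2.2.2.2.2 t _ ht]
    exact (hT n t ht).1
  · have hbp := one_le_mul b p hc
    have hb' : (2 : ℝ) ≤ b := by exact_mod_cast hb
    have hA1 : 1 < 1 + 1 / p := by
      have : 0 < 1 / p := by positivity
      linarith
    have hAB : 1 + 1 / p < 2 * b := by
      have : 1 / p ≤ b := by
        rw [div_le_iff₀ hp0]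
        exact hbp
      linarith
    have hlA : 0 < Real.log (1 + 1 / p) := Real.log_pos hA1
    have hlAB : Real.log (1 + 1 / p) < Real.log (2 * b) := Real.log_lt_log (by linarith) hAB
    have hlB : 0 < Real.log (2 * b) := hlA.trans hlAB
    refine ⟨1 - Real.log (1 + 1 / p) / Real.log (2 * b), ?_, fun n => ?_⟩
    · rw [sub_pos, div_lt_one hlB]
      exact hlAB
    · rw [card_edge, sub_sub_cancel]
      refine le_of_eq ?_
      have hB0 : (0 : ℝ) < 2 * b := by linarith
      push_cast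
      rw [← Real.rpow_natCast_mul hB0.le, mul_comm (n : ℝ), Real.rpow_mul_natCast hB0.le]
      congr 1
      rw [Real.rpow_def_of_pos hB0, mul_div_cancel₀ _ hlB.ne', Real.exp_log (by linarith)]

end Pool.Agent.N645.ET
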