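import Pool.Agent.N404.EX.Stm

set_option autoImplicit false

/-!
# Project EX, MATCH (helper645): alternating edges of the circuits
-/

namespace Pool.Agent.N645.EXM

open Finset Classical Function
open Pool.Agent.N404.EX

section

variable {V : Type} [Fintype V] (σ : Equiv.Perm V) (X : Finset V)

lemma per (v : V) : v ∈ periodicPts σ := σ.injective.mem_periodicPts v

lemma kpos (v : V) : 0 < minimalPeriod σ v := minimalPeriod_pos_of_mem_periodicPts (per σ v)

/-- the base point of a circuit -/
noncomputable def bp (q : Quotient (Equiv.Perm.SameCycle.setoid σ)) : V :=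
  if h : ∃ x, x ∈ X ∧ Quotient.mk (Equiv.Perm.SameCycle.setoid σ) x = q then h.choose else q.out

lemma bp_mk (q : Quotient (Equiv.Perm.SameCycle.setoid σ)) :
    Quotient.mk (Equiv.Perm.SameCycle.setoid σ) (bp σ X q) = q := by
  unfold bp
  split_ifs with h
  · exact h.choose_spec.2
  · exact q.out_eq

lemma bp_mem {q : Quotient (Equiv.Perm.SameCycle.setoid σ)}
    (h : ∃ x, x ∈ X ∧ Quotient.mk (Equiv.Perm.SameCycle.setoid σ) x = q) : bp σ X q ∈ X := by
  unfold bp
  rw [dif_pos h]
  exact h.choose_spec.1

/-- the base point of the circuit of `v` -/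
noncomputable def p (v : V) : V := bp σ X (Quotient.mk (Equiv.Perm.SameCycle.setoid σ) v)

lemma p_same (v : V) : σ.SameCycle (p σ X v) v := Quotient.exact (bp_mk σ X _)

lemma p_mem {v x : V} (hx : x ∈ X) (h : σ.SameCycle v x) : p σ X v ∈ X :=
  bp_mem σ X ⟨x, hx, Quotient.sound h.symm⟩

lemma p_apply (v : V) : p σ X (σ v) = p σ X v := by
  unfold p
  congr 1
  exact Quotient.sound (Equiv.Perm.sameCycle_apply_left.2 (Equiv.Perm.SameCycle.refl _ _))

lemma k_apply (v : V) : minimalPeriod σ (σ v) = minimalPeriod σ v :=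
  minimalPeriod_apply_iterate (per σ v) 1

lemma k_p (v : V) : minimalPeriod σ (p σ X v) = minimalPeriod σ v := by
  obtain ⟨n, hn⟩ := (p_same σ X v).exists_nat_pow_eq
  have h := minimalPeriod_apply_iterate (per σ (p σ X v)) n
  rw [Equiv.Perm.iterate_eq_pow, hn] at h
  exact h.symm

lemma ex_idx (v : V) : ∃ i, i < minimalPeriod σ v ∧ σ^[i] (p σ X v) = v := by
  obtain ⟨n, hn⟩ := (p_same σ X v).exists_nat_pow_eq
  refine ⟨n % minimalPeriod σ v, Nat.mod_lt _ (kpos σ v), ?_⟩
  rw [← k_p σ X v, iterate_mod_minimalPeriod_eq, Equiv.Perm.iterate_eq_pow, hn]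

/-- the position of `v` on its circuit -/
noncomputable def idx (v : V) : ℕ := (ex_idx σ X v).choose

lemma idx_lt (v : V) : idx σ X v < minimalPeriod σ v := (ex_idx σ X v).choose_spec.1

lemma idx_eq (v : V) : σ^[idx σ X v] (p σ X v) = v := (ex_idx σ X v).choose_spec.2

lemma idx_uniq {v : V} {i : ℕ} (hi : i < minimalPeriod σ v) (h : σ^[i] (p σ X v) = v) :
    idx σ X v = i := by
  have h1 := idx_lt σ X v
  rw [← k_p σ X v] at hi h1
  exact (iterate_eq_iterate_iff_of_lt_minimalPeriod h1 hi).1 ((idx_eq σ X v).trans h.symm)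

lemma idx_succ {v : V} (h : idx σ X v + 1 < minimalPeriod σ v) : idx σ X (σ v) = idx σ X v + 1 := by
  refine idx_uniq σ X (by rw [k_apply]; exact h) ?_
  rw [p_apply, iterate_succ_apply', idx_eq]

lemma idx_pred {v w : V} (hw : σ w = v) (h : 0 < idx σ X v) : idx σ X w = idx σ X v - 1 := by
  have h1 := idx_lt σ X v
  have hk : minimalPeriod σ w = minimalPeriod σ v := by rw [← hw, k_apply]
  have hp : p σ X w = p σ X v := by rw [← hw, p_apply]
  refine idx_uniq σ X (by rw [hk]; omega) ?_
  apply σ.injective
  rw [hp, ← iterate_succ_apply' σ, hw]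
  have : (idx σ X v - 1).succ = idx σ X v := by omega
  rw [this, idx_eq]

/-- the matching -/
noncomputable def bt (v : V) : V :=
  if Odd (minimalPeriod σ v) then
    (if idx σ X v = 0 then v else if Odd (idx σ X v) then σ v else σ.symm v)
  else (if Even (idx σ X v) then σ v else σ.symm v)

lemma bt_bt (v : V) : bt σ X (bt σ X v) = v := by
  have h1 := idx_lt σ X v
  obtain ⟨w, hw⟩ : ∃ w, σ w = v := ⟨σ.symm v, by simp⟩
  have hws : σ.symm v = w := by rw [← hw]; simp
  have hkw : minimalPeriod σ w = minimalPeriod σ v := by rw [← hw, k_apply]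
  by_cases hk : Odd (minimalPeriod σ v)
  · by_cases h0 : idx σ X v = 0
    · have e : bt σ X v = v := by unfold bt; rw [if_pos hk, if_pos h0]
      rw [e, e]
    · by_cases ho : Odd (idx σ X v)
      · have e : bt σ X v = σ v := by unfold bt; rw [if_pos hk, if_neg h0, if_pos ho]
        have h2 : idx σ X v + 1 < minimalPeriod σ v := by
          rcases hk with ⟨a, ha⟩
          rcases ho with ⟨b, hb⟩
          omega
        have h3 := idx_succ σ X h2
        rw [e]
        unfold bt
        rw [k_apply, if_pos hk, h3, if_neg (by omega), if_neg (by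
          rw [Nat.not_odd_iff_even]
          exact ho.add_one)]
        simp
      · have e : bt σ X v = w := by unfold bt; rw [if_pos hk, if_neg h0, if_neg ho, hws]
        have h3 := idx_pred σ X hw (by omega)
        have he : Even (idx σ X v) := Nat.not_odd_iff_even.1 ho
        rw [e]
        unfold bt
        rw [hkw, if_pos hk, h3, if_neg (by
          rcases he with ⟨b, hb⟩
          omega), if_pos (by
          rcases he with ⟨b, hb⟩
          exact ⟨b - 1, by omega⟩)]
        exact hw
  · by_cases he : Even (idx σ X v)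
    · have e : bt σ X v = σ v := by unfold bt; rw [if_neg hk, if_pos he]
      have h2 : idx σ X v + 1 < minimalPeriod σ v := by
        rcases Nat.not_odd_iff_even.1 hk with ⟨a, ha⟩
        rcases he with ⟨b, hb⟩
        omega
      have h3 := idx_succ σ X h2
      rw [e]
      unfold bt
      rw [k_apply, if_neg hk, h3, if_neg (by
        rw [Nat.not_even_iff_odd]
        exact he.add_one)]
      simp
    · have ho := Nat.not_even_iff_odd.1 he
      have e : bt σ X v = w := by unfold bt; rw [if_neg hk, if_neg he, hws]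
      have h3 := idx_pred σ X hw ho.pos
      rw [e]
      unfold bt
      rw [hkw, if_neg hk, h3, if_pos (by
        rcases ho with ⟨b, hb⟩
        exact ⟨b, by omega⟩)]
      exact hw

end

/-- **MATCH**: alternating edges of the circuits. -/
theorem main : S_MATCH := by
  intro V _ σ X _ hX
  refine ⟨bt σ X, bt_bt σ X, fun v hv => ?_, fun v hv => ?_⟩
  · have hk := hX.2 v hv
    obtain ⟨x, -, hu⟩ := hX.1 v hk
    have h1 : v = x := hu v ⟨hv, Equiv.Perm.SameCycle.refl _ _⟩
    have h2 : p σ X v = x := hu (p σ X v) ⟨p_mem σ X hv (Equiv.Perm.SameCycle.refl _ _), (p_same σ X v).symm⟩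
    have h3 : idx σ X v = 0 := idx_uniq σ X (kpos σ v) (by
      show p σ X v = v
      rw [h2, ← h1])
    unfold bt
    rw [if_pos hk, if_pos h3]
  · unfold bt
    split_ifs with hk h0 ho he
    · exfalso
      obtain ⟨x, ⟨hx, hs⟩, -⟩ := hX.1 v hk
      have h1 := idx_eq σ X v
      rw [h0] at h1
      apply hv
      have h2 : p σ X v = v := h1
      rw [← h2]
      exact p_mem σ X hx hs
    · exact Or.inl rfl
    · exact Or.inr rfl
    · exact Or.inl rfl
    · exact Or.inr rfl

end Pool.Agent.N645.EXM
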